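import Pool.Agent.Y883.T3.Lsh
import Pool.Agent.W93.LV2

set_option autoImplicit false

/-! A model of the von Mangoldt function minus its sieve model, whose exponential sum is large only
near rational numbers with small denominators. -/

namespace Pool.Agent.Y883.T3

open Finset
open Pool.Agent.H807R2.Dav
open Pool.Agent.H373R2.T7

theorem model (U : ℕ) : ∃ B : ℕ, ∀ E : ℕ, ∃ N0 : ℕ, ∀ N : ℕ, N0 ≤ N → ∀ z : ℕ, Real.log N ^ B ≤ z →
    (z : ℝ) ≤ Real.log N ^ E → ∃ f : ℕ → ℝ,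
    (∑ n ∈ Icc 1 N, |(ArithmeticFunction.vonMangoldt n - lamz z n) - f n| ≤ N / Real.log N ^ U) ∧
    (∑ n ∈ Icc 1 N, f n ^ 2 ≤ N * Real.log N ^ 8) ∧
    (∀ α : ℝ, ‖∑ n ∈ Icc 1 N, ((f n : ℝ) : ℂ) * ee ((n : ℝ) * α)‖ ≤ N / Real.log N ^ U) ∧
    (∀ K : ℝ, 1 ≤ K → K ≤ (N : ℝ) ^ (17 / 100 : ℝ) → ∀ α : ℝ,
      N / K < ‖∑ n ∈ Icc 1 N, ((f n : ℝ) : ℂ) * ee ((n : ℝ) * α)‖ →
      ∃ x : ℚ, (x.den : ℝ) ≤ K ^ 2 * Real.log N ^ 18 ∧
        |α - x| ≤ K ^ 2 * Real.log N ^ 18 / (x.den * N)) := by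
  classical
  obtain ⟨B, hB⟩ := sup_diff (U + 1)
  refine ⟨B, fun E => ?_⟩
  obtain ⟨n1, h1⟩ := hB E
  obtain ⟨n2, h2⟩ := choice 1 E (U + 2) 100
  obtain ⟨n3, h3⟩ := Vz_inv_small E
  obtain ⟨n4, h4⟩ := vin_pow
  obtain ⟨n5, h5⟩ := ev_log_rpow 20 4 (1 / 100) (by norm_num)
  obtain ⟨n6, h6⟩ := ev_L' 100000
  refine ⟨n1 + n2 + n3 + n4 + n5 + n6 + 16, fun N hN z hz1 hz2 => ?_⟩
  have a1 := h1 N (by omega) z hz1 hz2
  obtain ⟨r, hr1, hr2, -⟩ := h2 N (by omega) z hz2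
  have hL := h6 N (by omega)
  have hz1' : 1 ≤ z := by
    have : (1 : ℝ) ≤ z := (one_le_pow₀ (by linarith)).trans hz1
    exact_mod_cast this
  have a3 := h3 N (by omega) z hz1' hz2
  have a4 := h4 N (by omega)
  have a5 := h5 N (by omega)
  have hN16 : (16 : ℝ) ≤ N := by exact_mod_cast (by omega : 16 ≤ N)
  have hN0 : (0 : ℝ) < N := by linarith
  obtain ⟨L, hLd⟩ : ∃ L, L = Real.log (N : ℝ) := ⟨_, rfl⟩
  rw [← hLd] at a1 hr1 hL a3 a4 a5 ⊢
  have hL0 : 0 < L := by linarith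
  have hL1 : 1 ≤ L := by linarith
  have hV0 : 0 < (Vz z)⁻¹ := inv_pos.2 (Vz_pos z)
  have hpart : ∑ n ∈ Icc 1 N, |lamz z n - lsh z r n| ≤ N / L ^ (U + 1) := by
    refine (lsh_l1 z r N).trans ?_
    have e1 : Real.exp (3 * (1 + Real.log z) - r) ≤ 1 / L ^ (U + 2) := by
      refine le_trans (le_of_eq ?_) hr1
      push_cast
      ring_nf
    calc (Vz z)⁻¹ * (N * Real.exp (3 * (1 + Real.log z) - r)) ≤ L * (N * (1 / L ^ (U + 2))) := by gcongr
      _ = N / L ^ (U + 1) := by rw [pow_succ L (U + 1)]; field_simp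
  have hLU : (N : ℝ) / L ^ (U + 1) = N / L ^ U / L := by rw [pow_succ, div_div]
  have hLU0 : 0 ≤ (N : ℝ) / L ^ U := by positivity
  have hLU2 : (N : ℝ) / L ^ (U + 1) ≤ N / L ^ U / 2 := by
    rw [hLU]
    exact div_le_div_of_nonneg_left hLU0 (by norm_num) (by linarith)
  obtain ⟨f, hf⟩ : ∃ f : ℕ → ℝ, f = fun n => ArithmeticFunction.vonMangoldt n - lsh z r n := ⟨_, rfl⟩
  have hdiff : ∑ n ∈ Icc 1 N, |(ArithmeticFunction.vonMangoldt n - lamz z n) - f n| ≤ N / L ^ (U + 1) := by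
    refine le_trans (le_of_eq ?_) hpart
    apply sum_congr rfl
    intro n _
    rw [hf]
    simp only
    rw [abs_sub_comm (lamz z n)]
    congr 1
    ring
  refine ⟨f, ?_, ?_, ?_, ?_⟩
  · linarith
  · have e1 : ∀ n ∈ Icc 1 N, f n ^ 2 ≤ 2 * L ^ 2 + 2 * L ^ 2 * (n.divisors.card : ℝ) ^ 2 := by
      intro n hn
      rw [mem_Icc] at hn
      have e2 := lsh_le z r n hn.1
      have e3 : |lsh z r n| ≤ L * n.divisors.card :=
        e2.trans (mul_le_mul_of_nonneg_right a3 (Nat.cast_nonneg _))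
      have e4 : ArithmeticFunction.vonMangoldt n ≤ L := by
        refine ArithmeticFunction.vonMangoldt_le_log.trans ?_
        rw [hLd]
        exact Real.log_le_log (by exact_mod_cast hn.1) (by exact_mod_cast hn.2)
      have e5 : (0 : ℝ) ≤ ArithmeticFunction.vonMangoldt n := ArithmeticFunction.vonMangoldt_nonneg
      have e6 : ArithmeticFunction.vonMangoldt n ^ 2 ≤ L ^ 2 := pow_le_pow_left₀ e5 e4 2
      have e7 : lsh z r n ^ 2 ≤ (L * n.divisors.card) ^ 2 := by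
        rw [← sq_abs]
        exact pow_le_pow_left₀ (abs_nonneg _) e3 2
      rw [hf]
      simp only
      nlinarith [sq_nonneg (ArithmeticFunction.vonMangoldt n + lsh z r n)]
    refine (sum_le_sum e1).trans ?_
    rw [sum_add_distrib, sum_const, Nat.card_Icc, nsmul_eq_mul, ← mul_sum, Nat.add_sub_cancel]
    have e2 := Pool.Agent.W93.LV.tau_sq N
    rw [← hLd] at e2
    have e3 : (1 + L) ^ 3 ≤ (2 * L) ^ 3 := pow_le_pow_left₀ (by linarith) (by linarith) 3
    have e4 : (N : ℝ) * (1 + L) ^ 3 ≤ N * (2 * L) ^ 3 := mul_le_mul_of_nonneg_left e3 hN0.le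
    calc (N : ℝ) * (2 * L ^ 2) + 2 * L ^ 2 * ∑ n ∈ Icc 1 N, (n.divisors.card : ℝ) ^ 2 ≤
          N * (2 * L ^ 2) + 2 * L ^ 2 * (N * (2 * L) ^ 3) := by
          gcongr
          exact e2.trans e4
      _ = N * (2 * L ^ 2 + 16 * L ^ 5) := by ring
      _ ≤ N * L ^ 8 := by
          apply mul_le_mul_of_nonneg_left _ hN0.le
          have e5 : L ^ 2 ≤ L ^ 5 := pow_le_pow_right₀ hL1 (by norm_num)
          have e6 : (100000 : ℝ) * L ^ 5 ≤ L * L ^ 5 := mul_le_mul_of_nonneg_right hL (by positivity)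
          have e7 : L ^ 6 ≤ L ^ 8 := pow_le_pow_right₀ hL1 (by norm_num)
          have e8 : L * L ^ 5 = L ^ 6 := by ring
          have e9 : 0 ≤ L ^ 5 := by positivity
          linarith
  · intro α
    have e1 : ∑ n ∈ Icc 1 N, ((f n : ℝ) : ℂ) * ee ((n : ℝ) * α) =
        ∑ n ∈ Icc 1 N, ((ArithmeticFunction.vonMangoldt n - lamz z n : ℝ) : ℂ) * ee ((n : ℝ) * α) -
        ∑ n ∈ Icc 1 N, (((ArithmeticFunction.vonMangoldt n - lamz z n) - f n : ℝ) : ℂ) * ee ((n : ℝ) * α) := by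
      rw [← sum_sub_distrib]
      apply sum_congr rfl
      intro n _
      push_cast
      ring
    rw [e1]
    refine (norm_sub_le _ _).trans ?_
    have e2 : ‖∑ n ∈ Icc 1 N, (((ArithmeticFunction.vonMangoldt n - lamz z n) - f n : ℝ) : ℂ) * ee ((n : ℝ) * α)‖ ≤
        N / L ^ (U + 1) := by
      refine le_trans ?_ hdiff
      refine (norm_sum_le _ _).trans (sum_le_sum fun n _ => ?_)
      rw [norm_mul, norm_ee, mul_one, Complex.norm_real, Real.norm_eq_abs]
    linarith [a1 α]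
  · intro K hK1 hK2 α hbig
    have hK0 : 0 < K := by linarith
    obtain ⟨Y, hY⟩ : ∃ Y, Y = K ^ 2 * L ^ 18 := ⟨_, rfl⟩
    rw [← hY]
    have hL18 : 1 ≤ L ^ 18 := one_le_pow₀ hL1
    have hY1 : 1 ≤ Y := by
      rw [hY]
      exact one_le_mul_of_one_le_of_one_le (one_le_pow₀ hK1) hL18
    have hY0 : 0 < Y := by linarith
    have hYN : Y ≤ N := by
      have e1 : K ^ 2 ≤ ((N : ℝ) ^ (17 / 100 : ℝ)) ^ 2 := pow_le_pow_left₀ hK0.le hK2 2
      have e2 : L ^ 18 ≤ (N : ℝ) ^ (1 / 100 : ℝ) := by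
        have e3 : L ^ 18 ≤ 4 * L ^ 20 := by
          have : L ^ 18 ≤ L ^ 20 := pow_le_pow_right₀ hL1 (by norm_num)
          have : 0 ≤ L ^ 20 := by positivity
          linarith
        exact e3.trans a5
      calc Y = K ^ 2 * L ^ 18 := hY
        _ ≤ ((N : ℝ) ^ (17 / 100 : ℝ)) ^ 2 * (N : ℝ) ^ (1 / 100 : ℝ) := mul_le_mul e1 e2 (by positivity) (by positivity)
        _ = (N : ℝ) ^ (7 / 20 : ℝ) := by
            rw [← Real.rpow_natCast, ← Real.rpow_mul hN0.le, ← Real.rpow_add hN0]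
            norm_num
        _ ≤ (N : ℝ) ^ (1 : ℝ) := Real.rpow_le_rpow_of_exponent_le (by linarith) (by norm_num)
        _ = N := Real.rpow_one _
    obtain ⟨n0, hn0⟩ : ∃ n0, n0 = ⌊(N : ℝ) / Y⌋₊ := ⟨_, rfl⟩
    have hn0pos : 0 < n0 := by
      rw [hn0]
      apply Nat.floor_pos.2
      rw [le_div_iff₀ hY0, one_mul]
      exact hYN
    have hn0le : (n0 : ℝ) ≤ N / Y := by rw [hn0]; exact Nat.floor_le (by positivity)
    have hn0lt : (N : ℝ) / Y < n0 + 1 := by rw [hn0]; exact Nat.lt_floor_add_one _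
    obtain ⟨x, hx1, hx2⟩ := Real.exists_rat_abs_sub_le_and_den_le α hn0pos
    have hden0 : (0 : ℝ) < x.den := by exact_mod_cast x.den_pos
    have hden1 : (1 : ℝ) ≤ x.den := by exact_mod_cast x.den_pos
    have hclose : |α - x| ≤ Y / (x.den * N) := by
      refine hx1.trans ?_
      rw [div_le_div_iff₀ (by positivity) (by positivity), one_mul]
      rw [div_lt_iff₀ hY0] at hn0lt
      calc (x.den : ℝ) * N ≤ x.den * ((n0 + 1) * Y) := mul_le_mul_of_nonneg_left hn0lt.le hden0.le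
        _ = Y * ((n0 + 1) * x.den) := by ring
    refine ⟨x, ?_, hclose⟩
    by_contra hcon
    rw [not_le] at hcon
    have hxn0 : (x.den : ℝ) ≤ n0 := by exact_mod_cast hx2
    have hcop : IsCoprime x.num (x.den : ℤ) := by
      rw [Int.isCoprime_iff_gcd_eq_one]
      have := x.reduced
      unfold Nat.Coprime at this
      rw [Int.gcd_def]
      simpa using this
    have hsq : |α - x.num / (x.den : ℕ)| ≤ 1 / ((x.den : ℕ) : ℝ) ^ 2 := by
      have e1 : (x : ℝ) = x.num / (x.den : ℕ) := Rat.cast_def x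
      rw [← e1]
      refine hx1.trans ?_
      rw [div_le_div_iff₀ (by positivity) (by positivity), one_mul, one_mul, pow_two]
      apply mul_le_mul_of_nonneg_right _ hden0.le
      linarith
    -- the von Mangoldt function
    have hlow : (2 * K) ^ 2 * L ^ 16 ≤ x.den := by
      refine le_trans ?_ hcon.le
      rw [hY]
      have e1 : (4 : ℝ) ≤ L ^ 2 := by nlinarith
      calc (2 * K) ^ 2 * L ^ 16 = K ^ 2 * L ^ 16 * 4 := by ring
        _ ≤ K ^ 2 * L ^ 16 * L ^ 2 := mul_le_mul_of_nonneg_left e1 (by positivity)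
        _ = K ^ 2 * L ^ 18 := by ring
    have hhigh : (x.den : ℝ) ≤ N / ((2 * K) ^ 2 * L ^ 16) := by
      refine hxn0.trans (hn0le.trans ?_)
      apply div_le_div_of_nonneg_left hN0.le (by positivity)
      rw [hY]
      have e1 : (4 : ℝ) ≤ L ^ 2 := by nlinarith
      calc (2 * K) ^ 2 * L ^ 16 = K ^ 2 * L ^ 16 * 4 := by ring
        _ ≤ K ^ 2 * L ^ 16 * L ^ 2 := mul_le_mul_of_nonneg_left e1 (by positivity)
        _ = K ^ 2 * L ^ 18 := by ring
    have h2K : 2 * K ≤ (N : ℝ) ^ (9 / 50 : ℝ) := by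
      have e1 : (2 : ℝ) ≤ (N : ℝ) ^ (1 / 100 : ℝ) := by
        refine le_trans ?_ a5
        have : 1 ≤ L ^ 20 := one_le_pow₀ hL1
        linarith
      calc 2 * K ≤ (N : ℝ) ^ (1 / 100 : ℝ) * (N : ℝ) ^ (17 / 100 : ℝ) := mul_le_mul e1 hK2 hK0.le (by positivity)
        _ = (N : ℝ) ^ (9 / 50 : ℝ) := by rw [← Real.rpow_add hN0]; norm_num
    have b1 := a4 (2 * K) (by linarith) h2K x.den hlow hhigh x.num hcop α hsq
    -- the sieve part
    obtain ⟨D, hD⟩ : ∃ D, D = (z + 1) ^ r := ⟨_, rfl⟩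
    have hD1 : 1 ≤ D := by rw [hD]; exact Nat.one_le_pow _ _ (by omega)
    have hD100 : (D : ℝ) ^ 100 ≤ N := by
      rw [hD]
      push_cast
      exact hr2
    have hDr : (D : ℝ) ≤ (N : ℝ) ^ (1 / 100 : ℝ) := by
      have hD0 : (0 : ℝ) ≤ D := Nat.cast_nonneg _
      calc (D : ℝ) = ((D : ℝ) ^ (100 : ℕ)) ^ (1 / 100 : ℝ) := by
            rw [← Real.rpow_natCast, ← Real.rpow_mul hD0]
            norm_num
        _ ≤ (N : ℝ) ^ (1 / 100 : ℝ) := Real.rpow_le_rpow (by positivity) hD100 (by norm_num)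
    have hDN : (D : ℝ) ≤ N := by
      refine hDr.trans ?_
      calc (N : ℝ) ^ (1 / 100 : ℝ) ≤ (N : ℝ) ^ (1 : ℝ) := Real.rpow_le_rpow_of_exponent_le (by linarith) (by norm_num)
        _ = N := Real.rpow_one _
    have hlogD : (Nat.log 2 D : ℝ) ≤ 2 * L := by
      have h4 : (2 : ℝ) ^ Nat.log 2 D ≤ D := by exact_mod_cast Nat.pow_log_le_self 2 (by omega : D ≠ 0)
      have h6 := Real.log_le_log (by positivity) (h4.trans hDN)
      rw [Real.log_pow, ← hLd] at h6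
      have := Real.log_two_gt_d9
      have h7 : (0 : ℝ) ≤ Nat.log 2 D := Nat.cast_nonneg _
      nlinarith
    have b2 := lsh_exp z r N α
    rw [← hD] at b2
    have b3 := typeI_lin x.den_pos hcop hsq N D (by omega) hD1
    have hdenN : (x.den : ℝ) ≤ N := hxn0.trans (hn0le.trans (div_le_self hN0.le hY1))
    have hlq : Real.log x.den ≤ L := by rw [hLd]; exact Real.log_le_log hden0 hdenN
    have hlq0 : 0 ≤ Real.log x.den := Real.log_nonneg hden1
    have hZ : (N : ℝ) / x.den + D + x.den ≤ 3 * (N / (K * L ^ 16)) := by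
      have c1 : K * L ^ 16 ≤ (2 * K) ^ 2 * L ^ 16 := by
        apply mul_le_mul_of_nonneg_right _ (by positivity)
        nlinarith
      have z1 : (N : ℝ) / x.den ≤ N / (K * L ^ 16) :=
        div_le_div_of_nonneg_left hN0.le (by positivity) (c1.trans hlow)
      have z3 : (x.den : ℝ) ≤ N / (K * L ^ 16) :=
        hhigh.trans (div_le_div_of_nonneg_left hN0.le (by positivity) c1)
      have z2 : (D : ℝ) ≤ N / (K * L ^ 16) := by
        rw [le_div_iff₀ (by positivity)]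
        have c2 : L ^ 16 ≤ (N : ℝ) ^ (1 / 100 : ℝ) := by
          have e3 : L ^ 16 ≤ 4 * L ^ 20 := by
            have : L ^ 16 ≤ L ^ 20 := pow_le_pow_right₀ hL1 (by norm_num)
            have : 0 ≤ L ^ 20 := by positivity
            linarith
          exact e3.trans a5
        calc (D : ℝ) * (K * L ^ 16) ≤ (N : ℝ) ^ (1 / 100 : ℝ) * ((N : ℝ) ^ (17 / 100 : ℝ) * (N : ℝ) ^ (1 / 100 : ℝ)) := by
              gcongr
          _ = (N : ℝ) ^ (19 / 100 : ℝ) := by rw [← Real.rpow_add hN0, ← Real.rpow_add hN0]; norm_num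
          _ ≤ (N : ℝ) ^ (1 : ℝ) := Real.rpow_le_rpow_of_exponent_le (by linarith) (by norm_num)
          _ = N := Real.rpow_one _
      linarith
    have hZ0 : 0 ≤ (N : ℝ) / x.den + D + x.den := by positivity
    have b4 : ‖∑ n ∈ Icc 1 N, ((lsh z r n : ℝ) : ℂ) * ee ((n : ℝ) * α)‖ ≤ N / (2 * K) := by
      refine b2.trans ?_
      calc (Vz z)⁻¹ * ∑ d ∈ Icc 1 D, KK (2 * N / d) (d * α) ≤
            L * (600 * (2 * L + 1) * (3 * (N / (K * L ^ 16))) * (1 + L)) := by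
            apply mul_le_mul a3 _ (sum_nonneg fun d _ => KK_nonneg (by positivity) _) hL0.le
            refine b3.trans ?_
            gcongr
        _ ≤ L * (600 * (3 * L) * (3 * (N / (K * L ^ 16))) * (2 * L)) := by
            gcongr
            · linarith
            · linarith
        _ = (10800 / L ^ 13) * (N / K) := by field_simp; ring
        _ ≤ (1 / 2) * (N / K) := by
            apply mul_le_mul_of_nonneg_right _ (by positivity)
            rw [div_le_div_iff₀ (by positivity) (by norm_num)]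
            have : L ^ 1 ≤ L ^ 13 := pow_le_pow_right₀ hL1 (by norm_num)
            linarith
        _ = N / (2 * K) := by field_simp
    have b5 : ∑ n ∈ Icc 1 N, ((f n : ℝ) : ℂ) * ee ((n : ℝ) * α) =
        ∑ n ∈ Icc 1 N, ((ArithmeticFunction.vonMangoldt n : ℝ) : ℂ) * ee ((n : ℝ) * α) -
        ∑ n ∈ Icc 1 N, ((lsh z r n : ℝ) : ℂ) * ee ((n : ℝ) * α) := by
      rw [← sum_sub_distrib]
      apply sum_congr rfl
      intro n _
      rw [hf]
      push_cast
      ring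
    rw [b5] at hbig
    have b6 := norm_sub_le (∑ n ∈ Icc 1 N, ((ArithmeticFunction.vonMangoldt n : ℝ) : ℂ) * ee ((n : ℝ) * α))
      (∑ n ∈ Icc 1 N, ((lsh z r n : ℝ) : ℂ) * ee ((n : ℝ) * α))
    have b7 : (N : ℝ) / (2 * K) + N / (2 * K) = N / K := by field_simp; norm_num
    linarith

end Pool.Agent.Y883.T3
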