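import Pool.Agent.Y883.T3.LvlG
import Pool.Agent.TH935.GF

set_option autoImplicit false

/-! A modulus with many multiples that do not have the expected numbers of Goldbach pairs in windows gives
a large first moment. -/

namespace Pool.Agent.Y883.T3

open Finset
open Pool.Agent.H373R2.T7 (fz lamI lamzI lamz ev_L' ev_log')
open Pool.Agent.W93.PG (GoodG pg_det win_count WinP)
open Pool.Agent.W93.GB (vM_le)

/-- the reflected and normalized von Mangoldt function -/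
noncomputable def GW (N y a : ℕ) : ℂ :=
  if a ∈ Icc 1 y then (((ArithmeticFunction.vonMangoldt (y + 1 - a) : ℝ) / Real.log N : ℝ) : ℂ) else 0

lemma GW_le (N y : ℕ) (hN : 3 ≤ N) (hy : y ≤ N) (a : ℕ) : ‖GW N y a‖ ≤ 1 := by
  have h0 : 0 < Real.log N := by
    apply Real.log_pos
    have : (3 : ℝ) ≤ N := by exact_mod_cast hN
    linarith
  unfold GW
  split_ifs with ha
  · rw [mem_Icc] at ha
    rw [Complex.norm_real, Real.norm_eq_abs, abs_div, abs_of_nonneg ArithmeticFunction.vonMangoldt_nonneg,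
      abs_of_pos h0, div_le_one h0]
    exact vM_le _ _ (by omega) (by omega)
  · rw [norm_zero]; exact zero_le_one

/-- the replacement of the function by its model -/
lemma replaceW (N z y n : ℕ) (hN : 3 ≤ N) (hn : n ≤ N) (hy : y ≤ N) (f : ℕ → ℝ) :
    |∑ b ∈ Icc 1 y, ArithmeticFunction.vonMangoldt b * (lamI ((n : ℤ) - b) - lamzI z ((n : ℤ) - b))| /
      Real.log N - ∑ k ∈ Icc 1 N, |(ArithmeticFunction.vonMangoldt k - lamz z k) - f k| ≤
    ‖∑ a ∈ Icc 1 y, GW N y a * fz (fun k => ((f k : ℝ) : ℂ)) N ((a : ℤ) + ((n : ℤ) - ((y : ℤ) + 1)))‖ := by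
  classical
  have h0 : 0 < Real.log N := by
    apply Real.log_pos
    have : (3 : ℝ) ≤ N := by exact_mod_cast hN
    linarith
  have h1 := Pool.Agent.W93.PG.reflect (fun n => (ArithmeticFunction.vonMangoldt n : ℝ)) z y ((n : ℕ) : ℤ)
  obtain ⟨G, hG⟩ : ∃ G : ℕ → ℝ, G = fun a => if a ∈ Icc 1 y then (ArithmeticFunction.vonMangoldt (y + 1 - a) : ℝ) / Real.log N else 0 := ⟨_, rfl⟩
  have hGW : ∀ a, GW N y a = ((G a : ℝ) : ℂ) := by
    intro a
    unfold GW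
    rw [hG]
    simp only
    split_ifs <;> simp
  have hG1 : ∀ a, |G a| ≤ 1 := by
    intro a
    have := GW_le N y hN hy a
    rw [hGW, Complex.norm_real, Real.norm_eq_abs] at this
    exact this
  obtain ⟨F, hF⟩ : ∃ F : ℤ → ℝ, F = fun k : ℤ => if 1 ≤ k ∧ k ≤ N then f k.toNat else 0 := ⟨_, rfl⟩
  have e1 : ∑ a ∈ Icc 1 y, GW N y a * fz (fun k => ((f k : ℝ) : ℂ)) N ((a : ℤ) + ((n : ℤ) - ((y : ℤ) + 1))) =
      ((∑ a ∈ Icc 1 y, G a * F ((a : ℤ) + ((n : ℤ) - ((y : ℤ) + 1))) : ℝ) : ℂ) := by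
    push_cast
    apply sum_congr rfl
    intro a _
    rw [hGW]
    unfold fz
    rw [hF]
    simp only
    by_cases hc : 1 ≤ (a : ℤ) + ((n : ℤ) - ((y : ℤ) + 1)) ∧ (a : ℤ) + ((n : ℤ) - ((y : ℤ) + 1)) ≤ N
    · rw [if_pos hc, if_pos hc]
    · rw [if_neg hc, if_neg hc]; simp
  rw [e1, Complex.norm_real, Real.norm_eq_abs]
  have e2 : (∑ b ∈ Icc 1 y, ArithmeticFunction.vonMangoldt b * (lamI ((n : ℤ) - b) - lamzI z ((n : ℤ) - b))) /
      Real.log N = ∑ a ∈ Icc 1 y, G a * (lamI ((a : ℤ) + ((n : ℤ) - ((y : ℤ) + 1))) - lamzI z ((a : ℤ) + ((n : ℤ) - ((y : ℤ) + 1)))) := by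
    rw [← h1, hG, sum_div]
    apply sum_congr rfl
    intro a ha
    simp only
    rw [if_pos ha]
    ring
  have e3 : |∑ b ∈ Icc 1 y, ArithmeticFunction.vonMangoldt b * (lamI ((n : ℤ) - b) - lamzI z ((n : ℤ) - b))| /
      Real.log N = |∑ a ∈ Icc 1 y, G a * (lamI ((a : ℤ) + ((n : ℤ) - ((y : ℤ) + 1))) - lamzI z ((a : ℤ) + ((n : ℤ) - ((y : ℤ) + 1))))| := by
    rw [← e2, abs_div, abs_of_pos h0]
  rw [e3]
  have e4 : |∑ a ∈ Icc 1 y, G a * (lamI ((a : ℤ) + ((n : ℤ) - ((y : ℤ) + 1))) - lamzI z ((a : ℤ) + ((n : ℤ) - ((y : ℤ) + 1))))| -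
      |∑ a ∈ Icc 1 y, G a * F ((a : ℤ) + ((n : ℤ) - ((y : ℤ) + 1)))| ≤
      |∑ a ∈ Icc 1 y, G a * ((lamI ((a : ℤ) + ((n : ℤ) - ((y : ℤ) + 1))) - lamzI z ((a : ℤ) + ((n : ℤ) - ((y : ℤ) + 1)))) -
        F ((a : ℤ) + ((n : ℤ) - ((y : ℤ) + 1))))| := by
    refine (abs_sub_abs_le_abs_sub _ _).trans (le_of_eq ?_)
    rw [← sum_sub_distrib]
    congr 1
    apply sum_congr rfl
    intro a _
    ring
  have e5 : |∑ a ∈ Icc 1 y, G a * ((lamI ((a : ℤ) + ((n : ℤ) - ((y : ℤ) + 1))) - lamzI z ((a : ℤ) + ((n : ℤ) - ((y : ℤ) + 1)))) -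
        F ((a : ℤ) + ((n : ℤ) - ((y : ℤ) + 1))))| ≤ ∑ k ∈ Icc 1 N, |(ArithmeticFunction.vonMangoldt k - lamz z k) - f k| := by
    obtain ⟨gk, hgk⟩ : ∃ gk : ℕ → ℝ, gk = fun k => |(ArithmeticFunction.vonMangoldt k - lamz z k) - f k| := ⟨_, rfl⟩
    obtain ⟨I, hI⟩ : ∃ I : Finset ℕ, I = (Icc 1 y).filter (fun a : ℕ => 1 ≤ (a : ℤ) + ((n : ℤ) - ((y : ℤ) + 1))) := ⟨_, rfl⟩
    have f1 : ∀ a ∈ Icc 1 y, |G a * ((lamI ((a : ℤ) + ((n : ℤ) - ((y : ℤ) + 1))) - lamzI z ((a : ℤ) + ((n : ℤ) - ((y : ℤ) + 1)))) -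
        F ((a : ℤ) + ((n : ℤ) - ((y : ℤ) + 1))))| ≤
        if 1 ≤ (a : ℤ) + ((n : ℤ) - ((y : ℤ) + 1)) then gk ((a : ℤ) + ((n : ℤ) - ((y : ℤ) + 1))).toNat else 0 := by
      intro a ha
      rw [mem_Icc] at ha
      rw [hF, hgk]
      unfold lamI lamzI
      simp only
      by_cases hc : 1 ≤ (a : ℤ) + ((n : ℤ) - ((y : ℤ) + 1))
      · rw [if_pos hc, if_pos hc, if_pos hc, if_pos ⟨hc, by omega⟩, abs_mul]
        exact mul_le_of_le_one_left (abs_nonneg _) (hG1 a)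
      · rw [if_neg hc, if_neg hc, if_neg hc, if_neg (by intro h; exact hc h.1)]
        simp
    refine (abs_sum_le_sum_abs _ _).trans ((sum_le_sum f1).trans ?_)
    rw [← sum_filter, ← hI]
    have f2 : ∑ a ∈ I, gk ((a : ℤ) + ((n : ℤ) - ((y : ℤ) + 1))).toNat =
        ∑ k ∈ I.image (fun a : ℕ => ((a : ℤ) + ((n : ℤ) - ((y : ℤ) + 1))).toNat), gk k := by
      rw [sum_image]
      intro a ha b hb h
      rw [hI, mem_coe, mem_filter] at ha hb
      simp only at h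
      omega
    rw [f2]
    have f3 : I.image (fun a : ℕ => ((a : ℤ) + ((n : ℤ) - ((y : ℤ) + 1))).toNat) ⊆ Icc 1 N := by
      intro k hk
      rw [mem_image] at hk
      obtain ⟨a, ha, rfl⟩ := hk
      rw [hI, mem_filter, mem_Icc] at ha
      rw [mem_Icc]
      omega
    have f4 := sum_le_sum_of_subset_of_nonneg (f := gk) f3 (fun k _ _ => by rw [hgk]; exact abs_nonneg _)
    refine f4.trans (le_of_eq ?_)
    rw [hgk]
  linarith

theorem momW (ε : ℝ) (hε : 0 < ε) (Aw m₀ : ℕ) (P₀ : ℕ → Prop)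
    (hP : ∀ m : ℕ, m₀ ≤ m → 2 ∣ m → WinP ε Aw m → P₀ m) (A : ℕ) : ∃ A' : ℕ, MomP P₀ A A' := by
  classical
  obtain ⟨V, hV⟩ : ∃ V : ℕ, V = Aw + (A + 1) + 4 := ⟨_, rfl⟩
  refine ⟨A + V + 3, V + 6, fun E1 hE1 => ?_⟩
  obtain ⟨X1, hdet⟩ := pg_det V E1 hE1
  obtain ⟨X2, hwin⟩ := win_count ε hε Aw (A + 1)
  obtain ⟨n2, h2⟩ := ev_L' 32
  obtain ⟨n4, h4⟩ := ev_log' (A + 1) 1
  refine ⟨X1 + X2 + n2 + n4 + m₀ ^ 2 + 4, fun N hN z hz1 hz2 f hf Q q hQ hQq hqQ hbad => ?_⟩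
  have hL := h2 N (by omega)
  have c4 := h4 N (by omega)
  have hN3 : 3 ≤ N := by omega
  have hN1 : 1 ≤ N := by omega
  have hN0 : (0 : ℝ) < N := by exact_mod_cast hN1
  have hdet' := hdet N (by omega)
  have hwin' := hwin N (by omega)
  have hreg : ∀ n : ℕ, n ≤ N → 2 ∣ n → n ≠ 0 → (N : ℝ) / Real.log N ^ (A + 1) ≤ n → m₀ ≤ n → ∀ T : ℕ, Real.log N ^ (V + 3) ≤ T →
      ¬ P₀ n → ∃ i ∈ range (T + 1), (N : ℝ) / Real.log N ^ (V + 2) < |∑ b ∈ Icc 1 (min (i * (N / T + 1)) N), ArithmeticFunction.vonMangoldt b *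
        (lamI ((n : ℤ) - b) - lamzI z ((n : ℤ) - b))| := by
    intro n hnN h2n hn0 hnl hnm T hT hnP
    by_contra hcon
    push Not at hcon
    apply hnP
    apply hP n hnm h2n
    intro y₁ y₂ h12 hy2 hΔ
    refine hwin' n hnN hnl ?_ y₁ y₂ h12 hy2 hΔ
    intro y hy
    rw [← hV]
    exact hdet' n hnN h2n hn0 z hz1 hz2 T hT hcon y hy
  clear hdet' hwin' hdet hwin
  obtain ⟨L, hLd⟩ : ∃ L, L = Real.log (N : ℝ) := ⟨_, rfl⟩
  rw [← hLd] at hL c4 hf hbad hreg ⊢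
  have hL0 : 0 < L := by linarith
  have hL1 : 1 ≤ L := by linarith
  rw [one_mul] at c4
  obtain ⟨s, hs⟩ : ∃ s, s = Nat.lcm 2 q := ⟨_, rfl⟩
  rw [← hs]
  have hsq : Q ≤ s ∧ q ≤ s := by
    rcases lcm_two_cases q with ⟨h4, h5⟩ | ⟨h4, h5⟩ <;> rw [← hs] at h5 <;> omega
  have hq0 : 0 < q := by omega
  have hs0 : 0 < s := by omega
  have hq0r : (0 : ℝ) < q := by exact_mod_cast hq0
  have hs0r : (0 : ℝ) < s := by exact_mod_cast hs0
  have hQ0r : (0 : ℝ) < Q := by exact_mod_cast hQ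
  obtain ⟨P, hPd⟩ : ∃ P, P = N / Q := ⟨_, rfl⟩
  rw [← hPd]
  obtain ⟨Bd, hBd⟩ : ∃ Bd, Bd = badm P₀ N q := ⟨_, rfl⟩
  rw [← hBd] at hbad
  have hmem : ∀ n ∈ Bd, 1 ≤ n ∧ n ≤ N ∧ 2 ∣ n ∧ s ∣ n ∧ ¬ P₀ n := by
    intro n hn
    rw [hBd] at hn
    unfold badm at hn
    rw [mem_filter, mem_Icc] at hn
    refine ⟨hn.1.1, hn.1.2, hn.2.1, ?_, hn.2.2.2⟩
    rw [hs]
    exact Nat.lcm_dvd hn.2.1 hn.2.2.1
  obtain ⟨B1, hB1⟩ : ∃ B1, B1 = Bd.filter (fun n : ℕ => (n : ℝ) < N / L ^ (A + 1)) := ⟨_, rfl⟩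
  obtain ⟨B2, hB2⟩ : ∃ B2, B2 = Bd.filter (fun n : ℕ => ¬ (n : ℝ) < N / L ^ (A + 1)) := ⟨_, rfl⟩
  have hcard : B1.card + B2.card = Bd.card := by
    rw [hB1, hB2]; exact card_filter_add_card_filter_not _
  have hB1c : (B1.card : ℝ) ≤ N / (q * L ^ (A + 1)) := by
    have h3 : B1.card ≤ (Icc 1 ⌊(N : ℝ) / (s * L ^ (A + 1))⌋₊).card := by
      apply card_le_card_of_injOn (fun n => n / s)
      · intro n hn
        rw [mem_coe, hB1, mem_filter] at hn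
        obtain ⟨a1, a2, a3, a4, a5⟩ := hmem n hn.1
        rw [mem_coe, mem_Icc]
        refine ⟨Nat.div_pos (Nat.le_of_dvd (by omega) a4) hs0, Nat.le_floor ?_⟩
        rw [Nat.cast_div a4 hs0r.ne', div_le_div_iff₀ hs0r (by positivity)]
        have h4 := hn.2.le
        rw [le_div_iff₀ (by positivity)] at h4
        calc (n : ℝ) * (s * L ^ (A + 1)) = (n * L ^ (A + 1)) * s := by ring
          _ ≤ N * s := mul_le_mul_of_nonneg_right h4 hs0r.le
      · intro n hn n' hn' h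
        rw [mem_coe, hB1, mem_filter] at hn hn'
        obtain ⟨a1, a2, a3, a4, a5⟩ := hmem n hn.1
        obtain ⟨b1, b2, b3, b4, b5⟩ := hmem n' hn'.1
        simp only at h
        rw [← Nat.div_mul_cancel a4, ← Nat.div_mul_cancel b4, h]
    rw [Nat.card_Icc, Nat.add_sub_cancel] at h3
    have h4 := Nat.floor_le (show 0 ≤ (N : ℝ) / (s * L ^ (A + 1)) by positivity)
    calc (B1.card : ℝ) ≤ (⌊(N : ℝ) / (s * L ^ (A + 1))⌋₊ : ℝ) := by exact_mod_cast h3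
      _ ≤ N / (s * L ^ (A + 1)) := h4
      _ ≤ N / (q * L ^ (A + 1)) := by
          apply div_le_div_of_nonneg_left hN0.le (by positivity)
          apply mul_le_mul_of_nonneg_right _ (by positivity)
          exact_mod_cast hsq.2
  have hB2c : (P : ℝ) / (4 * L ^ A) ≤ B2.card := by
    have h3 : (B1.card : ℝ) + B2.card = Bd.card := by exact_mod_cast hcard
    have h4 : (N : ℝ) / (q * L ^ (A + 1)) ≤ N / (q * L ^ A) / 2 := by
      rw [pow_succ, ← mul_assoc, ← div_div]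
      exact div_le_div_of_nonneg_left (by positivity) (by norm_num) (by linarith)
    have h5 : (P : ℝ) / (4 * L ^ A) ≤ N / (q * L ^ A) / 2 := by
      have h6 : (P : ℝ) * q ≤ 2 * N := by
        have h7 : P * q ≤ 2 * N := by
          calc P * q ≤ P * (2 * Q) := Nat.mul_le_mul_left _ hqQ.le
            _ = 2 * (P * Q) := by ring
            _ ≤ 2 * N := Nat.mul_le_mul_left _ (by rw [hPd]; exact Nat.div_mul_le_self _ _)
        exact_mod_cast h7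
      rw [div_div, div_le_div_iff₀ (by positivity) (by positivity)]
      calc (P : ℝ) * (q * L ^ A * 2) = (P * q) * (2 * L ^ A) := by ring
        _ ≤ (2 * N) * (2 * L ^ A) := mul_le_mul_of_nonneg_right h6 (by positivity)
        _ = N * (4 * L ^ A) := by ring
    linarith
  -- the grid
  obtain ⟨T, hT⟩ : ∃ T, T = ⌈L ^ (V + 3)⌉₊ := ⟨_, rfl⟩
  have hT1 : L ^ (V + 3) ≤ T := by rw [hT]; exact Nat.le_ceil _
  have hT2 : (T : ℝ) + 1 ≤ L ^ (V + 4) := by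
    have h5 : (T : ℝ) < L ^ (V + 3) + 1 := by rw [hT]; exact Nat.ceil_lt_add_one (by positivity)
    have h6 : 1 ≤ L ^ (V + 3) := one_le_pow₀ hL1
    rw [show V + 4 = (V + 3) + 1 by ring, pow_succ L (V + 3)]
    nlinarith
  have hss : √(N : ℝ) * √(N : ℝ) = N := Real.mul_self_sqrt hN0.le
  have hs0' : 0 < √(N : ℝ) := Real.sqrt_pos.2 hN0
  have hbig : ∀ n ∈ B2, ∃ i ∈ range (T + 1), (N : ℝ) / L ^ (V + 2) <
      |∑ b ∈ Icc 1 (min (i * (N / T + 1)) N), ArithmeticFunction.vonMangoldt b *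
        (lamI ((n : ℤ) - b) - lamzI z ((n : ℤ) - b))| := by
    intro n hn
    rw [hB2, mem_filter, not_lt] at hn
    obtain ⟨a1, a2, a3, a4, a5⟩ := hmem n hn.1
    have hmsq : √(N : ℝ) ≤ n := by
      refine le_trans ?_ hn.2
      rw [le_div_iff₀ (by positivity)]
      calc √(N : ℝ) * L ^ (A + 1) ≤ √(N : ℝ) * √(N : ℝ) := mul_le_mul_of_nonneg_left c4 hs0'.le
        _ = N := hss
    have hmm : m₀ ≤ n := by
      have h5 : ((m₀ : ℕ) : ℝ) ≤ √(N : ℝ) := by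
        apply Real.le_sqrt_of_sq_le
        exact_mod_cast (by omega : m₀ ^ 2 ≤ N)
      exact_mod_cast h5.trans hmsq
    exact hreg n a2 a3 (by omega) hn.2 hmm T hT1 a5
  choose! ii hii using hbig
  have hT0 : (0 : ℝ) < ((T + 1 : ℕ) : ℝ) := by positivity
  obtain ⟨i, hiT, hic⟩ := exists_le_card_fiber_of_nsmul_le_card_of_maps_to (M := ℝ)
    (b := (B2.card : ℝ) / ((T + 1 : ℕ) : ℝ)) (s := B2) (t := range (T + 1)) (f := ii)
    (fun n hn => (hii n hn).1) (nonempty_range_iff.2 (by omega)) (by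
      rw [card_range, nsmul_eq_mul, mul_div_cancel₀ _ hT0.ne'])
  obtain ⟨B3, hB3⟩ : ∃ B3, B3 = B2.filter (fun n => ii n = i) := ⟨_, rfl⟩
  rw [← hB3] at hic
  obtain ⟨y, hy⟩ : ∃ y, y = min (i * (N / T + 1)) N := ⟨_, rfl⟩
  have hyN : y ≤ N := by rw [hy]; exact min_le_right _ _
  have hB3c : (P : ℝ) / (4 * L ^ (A + V + 4)) ≤ B3.card := by
    refine le_trans ?_ hic
    rw [div_le_div_iff₀ (by positivity) hT0]
    rw [div_le_iff₀ (by positivity)] at hB2c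
    push_cast
    calc (P : ℝ) * ((T : ℝ) + 1) ≤ (B2.card * (4 * L ^ A)) * L ^ (V + 4) :=
          mul_le_mul hB2c hT2 (by positivity) (by positivity)
      _ = B2.card * (4 * L ^ (A + V + 4)) := by rw [show A + V + 4 = A + (V + 4) by ring, pow_add L A (V + 4)]; ring
  refine ⟨GW N y, y, GW_le N y hN3 hyN, hyN, ?_⟩
  -- the terms
  obtain ⟨Vf, hVf⟩ : ∃ Vf : ℕ → ℝ, Vf = fun m : ℕ => ‖∑ a ∈ Icc 1 y, GW N y a *
        fz (fun k => ((f k : ℝ) : ℂ)) N ((a : ℤ) + ((s : ℤ) * m + (-((y : ℤ) + 1))))‖ := ⟨_, rfl⟩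
  have hterm : ∀ n ∈ B3, (N : ℝ) / (2 * L ^ (V + 3)) ≤ Vf (n / s) := by
    intro n hn
    rw [hB3, mem_filter] at hn
    have hn2 := hn.1
    rw [hB2, mem_filter, not_lt] at hn2
    obtain ⟨a1, a2, a3, a4, a5⟩ := hmem n hn2.1
    have h3 := (hii n hn.1).2
    rw [hn.2, ← hy] at h3
    have h4 := replaceW N z y n hN3 a2 hyN f
    rw [← hLd] at h4
    have h5 : Vf (n / s) = ‖∑ a ∈ Icc 1 y, GW N y a * fz (fun k => ((f k : ℝ) : ℂ)) N ((a : ℤ) + ((n : ℤ) - ((y : ℤ) + 1)))‖ := by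
      rw [hVf]
      simp only
      have h6 : (s : ℤ) * ((n / s : ℕ) : ℤ) = n := by exact_mod_cast Nat.mul_div_cancel' a4
      rw [h6]
      rfl
    rw [h5]
    have h6 : (N : ℝ) / L ^ (V + 2) / L ≤ |∑ b ∈ Icc 1 y, ArithmeticFunction.vonMangoldt b * (lamI ((n : ℤ) - b) - lamzI z ((n : ℤ) - b))| / L :=
      div_le_div_of_nonneg_right h3.le hL0.le
    have h7 : (N : ℝ) / L ^ (V + 2) / L = 2 * (N / (2 * L ^ (V + 3))) := by
      rw [pow_succ L (V + 2)]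
      field_simp
    have h8 : (N : ℝ) / L ^ (A + V + 3 + 6) ≤ N / (2 * L ^ (V + 3)) := by
      apply div_le_div_of_nonneg_left hN0.le (by positivity)
      rw [show A + V + 3 + 6 = (V + 3) + 1 + (A + 5) by ring, pow_add L ((V + 3) + 1), pow_succ L (V + 3)]
      have h9 : 1 ≤ L ^ (A + 5) := one_le_pow₀ hL1
      have h10 : 0 < L ^ (V + 3) := by positivity
      calc 2 * L ^ (V + 3) = L ^ (V + 3) * 2 := mul_comm _ _
        _ ≤ L ^ (V + 3) * L := mul_le_mul_of_nonneg_left (by linarith) h10.le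
        _ ≤ L ^ (V + 3) * L * L ^ (A + 5) := le_mul_of_one_le_right (by positivity) h9
    linarith
  have hsum : (B3.card : ℝ) * (N / (2 * L ^ (V + 3))) ≤ ∑ m ∈ Icc 1 P, Vf m := by
    calc (B3.card : ℝ) * (N / (2 * L ^ (V + 3))) = ∑ _n ∈ B3, (N : ℝ) / (2 * L ^ (V + 3)) := by
          rw [sum_const, nsmul_eq_mul]
      _ ≤ ∑ n ∈ B3, Vf (n / s) := sum_le_sum hterm
      _ = ∑ m ∈ B3.image (fun n => n / s), Vf m := by
          rw [sum_image]
          intro n hn n' hn' h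
          rw [mem_coe, hB3, mem_filter, hB2, mem_filter] at hn hn'
          obtain ⟨a1, a2, a3, a4, a5⟩ := hmem n hn.1.1
          obtain ⟨b1, b2, b3, b4, b5⟩ := hmem n' hn'.1.1
          simp only at h
          rw [← Nat.div_mul_cancel a4, ← Nat.div_mul_cancel b4, h]
      _ ≤ ∑ m ∈ Icc 1 P, Vf m := by
          apply sum_le_sum_of_subset_of_nonneg
          · intro m hm
            rw [mem_image] at hm
            obtain ⟨n, hn, rfl⟩ := hm
            rw [hB3, mem_filter, hB2, mem_filter] at hn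
            obtain ⟨a1, a2, a3, a4, a5⟩ := hmem n hn.1.1
            rw [mem_Icc]
            refine ⟨Nat.div_pos (Nat.le_of_dvd (by omega) a4) hs0, ?_⟩
            rw [hPd]
            calc n / s ≤ N / s := Nat.div_le_div_right a2
              _ ≤ N / Q := Nat.div_le_div_left hsq.1 (by omega)
          · intro m _ _
            rw [hVf]
            exact norm_nonneg _
  have hfin : (N : ℝ) / L ^ (2 * (A + V + 3) + 4) * P ≤ (P : ℝ) / (4 * L ^ (A + V + 4)) * (N / (2 * L ^ (V + 3))) := by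
    have e1 : (P : ℝ) / (4 * L ^ (A + V + 4)) * (N / (2 * L ^ (V + 3))) = N * P / (8 * L ^ (A + 2 * V + 7)) := by
      rw [div_mul_div_comm]
      congr 1
      · ring
      · rw [show A + 2 * V + 7 = (A + V + 4) + (V + 3) by ring, pow_add L (A + V + 4) (V + 3)]
        ring
    rw [e1, div_mul_eq_mul_div]
    apply div_le_div_of_nonneg_left (by positivity) (by positivity)
    rw [show 2 * (A + V + 3) + 4 = (A + 2 * V + 7) + 1 + (A + 2) by ring, pow_add L ((A + 2 * V + 7) + 1), pow_succ L (A + 2 * V + 7)]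
    have h9 : 1 ≤ L ^ (A + 2) := one_le_pow₀ hL1
    have h10 : 0 < L ^ (A + 2 * V + 7) := by positivity
    calc 8 * L ^ (A + 2 * V + 7) = L ^ (A + 2 * V + 7) * 8 := mul_comm _ _
      _ ≤ L ^ (A + 2 * V + 7) * L := mul_le_mul_of_nonneg_left (by linarith) h10.le
      _ ≤ L ^ (A + 2 * V + 7) * L * L ^ (A + 2) := le_mul_of_one_le_right (by positivity) h9
  have hlast : (P : ℝ) / (4 * L ^ (A + V + 4)) * (N / (2 * L ^ (V + 3))) ≤ B3.card * (N / (2 * L ^ (V + 3))) :=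
    mul_le_mul_of_nonneg_right hB3c (by positivity)
  have := hfin.trans (hlast.trans hsum)
  rw [hVf] at this
  exact this

end Pool.Agent.Y883.T3
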