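import Pool.Agent.Y883.T3.Mod
import Pool.Agent.Y883.Core
import Pool.Agent.W93.GB4

set_option autoImplicit false

/-! A modulus with many exceptional multiples gives a large first moment. -/

namespace Pool.Agent.Y883.T3

open Finset
open Pool.Agent.H373R2.T7 (fz lamI lamzI lamz ev_L')
open Pool.Agent.W93.GB (Good good_of reflect vM_bd)

/-- the reflected and normalized von Mangoldt function -/
noncomputable def GG (N a : ℕ) : ℂ :=
  (((ArithmeticFunction.vonMangoldt (N + 1 - a) : ℝ) / Real.log (N + 1 : ℕ) : ℝ) : ℂ)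

lemma GG_le (N : ℕ) (hN : 1 ≤ N) (a : ℕ) : ‖GG N a‖ ≤ 1 := by
  have h0 : 0 < Real.log (N + 1 : ℕ) := by
    apply Real.log_pos
    have : (1 : ℝ) ≤ N := by exact_mod_cast hN
    push_cast
    linarith
  unfold GG
  rw [Complex.norm_real, Real.norm_eq_abs, abs_div, abs_of_nonneg ArithmeticFunction.vonMangoldt_nonneg,
    abs_of_pos h0, div_le_one h0]
  exact vM_bd _ _ (Nat.sub_le _ _) (by omega)

/-- the replacement of the function by its model -/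
lemma replace (N z n : ℕ) (hN : 1 ≤ N) (hn : n ≤ N) (f : ℕ → ℝ) :
    |∑ b ∈ Icc 1 N, ArithmeticFunction.vonMangoldt b * (lamI ((n : ℤ) - b) - lamzI z ((n : ℤ) - b))| /
      Real.log (N + 1 : ℕ) - ∑ k ∈ Icc 1 N, |(ArithmeticFunction.vonMangoldt k - lamz z k) - f k| ≤
    ‖∑ a ∈ Icc 1 N, GG N a * fz (fun k => ((f k : ℝ) : ℂ)) N ((a : ℤ) + ((n : ℤ) - ((N : ℤ) + 1)))‖ := by
  classical
  have h0 : 0 < Real.log (N + 1 : ℕ) := by
    apply Real.log_pos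
    have : (1 : ℝ) ≤ N := by exact_mod_cast hN
    push_cast
    linarith
  have h1 := reflect N z n hn
  obtain ⟨G, hG⟩ : ∃ G : ℕ → ℝ, G = fun a => (ArithmeticFunction.vonMangoldt (N + 1 - a) : ℝ) / Real.log (N + 1 : ℕ) := ⟨_, rfl⟩
  have hG1 : ∀ a, |G a| ≤ 1 := by
    intro a
    have := GG_le N hN a
    unfold GG at this
    rw [Complex.norm_real, Real.norm_eq_abs] at this
    rw [hG]
    exact this
  obtain ⟨F, hF⟩ : ∃ F : ℤ → ℝ, F = fun k : ℤ => if 1 ≤ k ∧ k ≤ N then f k.toNat else 0 := ⟨_, rfl⟩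
  have e1 : ∑ a ∈ Icc 1 N, GG N a * fz (fun k => ((f k : ℝ) : ℂ)) N ((a : ℤ) + ((n : ℤ) - ((N : ℤ) + 1))) =
      ((∑ a ∈ Icc 1 N, G a * F ((a : ℤ) + ((n : ℤ) - ((N : ℤ) + 1))) : ℝ) : ℂ) := by
    push_cast
    apply sum_congr rfl
    intro a _
    unfold GG fz
    rw [hG, hF]
    simp only
    by_cases hc : 1 ≤ (a : ℤ) + ((n : ℤ) - ((N : ℤ) + 1)) ∧ (a : ℤ) + ((n : ℤ) - ((N : ℤ) + 1)) ≤ N
    · rw [if_pos hc, if_pos hc]
    · rw [if_neg hc, if_neg hc]; simp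
  rw [e1, Complex.norm_real, Real.norm_eq_abs]
  have e2 : (∑ b ∈ Icc 1 N, ArithmeticFunction.vonMangoldt b * (lamI ((n : ℤ) - b) - lamzI z ((n : ℤ) - b))) /
      Real.log (N + 1 : ℕ) = ∑ a ∈ Icc 1 N, G a * (lamI ((a : ℤ) + ((n : ℤ) - ((N : ℤ) + 1))) - lamzI z ((a : ℤ) + ((n : ℤ) - ((N : ℤ) + 1)))) := by
    rw [← h1, hG]
  have e3 : |∑ b ∈ Icc 1 N, ArithmeticFunction.vonMangoldt b * (lamI ((n : ℤ) - b) - lamzI z ((n : ℤ) - b))| /
      Real.log (N + 1 : ℕ) = |∑ a ∈ Icc 1 N, G a * (lamI ((a : ℤ) + ((n : ℤ) - ((N : ℤ) + 1))) - lamzI z ((a : ℤ) + ((n : ℤ) - ((N : ℤ) + 1))))| := by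
    rw [← e2, abs_div, abs_of_pos h0]
  rw [e3]
  have e4 : |∑ a ∈ Icc 1 N, G a * (lamI ((a : ℤ) + ((n : ℤ) - ((N : ℤ) + 1))) - lamzI z ((a : ℤ) + ((n : ℤ) - ((N : ℤ) + 1))))| -
      |∑ a ∈ Icc 1 N, G a * F ((a : ℤ) + ((n : ℤ) - ((N : ℤ) + 1)))| ≤
      |∑ a ∈ Icc 1 N, G a * ((lamI ((a : ℤ) + ((n : ℤ) - ((N : ℤ) + 1))) - lamzI z ((a : ℤ) + ((n : ℤ) - ((N : ℤ) + 1)))) -
        F ((a : ℤ) + ((n : ℤ) - ((N : ℤ) + 1))))| := by
    refine (abs_sub_abs_le_abs_sub _ _).trans (le_of_eq ?_)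
    rw [← sum_sub_distrib]
    congr 1
    apply sum_congr rfl
    intro a _
    ring
  have e5 : |∑ a ∈ Icc 1 N, G a * ((lamI ((a : ℤ) + ((n : ℤ) - ((N : ℤ) + 1))) - lamzI z ((a : ℤ) + ((n : ℤ) - ((N : ℤ) + 1)))) -
        F ((a : ℤ) + ((n : ℤ) - ((N : ℤ) + 1))))| ≤ ∑ k ∈ Icc 1 N, |(ArithmeticFunction.vonMangoldt k - lamz z k) - f k| := by
    obtain ⟨gk, hgk⟩ : ∃ gk : ℕ → ℝ, gk = fun k => |(ArithmeticFunction.vonMangoldt k - lamz z k) - f k| := ⟨_, rfl⟩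
    obtain ⟨I, hI⟩ : ∃ I : Finset ℕ, I = (Icc 1 N).filter (fun a : ℕ => 1 ≤ (a : ℤ) + ((n : ℤ) - ((N : ℤ) + 1))) := ⟨_, rfl⟩
    have f1 : ∀ a ∈ Icc 1 N, |G a * ((lamI ((a : ℤ) + ((n : ℤ) - ((N : ℤ) + 1))) - lamzI z ((a : ℤ) + ((n : ℤ) - ((N : ℤ) + 1)))) -
        F ((a : ℤ) + ((n : ℤ) - ((N : ℤ) + 1))))| ≤
        if 1 ≤ (a : ℤ) + ((n : ℤ) - ((N : ℤ) + 1)) then gk ((a : ℤ) + ((n : ℤ) - ((N : ℤ) + 1))).toNat else 0 := by
      intro a ha
      rw [mem_Icc] at ha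
      rw [hF, hgk]
      unfold lamI lamzI
      simp only
      by_cases hc : 1 ≤ (a : ℤ) + ((n : ℤ) - ((N : ℤ) + 1))
      · rw [if_pos hc, if_pos hc, if_pos hc, if_pos ⟨hc, by omega⟩, abs_mul]
        exact mul_le_of_le_one_left (abs_nonneg _) (hG1 a)
      · rw [if_neg hc, if_neg hc, if_neg hc, if_neg (by intro h; exact hc h.1)]
        simp
    refine (abs_sum_le_sum_abs _ _).trans ((sum_le_sum f1).trans ?_)
    rw [← sum_filter, ← hI]
    have f2 : ∑ a ∈ I, gk ((a : ℤ) + ((n : ℤ) - ((N : ℤ) + 1))).toNat =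
        ∑ k ∈ I.image (fun a : ℕ => ((a : ℤ) + ((n : ℤ) - ((N : ℤ) + 1))).toNat), gk k := by
      rw [sum_image]
      intro a ha b hb h
      rw [hI, mem_coe, mem_filter] at ha hb
      simp only at h
      omega
    rw [f2]
    have f3 : I.image (fun a : ℕ => ((a : ℤ) + ((n : ℤ) - ((N : ℤ) + 1))).toNat) ⊆ Icc 1 N := by
      intro k hk
      rw [mem_image] at hk
      obtain ⟨a, ha, rfl⟩ := hk
      rw [hI, mem_filter, mem_Icc] at ha
      rw [mem_Icc]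
      omega
    have f4 := sum_le_sum_of_subset_of_nonneg (f := gk) f3 (fun k _ _ => by rw [hgk]; exact abs_nonneg _)
    refine f4.trans (le_of_eq ?_)
    rw [hgk]
  linarith

theorem mom (ε : ℝ) (hε : 0 < ε) (A E : ℕ) : ∃ N₀ : ℕ, ∀ N : ℕ, N₀ ≤ N → ∀ z : ℕ, Real.log N ^ 3 ≤ z →
    (z : ℝ) ≤ Real.log N ^ E → ∀ f : ℕ → ℝ,
    (∑ k ∈ Icc 1 N, |(ArithmeticFunction.vonMangoldt k - lamz z k) - f k| ≤ N / Real.log N ^ (A + 6)) →
    ∀ Q q : ℕ, 1 ≤ Q → Q ≤ q → q < 2 * Q →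
    (N : ℝ) / (q * Real.log N ^ A) < (badm (Good ε) N q).card →
    ((N : ℝ) / Real.log N ^ (2 * A + 4)) * (N / Q : ℕ) ≤
      ∑ m ∈ Icc 1 (N / Q), ‖∑ a ∈ Icc 1 N, GG N a *
        fz (fun k => ((f k : ℝ) : ℂ)) N ((a : ℤ) + (((Nat.lcm 2 q : ℕ) : ℤ) * m + (-((N : ℤ) + 1))))‖ := by
  classical
  obtain ⟨n1, h1⟩ := good_of ε hε 1 (A + 1) E
  obtain ⟨n2, h2⟩ := ev_L' 16
  refine ⟨n1 + n2 + 3, fun N hN z hz1 hz2 f hf Q q hQ hQq hqQ hbad => ?_⟩
  have c1 := h1 N (by omega) z hz1 hz2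
  have hL := h2 N (by omega)
  have hN1 : 1 ≤ N := by omega
  have hN0 : (0 : ℝ) < N := by exact_mod_cast hN1
  obtain ⟨L, hLd⟩ : ∃ L, L = Real.log (N : ℝ) := ⟨_, rfl⟩
  rw [← hLd] at c1 hL hf hbad ⊢
  have hL0 : 0 < L := by linarith
  have hL1 : 1 ≤ L := by linarith
  have hlog0 : 0 < Real.log (N + 1 : ℕ) := by
    apply Real.log_pos
    have : (1 : ℝ) ≤ N := by exact_mod_cast hN1
    push_cast
    linarith
  have hlog2 : Real.log (N + 1 : ℕ) ≤ 2 * L := by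
    have h3 : ((N + 1 : ℕ) : ℝ) ≤ 2 * N := by
      have : (1 : ℝ) ≤ N := by exact_mod_cast hN1
      push_cast
      linarith
    have h4 := Real.log_le_log (by positivity) h3
    rw [Real.log_mul (by norm_num) hN0.ne', ← hLd] at h4
    have := Real.log_two_lt_d9
    linarith
  obtain ⟨s, hs⟩ : ∃ s, s = Nat.lcm 2 q := ⟨_, rfl⟩
  rw [← hs]
  have hsq : Q ≤ s ∧ q ≤ s := by
    rcases lcm_two_cases q with ⟨h4, h5⟩ | ⟨h4, h5⟩ <;> rw [← hs] at h5 <;> omega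
  have hq0 : 0 < q := by omega
  have hs0 : 0 < s := by omega
  have hq0r : (0 : ℝ) < q := by exact_mod_cast hq0
  have hs0r : (0 : ℝ) < s := by exact_mod_cast hs0
  have hQ0r : (0 : ℝ) < Q := by exact_mod_cast hQ
  obtain ⟨P, hP⟩ : ∃ P, P = N / Q := ⟨_, rfl⟩
  rw [← hP]
  obtain ⟨Bd, hBd⟩ : ∃ Bd, Bd = badm (Good ε) N q := ⟨_, rfl⟩
  rw [← hBd] at hbad
  have hmem : ∀ n ∈ Bd, 1 ≤ n ∧ n ≤ N ∧ 2 ∣ n ∧ s ∣ n ∧ ¬ Good ε n := by
    intro n hn
    rw [hBd] at hn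
    unfold badm at hn
    rw [mem_filter, mem_Icc] at hn
    refine ⟨hn.1.1, hn.1.2, hn.2.1, ?_, hn.2.2.2⟩
    rw [hs]
    exact Nat.lcm_dvd hn.2.1 hn.2.2.1
  obtain ⟨B1, hB1⟩ : ∃ B1, B1 = Bd.filter (fun n : ℕ => (n : ℝ) < N / L ^ (A + 1)) := ⟨_, rfl⟩
  obtain ⟨B2, hB2⟩ : ∃ B2, B2 = Bd.filter (fun n : ℕ => ¬ (n : ℝ) < N / L ^ (A + 1)) := ⟨_, rfl⟩
  have hcard : B1.card + B2.card = Bd.card := by
    rw [hB1, hB2]; exact card_filter_add_card_filter_not _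
  have hB1c : (B1.card : ℝ) ≤ N / (q * L ^ (A + 1)) := by
    have h3 : B1.card ≤ (Icc 1 ⌊(N : ℝ) / (s * L ^ (A + 1))⌋₊).card := by
      apply card_le_card_of_injOn (fun n => n / s)
      · intro n hn
        rw [mem_coe, hB1, mem_filter] at hn
        obtain ⟨a1, a2, a3, a4, a5⟩ := hmem n hn.1
        rw [mem_coe, mem_Icc]
        refine ⟨Nat.div_pos (Nat.le_of_dvd (by omega) a4) hs0, Nat.le_floor ?_⟩
        rw [Nat.cast_div a4 hs0r.ne', div_le_div_iff₀ hs0r (by positivity)]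
        have h4 := hn.2.le
        rw [le_div_iff₀ (by positivity)] at h4
        calc (n : ℝ) * (s * L ^ (A + 1)) = (n * L ^ (A + 1)) * s := by ring
          _ ≤ N * s := mul_le_mul_of_nonneg_right h4 hs0r.le
      · intro n hn n' hn' h
        rw [mem_coe, hB1, mem_filter] at hn hn'
        obtain ⟨a1, a2, a3, a4, a5⟩ := hmem n hn.1
        obtain ⟨b1, b2, b3, b4, b5⟩ := hmem n' hn'.1
        simp only at h
        rw [← Nat.div_mul_cancel a4, ← Nat.div_mul_cancel b4, h]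
    rw [Nat.card_Icc, Nat.add_sub_cancel] at h3
    have h4 := Nat.floor_le (show 0 ≤ (N : ℝ) / (s * L ^ (A + 1)) by positivity)
    calc (B1.card : ℝ) ≤ (⌊(N : ℝ) / (s * L ^ (A + 1))⌋₊ : ℝ) := by exact_mod_cast h3
      _ ≤ N / (s * L ^ (A + 1)) := h4
      _ ≤ N / (q * L ^ (A + 1)) := by
          apply div_le_div_of_nonneg_left hN0.le (by positivity)
          apply mul_le_mul_of_nonneg_right _ (by positivity)
          exact_mod_cast hsq.2
  have hB2c : (P : ℝ) / (4 * L ^ A) ≤ B2.card := by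
    have h3 : (B1.card : ℝ) + B2.card = Bd.card := by exact_mod_cast hcard
    have h4 : (N : ℝ) / (q * L ^ (A + 1)) ≤ N / (q * L ^ A) / 2 := by
      rw [pow_succ, ← mul_assoc, ← div_div]
      exact div_le_div_of_nonneg_left (by positivity) (by norm_num) (by linarith)
    have h5 : (P : ℝ) / (4 * L ^ A) ≤ N / (q * L ^ A) / 2 := by
      have h6 : (P : ℝ) * q ≤ 2 * N := by
        have h7 : P * q ≤ 2 * N := by
          calc P * q ≤ P * (2 * Q) := Nat.mul_le_mul_left _ hqQ.le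
            _ = 2 * (P * Q) := by ring
            _ ≤ 2 * N := Nat.mul_le_mul_left _ (by rw [hP]; exact Nat.div_mul_le_self _ _)
        exact_mod_cast h7
      rw [div_div, div_le_div_iff₀ (by positivity) (by positivity)]
      calc (P : ℝ) * (q * L ^ A * 2) = (P * q) * (2 * L ^ A) := by ring
        _ ≤ (2 * N) * (2 * L ^ A) := mul_le_mul_of_nonneg_right h6 (by positivity)
        _ = N * (4 * L ^ A) := by ring
    linarith
  -- the terms
  obtain ⟨V, hV⟩ : ∃ V : ℕ → ℝ, V = fun m : ℕ => ‖∑ a ∈ Icc 1 N, GG N a *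
        fz (fun k => ((f k : ℝ) : ℂ)) N ((a : ℤ) + ((s : ℤ) * m + (-((N : ℤ) + 1))))‖ := ⟨_, rfl⟩
  have hterm : ∀ n ∈ B2, (N : ℝ) / (4 * L ^ (A + 3)) ≤ V (n / s) := by
    intro n hn
    rw [hB2, mem_filter, not_lt] at hn
    obtain ⟨a1, a2, a3, a4, a5⟩ := hmem n hn.1
    have h3 : (N : ℝ) / L ^ (A + 2) < |∑ b ∈ Icc 1 (1 * N), ArithmeticFunction.vonMangoldt b * (lamI ((n : ℤ) - b) - lamzI z ((n : ℤ) - b))| := by
      by_contra hc
      rw [not_lt] at hc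
      exact a5 (c1 n a3 hn.2 (by omega) hc)
    rw [one_mul] at h3
    have h4 := replace N z n hN1 a2 f
    have h5 : V (n / s) = ‖∑ a ∈ Icc 1 N, GG N a * fz (fun k => ((f k : ℝ) : ℂ)) N ((a : ℤ) + ((n : ℤ) - ((N : ℤ) + 1)))‖ := by
      rw [hV]
      simp only
      have h6 : (s : ℤ) * ((n / s : ℕ) : ℤ) = n := by exact_mod_cast Nat.mul_div_cancel' a4
      rw [h6]
      rfl
    rw [h5]
    have h6 : (N : ℝ) / L ^ (A + 2) / (2 * L) ≤ |∑ b ∈ Icc 1 N, ArithmeticFunction.vonMangoldt b * (lamI ((n : ℤ) - b) - lamzI z ((n : ℤ) - b))| /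
      Real.log (N + 1 : ℕ) := div_le_div₀ (abs_nonneg _) h3.le hlog0 hlog2
    have h7 : (N : ℝ) / L ^ (A + 2) / (2 * L) = 2 * (N / (4 * L ^ (A + 3))) := by
      rw [pow_succ L (A + 2)]
      field_simp
      norm_num
    have h8 : (N : ℝ) / L ^ (A + 6) ≤ N / (4 * L ^ (A + 3)) := by
      apply div_le_div_of_nonneg_left hN0.le (by positivity)
      rw [pow_add L A 6, pow_add L A 3, ← mul_assoc, mul_comm 4 (L ^ A), mul_assoc]
      apply mul_le_mul_of_nonneg_left _ (by positivity)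
      rw [show (6 : ℕ) = 3 + 3 by norm_num, pow_add]
      apply mul_le_mul_of_nonneg_right _ (by positivity)
      have : L ^ 1 ≤ L ^ 3 := pow_le_pow_right₀ hL1 (by norm_num)
      linarith [pow_one L]
    linarith
  have hsum : (B2.card : ℝ) * (N / (4 * L ^ (A + 3))) ≤ ∑ m ∈ Icc 1 P, V m := by
    calc (B2.card : ℝ) * (N / (4 * L ^ (A + 3))) = ∑ _n ∈ B2, (N : ℝ) / (4 * L ^ (A + 3)) := by
          rw [sum_const, nsmul_eq_mul]
      _ ≤ ∑ n ∈ B2, V (n / s) := sum_le_sum hterm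
      _ = ∑ m ∈ B2.image (fun n => n / s), V m := by
          rw [sum_image]
          intro n hn n' hn' h
          rw [mem_coe, hB2, mem_filter] at hn hn'
          obtain ⟨a1, a2, a3, a4, a5⟩ := hmem n hn.1
          obtain ⟨b1, b2, b3, b4, b5⟩ := hmem n' hn'.1
          simp only at h
          rw [← Nat.div_mul_cancel a4, ← Nat.div_mul_cancel b4, h]
      _ ≤ ∑ m ∈ Icc 1 P, V m := by
          apply sum_le_sum_of_subset_of_nonneg
          · intro m hm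
            rw [mem_image] at hm
            obtain ⟨n, hn, rfl⟩ := hm
            rw [hB2, mem_filter] at hn
            obtain ⟨a1, a2, a3, a4, a5⟩ := hmem n hn.1
            rw [mem_Icc]
            refine ⟨Nat.div_pos (Nat.le_of_dvd (by omega) a4) hs0, ?_⟩
            rw [hP]
            calc n / s ≤ N / s := Nat.div_le_div_right a2
              _ ≤ N / Q := Nat.div_le_div_left hsq.1 (by omega)
          · intro m _ _
            rw [hV]
            exact norm_nonneg _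
  have hfin : (N : ℝ) / L ^ (2 * A + 4) * P ≤ (P : ℝ) / (4 * L ^ A) * (N / (4 * L ^ (A + 3))) := by
    have e1 : (P : ℝ) / (4 * L ^ A) * (N / (4 * L ^ (A + 3))) = N * P / (16 * L ^ (2 * A + 3)) := by
      rw [div_mul_div_comm]
      congr 1
      · ring
      · rw [show 2 * A + 3 = A + (A + 3) by ring, pow_add L A (A + 3)]
        ring
    rw [e1, div_mul_eq_mul_div]
    apply div_le_div_of_nonneg_left (by positivity) (by positivity)
    rw [show 2 * A + 4 = (2 * A + 3) + 1 by ring, pow_succ L (2 * A + 3), mul_comm]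
    exact mul_le_mul_of_nonneg_left hL (by positivity)
  have hlast : (P : ℝ) / (4 * L ^ A) * (N / (4 * L ^ (A + 3))) ≤ B2.card * (N / (4 * L ^ (A + 3))) :=
    mul_le_mul_of_nonneg_right hB2c (by positivity)
  have := hfin.trans (hlast.trans hsum)
  rw [hV] at this
  exact this

end Pool.Agent.Y883.T3
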