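import Pool.Agent.H373R2.T7.Minor

set_option autoImplicit false

/-! The estimate of Vinogradov for exponential sums over primes, with a power saving. -/

namespace Pool.Agent.Y883.T3

open Finset
open Pool.Agent.H807R2.Dav
open Pool.Agent.H373R2.T7 (block_lin ev_L')

/-- powers of the logarithm are smaller than powers -/
lemma ev_log_rpow (k : ℕ) (c a : ℝ) (ha : 0 < a) :
    ∃ x0 : ℕ, ∀ x : ℕ, x0 ≤ x → c * Real.log x ^ k ≤ (x : ℝ) ^ a := by
  have h := (isLittleO_log_rpow_rpow_atTop (k : ℝ) ha).bound (show 0 < 1 / (|c| + 1) by positivity)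
  have h2 := (tendsto_natCast_atTop_atTop (R := ℝ)).eventually h
  obtain ⟨x0, hx0⟩ := Filter.eventually_atTop.1 h2
  refine ⟨max x0 1, fun x hx => ?_⟩
  have h3 := hx0 x (le_trans (le_max_left _ _) hx)
  have hx1 : (1 : ℝ) ≤ x := by exact_mod_cast (le_trans (le_max_right _ _) hx)
  have hl : 0 ≤ Real.log x := Real.log_nonneg hx1
  rw [Real.norm_of_nonneg (by positivity), Real.norm_of_nonneg (by positivity), Real.rpow_natCast] at h3
  have h4 : c ≤ |c| + 1 := by have := le_abs_self c; linarith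
  calc c * Real.log x ^ k ≤ (|c| + 1) * Real.log x ^ k := mul_le_mul_of_nonneg_right h4 (by positivity)
    _ ≤ (|c| + 1) * (1 / (|c| + 1) * (x : ℝ) ^ a) := mul_le_mul_of_nonneg_left h3 (by positivity)
    _ = _ := by field_simp

/-- minor arcs, with a power saving -/
theorem vin_pow : ∃ N0 : ℕ, ∀ N : ℕ, N0 ≤ N → ∀ K : ℝ, 1 ≤ K → K ≤ (N : ℝ) ^ (9 / 50 : ℝ) →
    ∀ q : ℕ, K ^ 2 * Real.log N ^ 16 ≤ q → (q : ℝ) ≤ N / (K ^ 2 * Real.log N ^ 16) →
    ∀ c : ℤ, IsCoprime c (q : ℤ) → ∀ α : ℝ, |α - c / q| ≤ 1 / (q : ℝ) ^ 2 →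
    ‖∑ n ∈ Icc 1 N, ((ArithmeticFunction.vonMangoldt n : ℝ) : ℂ) * ee ((n : ℝ) * α)‖ ≤ N / K := by
  obtain ⟨n1, h1⟩ := ev_log_rpow 8 2 (1 / 50) (by norm_num)
  obtain ⟨n2, h2⟩ := ev_L' 10000000
  refine ⟨max (max n1 n2) 16, fun N hN K hK1 hK2 q hq1 hq2 c hcop α hα => ?_⟩
  have hNn1 : n1 ≤ N := le_trans (le_trans (le_max_left _ _) (le_max_left _ _)) hN
  have hNn2 : n2 ≤ N := le_trans (le_trans (le_max_right _ _) (le_max_left _ _)) hN
  have hN16 : 16 ≤ N := le_trans (le_max_right _ _) hN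
  have hNr : (16 : ℝ) ≤ N := by exact_mod_cast hN16
  have hN0 : (0 : ℝ) < N := by linarith
  obtain ⟨ℓ, hℓ⟩ : ∃ ℓ, ℓ = Real.log (N : ℝ) := ⟨_, rfl⟩
  have hℓ1 : 10000000 ≤ ℓ := by rw [hℓ]; exact h2 N hNn2
  have hℓ0 : 0 < ℓ := by linarith
  have hV1 := h1 N hNn1
  rw [← hℓ] at hq1 hq2 hV1
  have hK0 : 0 < K := by linarith
  obtain ⟨W, hW⟩ : ∃ W, W = ⌊(N : ℝ) ^ (1 / 5 : ℝ)⌋₊ := ⟨_, rfl⟩
  have hW1 : (W : ℝ) ≤ (N : ℝ) ^ (1 / 5 : ℝ) := by rw [hW]; exact Nat.floor_le (by positivity)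
  have hW2 : (N : ℝ) ^ (1 / 5 : ℝ) < W + 1 := by rw [hW]; exact Nat.lt_floor_add_one _
  have hN5 : (1 : ℝ) ≤ (N : ℝ) ^ (1 / 5 : ℝ) := Real.one_le_rpow (by linarith) (by norm_num)
  have hWn : 1 ≤ W := by
    rw [hW]
    exact Nat.le_floor (by exact_mod_cast hN5)
  have hWr : (1 : ℝ) ≤ W := by exact_mod_cast hWn
  have hW0 : (0 : ℝ) < W := by linarith
  have hW5 : (W : ℝ) ^ 5 ≤ N := by
    calc (W : ℝ) ^ 5 ≤ ((N : ℝ) ^ (1 / 5 : ℝ)) ^ 5 := pow_le_pow_left₀ hW0.le hW1 5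
      _ = N := by
          rw [← Real.rpow_natCast, ← Real.rpow_mul hN0.le]
          norm_num
  have hKW : K * ℓ ^ 8 ≤ W := by
    have h3 : 2 * (K * ℓ ^ 8) ≤ (N : ℝ) ^ (1 / 5 : ℝ) := by
      calc 2 * (K * ℓ ^ 8) = K * (2 * ℓ ^ 8) := by ring
        _ ≤ (N : ℝ) ^ (9 / 50 : ℝ) * (N : ℝ) ^ (1 / 50 : ℝ) := mul_le_mul hK2 hV1 (by positivity) (by positivity)
        _ = (N : ℝ) ^ (1 / 5 : ℝ) := by rw [← Real.rpow_add hN0]; norm_num
    linarith
  obtain ⟨X, hX⟩ : ∃ X, X = K ^ 2 * ℓ ^ 16 := ⟨_, rfl⟩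
  rw [← hX] at hq1 hq2
  have hKl : 1 ≤ K * ℓ ^ 8 := by
    have h3 : 1 ≤ ℓ ^ 8 := one_le_pow₀ (by linarith)
    nlinarith
  have hXK : K * ℓ ^ 8 ≤ X := by
    have : X = (K * ℓ ^ 8) * (K * ℓ ^ 8) := by rw [hX]; ring
    rw [this]
    exact le_mul_of_one_le_left (by positivity) hKl
  have hX1 : 1 ≤ X := hKl.trans hXK
  have hX0 : 0 < X := by linarith
  obtain ⟨V, hV⟩ : ∃ V, V = W * W := ⟨_, rfl⟩
  have hVr : (V : ℝ) = W * W := by rw [hV]; push_cast; ring
  have hVX : X ≤ V := by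
    have h3 : X = (K * ℓ ^ 8) * (K * ℓ ^ 8) := by rw [hX]; ring
    rw [h3, hVr]
    exact mul_le_mul hKW hKW (by positivity) hW0.le
  have hVn : 1 ≤ V := by rw [hV]; exact Nat.mul_pos hWn hWn
  have hV0 : (1 : ℝ) ≤ V := by exact_mod_cast hVn
  have hq0 : (0 : ℝ) < q := by linarith
  have hqn : 1 ≤ q := by exact_mod_cast hq0
  have hqr : (1 : ℝ) ≤ q := by exact_mod_cast hqn
  have hqN : (q : ℝ) ≤ N := hq2.trans (div_le_self hN0.le hX1)
  have hlq : Real.log q ≤ ℓ := by rw [hℓ]; exact Real.log_le_log hq0 hqN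
  have hlq0 : 0 ≤ Real.log q := Real.log_nonneg hqr
  have hNX : (N : ℝ) / X ≤ N / (K * ℓ ^ 8) := div_le_div_of_nonneg_left hN0.le (by positivity) hXK
  have hNW : (N : ℝ) / W ≤ N / (K * ℓ ^ 8) := div_le_div_of_nonneg_left hN0.le (by positivity) hKW
  -- the sequence of endpoints
  obtain ⟨y, hy0, hy1⟩ : ∃ y : ℕ → ℕ, y 0 = N ∧ ∀ i, y (i + 1) = (y i + 1) / 2 :=
    ⟨fun i => Nat.rec N (fun _ z => (z + 1) / 2) i, rfl, fun i => rfl⟩
  have hylow : ∀ i, (N : ℝ) / 2 ^ i ≤ y i := by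
    intro i
    induction i with
    | zero => rw [hy0]; simp
    | succ i ih =>
      rw [hy1]
      have h3 : y i ≤ 2 * ((y i + 1) / 2) := by omega
      have h4 : (y i : ℝ) ≤ 2 * (((y i + 1) / 2 : ℕ) : ℝ) := by exact_mod_cast h3
      rw [pow_succ]
      have h5 : (N : ℝ) / (2 ^ i * 2) = (N / 2 ^ i) / 2 := by rw [div_div]
      rw [h5]; linarith
  have hyup : ∀ i, (y i : ℝ) ≤ (N : ℝ) / 2 ^ i + 1 := by
    intro i
    induction i with
    | zero => rw [hy0]; simp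
    | succ i ih =>
      rw [hy1]
      have h3 : 2 * ((y i + 1) / 2) ≤ y i + 1 := by omega
      have h4 : 2 * (((y i + 1) / 2 : ℕ) : ℝ) ≤ y i + 1 := by exact_mod_cast h3
      rw [pow_succ]
      have h5 : (N : ℝ) / (2 ^ i * 2) = (N / 2 ^ i) / 2 := by rw [div_div]
      rw [h5]; linarith
  have hyle : ∀ i, y i ≤ N := by
    intro i
    induction i with
    | zero => rw [hy0]
    | succ i ih => rw [hy1]; omega
  obtain ⟨I, hI⟩ : ∃ I, I = Nat.log 2 W := ⟨_, rfl⟩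
  have hI1 : 2 ^ I ≤ W := by rw [hI]; exact Nat.pow_log_le_self 2 (by omega)
  have hI2 : W < 2 ^ (I + 1) := by rw [hI]; exact Nat.lt_pow_succ_log_self (by norm_num) _
  have hIr : (W : ℝ) ≤ 2 * 2 ^ I := by
    have : W ≤ 2 * 2 ^ I := by rw [pow_succ] at hI2; omega
    exact_mod_cast this
  have hVVW : ((V * V : ℕ) : ℝ) ≤ N / W := by
    rw [le_div_iff₀ hW0]
    push_cast
    rw [hVr]
    calc (W : ℝ) * W * (W * W) * W = (W : ℝ) ^ 5 := by ring
      _ ≤ N := hW5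
  have hyV : ∀ i, i ≤ I → V * V ≤ y i := by
    intro i hi
    have h3 : (2 : ℕ) ^ i ≤ W := (Nat.pow_le_pow_right (by norm_num) hi).trans hI1
    have h3r : ((2 : ℝ) ^ i) ≤ W := by exact_mod_cast h3
    have h4 : ((V * V : ℕ) : ℝ) ≤ (N : ℝ) / 2 ^ i :=
      hVVW.trans (div_le_div_of_nonneg_left hN0.le (by positivity) h3r)
    have h5 := h4.trans (hylow i)
    exact_mod_cast h5
  obtain ⟨E, hE⟩ : ∃ E : ℕ → ℂ, E = fun n => ((ArithmeticFunction.vonMangoldt n : ℝ) : ℂ) * ee ((n : ℝ) * α) := ⟨_, rfl⟩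
  have hlog4 : Real.log 4 ≤ 2 := by
    have h1 : Real.log 4 = 2 * Real.log 2 := by
      rw [show (4 : ℝ) = 2 ^ 2 by norm_num, Real.log_pow]; push_cast; ring
    have := Real.log_two_lt_d9
    linarith
  have hVVN : ((V * V : ℕ) : ℝ) ≤ N := hVVW.trans (div_le_self hN0.le hWr)
  have hVV0 : 0 < V * V := Nat.mul_pos hVn hVn
  have hVlog : (Nat.log 2 (V * V) + 1 : ℝ) ≤ 2 * ℓ := by
    have h3 : (Nat.log 2 (V * V) : ℝ) * Real.log 2 ≤ ℓ := by
      have h4 : (2 : ℝ) ^ Nat.log 2 (V * V) ≤ ((V * V : ℕ) : ℝ) := by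
        exact_mod_cast Nat.pow_log_le_self 2 hVV0.ne'
      have h7 := Real.log_le_log (by positivity) (h4.trans hVVN)
      rw [Real.log_pow, ← hℓ] at h7
      exact h7
    have h4 := Real.log_two_gt_d9
    have h5 : (0 : ℝ) ≤ Nat.log 2 (V * V) := Nat.cast_nonneg _
    nlinarith
  have hNK0 : 0 < (N : ℝ) / K := by positivity
  have hblock : ∀ i, i < I → ‖∑ n ∈ Ioc (y (i + 1)) (y i), E n‖ ≤ 60000 * (N / K / ℓ ^ 2) := by
    intro i hi
    have hyi := hyV (i + 1) (by omega)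
    have hVV1 : 1 ≤ V * V := hVV0
    have h3 := block_lin hqn hcop hα (y (i + 1)) (y i) V (by omega) (by rw [hy1]; omega) (by rw [hy1]; omega) hVn hyi
    rw [hE]
    refine h3.trans ?_
    obtain ⟨P, hP⟩ : ∃ P : ℝ, P = (y (i + 1) : ℝ) := ⟨_, rfl⟩
    rw [← hP]
    have hP1 : 1 ≤ P := by
      rw [hP]; exact_mod_cast (by omega : 1 ≤ y (i + 1))
    have hPN : P ≤ N := by rw [hP]; exact_mod_cast hyle (i + 1)
    have hLg : 1 + Real.log (4 * P) ≤ 2 * ℓ := by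
      rw [Real.log_mul (by norm_num) (by linarith)]
      have := Real.log_le_log (by linarith) hPN
      rw [← hℓ] at this
      linarith
    have hLg0 : 0 ≤ 1 + Real.log (4 * P) := by
      have := Real.log_nonneg (show (1 : ℝ) ≤ 4 * P by linarith)
      linarith
    have hPq : P / q ≤ N / X := by
      calc P / q ≤ N / q := div_le_div_of_nonneg_right hPN hq0.le
        _ ≤ N / X := div_le_div_of_nonneg_left hN0.le (by positivity) hq1
    have hPV : P / V ≤ N / X := by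
      calc P / V ≤ N / V := div_le_div_of_nonneg_right hPN (by linarith)
        _ ≤ N / X := div_le_div_of_nonneg_left hN0.le (by positivity) hVX
    have hR : Real.sqrt (672 * (1 + Real.log q) * (P * (P / q + P / V + q))) ≤ 64 * (N / (K * ℓ ^ 7)) := by
      rw [Real.sqrt_le_left (by positivity)]
      calc 672 * (1 + Real.log q) * (P * (P / q + P / V + q)) ≤ 672 * (2 * ℓ) * (N * (N / X + N / X + N / X)) := by
            gcongr
            linarith
        _ = 4032 * N ^ 2 * (ℓ / X) := by field_simp; ring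
        _ ≤ 4032 * N ^ 2 * (1 / (K * ℓ ^ 7) ^ 2) := by
            apply mul_le_mul_of_nonneg_left _ (by positivity)
            rw [div_le_div_iff₀ hX0 (by positivity), hX]
            have h5 : 0 ≤ K ^ 2 * ℓ ^ 15 := by positivity
            calc ℓ * (K * ℓ ^ 7) ^ 2 = (K ^ 2 * ℓ ^ 15) * 1 := by ring
              _ ≤ (K ^ 2 * ℓ ^ 15) * ℓ := mul_le_mul_of_nonneg_left (by linarith) h5
              _ = 1 * (K ^ 2 * ℓ ^ 16) := by ring
        _ ≤ (64 * (N / (K * ℓ ^ 7))) ^ 2 := by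
            have e : (64 * ((N : ℝ) / (K * ℓ ^ 7))) ^ 2 = 4096 * ((N : ℝ) ^ 2 * (1 / (K * ℓ ^ 7) ^ 2)) := by
              rw [mul_pow, div_pow]
              ring
            have h6 : 0 ≤ (N : ℝ) ^ 2 * (1 / (K * ℓ ^ 7) ^ 2) := by positivity
            rw [e]
            linarith
    have b1 : 8 * (1 + Real.log (4 * P)) ^ 5 * Real.sqrt (672 * (1 + Real.log q) * (P * (P / q + P / V + q))) ≤
        16384 * (N / K / ℓ ^ 2) := by
      calc _ ≤ 8 * (2 * ℓ) ^ 5 * (64 * (N / (K * ℓ ^ 7))) := by gcongr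
        _ = 16384 * (N / K / ℓ ^ 2) := by field_simp; ring
    have b2 : 3 * (1 + Real.log (4 * P)) * (600 * (Nat.log 2 (V * V) + 1 : ℝ) * (P / q + ((V * V : ℕ) : ℝ) + q) * (1 + Real.log q)) ≤
        43200 * (N / K / ℓ ^ 5) := by
      have hZ : P / q + ((V * V : ℕ) : ℝ) + q ≤ 3 * (N / (K * ℓ ^ 8)) := by
        have z1 := hPq.trans hNX
        have z2 := hVVW.trans hNW
        have z3 := hq2.trans hNX
        linarith
      have hZ0 : 0 ≤ P / q + ((V * V : ℕ) : ℝ) + q := by positivity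
      have hq2l : 1 + Real.log q ≤ 2 * ℓ := by linarith
      calc _ ≤ 3 * (2 * ℓ) * (600 * (2 * ℓ) * (3 * (N / (K * ℓ ^ 8))) * (2 * ℓ)) := by gcongr
        _ = 43200 * (N / K / ℓ ^ 5) := by field_simp; ring
    have b3 : (N : ℝ) / K / ℓ ^ 5 ≤ N / K / ℓ ^ 2 := by
      apply div_le_div_of_nonneg_left hNK0.le (by positivity)
      exact pow_le_pow_right₀ (by linarith) (by norm_num)
    have b4 : 0 ≤ (N : ℝ) / K / ℓ ^ 2 := by positivity
    linarith
  -- telescoping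
  obtain ⟨G, hG⟩ : ∃ G : ℝ, G = 60000 * (N / K / ℓ ^ 2) := ⟨_, rfl⟩
  rw [← hG] at hblock
  have htel : ∀ J : ℕ, J ≤ I → ‖∑ n ∈ Icc 1 N, E n‖ ≤ ‖∑ n ∈ Icc 1 (y J), E n‖ + J * G := by
    intro J
    induction J with
    | zero => intro _; rw [hy0]; simp
    | succ J ih =>
      intro hJ
      have h3 := ih (by omega)
      have h4 := hblock J (by omega)
      have h5 : ∑ n ∈ Icc 1 (y J), E n = ∑ n ∈ Icc 1 (y (J + 1)), E n + ∑ n ∈ Ioc (y (J + 1)) (y J), E n := by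
        have hle : y (J + 1) ≤ y J ∨ y J = 0 := by
          rw [hy1]; omega
        rcases hle with hle | hle
        · rw [← sum_union (by
            rw [disjoint_left]; intro n hn hn'
            rw [mem_Icc] at hn; rw [mem_Ioc] at hn'; omega)]
          congr 1
          ext n
          rw [mem_union, mem_Icc, mem_Icc, mem_Ioc]
          omega
        · exfalso
          have := hyV J (by omega)
          omega
      rw [h5] at h3
      have h6 := norm_add_le (∑ n ∈ Icc 1 (y (J + 1)), E n) (∑ n ∈ Ioc (y (J + 1)) (y J), E n)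
      push_cast
      linarith
  have hlast : ‖∑ n ∈ Icc 1 (y I), E n‖ ≤ (y I : ℝ) * ℓ := by
    refine (norm_sum_le _ _).trans ?_
    have h3 : ∀ n ∈ Icc 1 (y I), ‖E n‖ ≤ ℓ := by
      intro n hn
      rw [mem_Icc] at hn
      rw [hE]
      simp only
      rw [norm_mul, norm_ee, mul_one, Complex.norm_real, Real.norm_of_nonneg ArithmeticFunction.vonMangoldt_nonneg]
      refine ArithmeticFunction.vonMangoldt_le_log.trans ?_
      rw [hℓ]
      apply Real.log_le_log (by exact_mod_cast hn.1)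
      exact_mod_cast hn.2.trans (hyle I)
    refine (sum_le_sum h3).trans ?_
    rw [sum_const, Nat.card_Icc, nsmul_eq_mul, Nat.add_sub_cancel]
  have h3 := htel I le_rfl
  have hIl : (I : ℝ) ≤ 2 * ℓ := by
    have h5 : I ≤ Nat.log 2 (V * V) := by
      rw [hI]
      apply Nat.log_mono_right
      rw [hV]
      calc W = W * 1 * (1 * 1) := by ring
        _ ≤ W * W * (W * W) := by gcongr
    have h6 : (I : ℝ) ≤ Nat.log 2 (V * V) := by exact_mod_cast h5
    linarith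
  have hyI : (y I : ℝ) ≤ 3 * (N / W) := by
    have h4 := hyup I
    have h5 : (N : ℝ) / 2 ^ I ≤ 2 * (N / W) := by
      rw [mul_div_assoc', div_le_div_iff₀ (by positivity) (by linarith)]
      nlinarith
    have h6 : (1 : ℝ) ≤ N / W := by
      rw [le_div_iff₀ (by linarith), one_mul]
      calc (W : ℝ) = W ^ 1 := by ring
        _ ≤ W ^ 5 := pow_le_pow_right₀ hWr (by norm_num)
        _ ≤ N := hW5
    linarith
  have hyI2 : (y I : ℝ) * ℓ ≤ 1 / 2 * (N / K) := by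
    calc (y I : ℝ) * ℓ ≤ 3 * (N / W) * ℓ := mul_le_mul_of_nonneg_right hyI hℓ0.le
      _ ≤ 3 * (N / (K * ℓ ^ 8)) * ℓ := by gcongr
      _ = (3 / ℓ ^ 7) * (N / K) := by field_simp
      _ ≤ 1 / 2 * (N / K) := by
          apply mul_le_mul_of_nonneg_right _ hNK0.le
          rw [div_le_div_iff₀ (by positivity) (by norm_num)]
          have : ℓ ^ 1 ≤ ℓ ^ 7 := pow_le_pow_right₀ (by linarith) (by norm_num)
          nlinarith
  have h4 : (I : ℝ) * G ≤ 1 / 2 * (N / K) := by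
    calc (I : ℝ) * G ≤ (2 * ℓ) * (60000 * (N / K / ℓ ^ 2)) := by
          rw [hG]
          exact mul_le_mul_of_nonneg_right hIl (by positivity)
      _ = (120000 / ℓ) * (N / K) := by field_simp; ring
      _ ≤ 1 / 2 * (N / K) := by
          apply mul_le_mul_of_nonneg_right _ hNK0.le
          rw [div_le_div_iff₀ hℓ0 (by norm_num)]
          linarith
  have h5 : ‖∑ n ∈ Icc 1 N, E n‖ ≤ N / K := by linarith
  rw [hE] at h5
  exact h5

end Pool.Agent.Y883.T3
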