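import Pool.Agent.Y883.T3.Vin
import Pool.Agent.H373R2.T7.SupE2

set_option autoImplicit false

/-! The truncated sieve model of the von Mangoldt function. -/

namespace Pool.Agent.Y883.T3

open Finset
open Pool.Agent.H807R2.Dav
open Pool.Agent.H373R2.T7

/-- the truncated sieve model -/
noncomputable def lsh (z r n : ℕ) : ℝ :=
  (Vz z)⁻¹ * ∑ j ∈ range r, (-1 : ℝ) ^ j * ∑ S ∈ (pz z).powersetCard j,
    if (∏ p ∈ S, p) ∣ n then (1 : ℝ) else 0

lemma prime_of_mem {z j : ℕ} {S : Finset ℕ} (hS : S ∈ (pz z).powersetCard j) : ∀ p ∈ S, p.Prime :=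
  fun p hp => (mem_pz.1 ((mem_powersetCard.1 hS).1 hp)).2

lemma lsh_pt (z r n : ℕ) : |lamz z n - lsh z r n| ≤
    (Vz z)⁻¹ * ∑ S ∈ (pz z).powersetCard r, if (∏ p ∈ S, p) ∣ n then (1 : ℝ) else 0 := by
  classical
  have hV0 : 0 < (Vz z)⁻¹ := inv_pos.2 (Vz_pos z)
  obtain ⟨x, hx⟩ : ∃ x : ℕ → ℝ, x = fun p => if p ∣ n then 1 else 0 := ⟨_, rfl⟩
  have hx01 : ∀ p ∈ pz z, 0 ≤ x p ∧ x p ≤ 1 := by
    intro p _
    rw [hx]
    simp only
    split_ifs <;> norm_num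
  have h1 := bonf_bound x (pz z) hx01 r
  have hxS : ∀ S : Finset ℕ, ∏ p ∈ S, x p = if ∀ p ∈ S, p ∣ n then (1 : ℝ) else 0 := by
    intro S
    rw [hx]
    exact prod_boole
  have h2 : ∀ j, es x (pz z) j = ∑ S ∈ (pz z).powersetCard j, (if (∏ p ∈ S, p) ∣ n then (1 : ℝ) else 0) := by
    intro j
    unfold es
    apply sum_congr rfl
    intro S hS
    rw [hxS]
    by_cases h : ∀ p ∈ S, p ∣ n
    · rw [if_pos h, if_pos ((prod_dvd_iff S (prime_of_mem hS) n).1 h)]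
    · rw [if_neg h, if_neg fun h' => h ((prod_dvd_iff S (prime_of_mem hS) n).2 h')]
  have h3 : lamz z n = (Vz z)⁻¹ * ∏ p ∈ pz z, (1 - x p) := by
    unfold lamz
    by_cases h : ∀ p ∈ pz z, ¬ p ∣ n
    · rw [if_pos h]
      have : ∏ p ∈ pz z, (1 - x p) = 1 := by
        apply prod_eq_one
        intro p hp
        rw [hx]
        simp only
        rw [if_neg (h p hp), sub_zero]
      rw [this, mul_one]
    · rw [if_neg h]
      push Not at h
      obtain ⟨p, hp, hpn⟩ := h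
      have : ∏ p ∈ pz z, (1 - x p) = 0 := by
        apply prod_eq_zero hp
        rw [hx]
        simp only
        rw [if_pos hpn, sub_self]
      rw [this, mul_zero]
  unfold lsh
  rw [h3, ← mul_sub, abs_mul, abs_of_pos hV0]
  apply mul_le_mul_of_nonneg_left _ hV0.le
  unfold bonf at h1
  simp only [h2] at h1
  exact h1

lemma lsh_l1 (z r N : ℕ) : ∑ n ∈ Icc 1 N, |lamz z n - lsh z r n| ≤
    (Vz z)⁻¹ * (N * Real.exp (3 * (1 + Real.log z) - r)) := by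
  classical
  have hV0 : 0 < (Vz z)⁻¹ := inv_pos.2 (Vz_pos z)
  refine (sum_le_sum fun n _ => lsh_pt z r n).trans ?_
  rw [← mul_sum]
  apply mul_le_mul_of_nonneg_left _ hV0.le
  rw [sum_comm]
  have h4 : ∀ S ∈ (pz z).powersetCard r, ∑ n ∈ Icc 1 N, (if (∏ p ∈ S, p) ∣ n then (1 : ℝ) else 0) ≤
      N * ∏ p ∈ S, (1 / (p : ℝ)) := by
    intro S hS
    have h5 : ∑ n ∈ Icc 1 N, (if (∏ p ∈ S, p) ∣ n then (1 : ℝ) else 0) =
        (((Icc 1 N).filter (fun n => ∏ p ∈ S, p ∣ n)).card : ℝ) := by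
      rw [card_eq_sum_ones]
      push_cast
      rw [sum_filter]
    rw [h5]
    have h6 : ((Icc 1 N).filter (fun n => ∏ p ∈ S, p ∣ n)).card = N / ∏ p ∈ S, p := by
      rw [← Nat.Ioc_filter_dvd_card_eq_div N (∏ p ∈ S, p)]
      congr 1
    rw [h6, prod_div_distrib, prod_const_one, mul_one_div]
    refine Nat.cast_div_le.trans ?_
    push_cast
    exact le_rfl
  refine (sum_le_sum h4).trans ?_
  rw [← mul_sum]
  apply mul_le_mul_of_nonneg_left _ (Nat.cast_nonneg _)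
  have h5 := es_le (x := fun p => 1 / (p : ℝ)) (T := pz z) (fun p _ => by positivity) r
  unfold es at h5
  refine h5.trans ?_
  apply Real.exp_le_exp.2
  have := sum_pz_le z
  linarith

lemma lsh_exp (z r N : ℕ) (α : ℝ) : ‖∑ n ∈ Icc 1 N, ((lsh z r n : ℝ) : ℂ) * ee ((n : ℝ) * α)‖ ≤
    (Vz z)⁻¹ * ∑ d ∈ Icc 1 ((z + 1) ^ r), KK (2 * N / d) (d * α) := by
  classical
  have hV0 : 0 < (Vz z)⁻¹ := inv_pos.2 (Vz_pos z)
  have hpos : ∀ j, ∀ S ∈ (pz z).powersetCard j, 1 ≤ ∏ p ∈ S, p := fun j S hS =>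
    Nat.pos_of_ne_zero (prod_ne_zero_iff.2 fun p hp => (prime_of_mem hS p hp).ne_zero)
  have h4 : ∑ n ∈ Icc 1 N, ((lsh z r n : ℝ) : ℂ) * ee ((n : ℝ) * α) =
      (((Vz z)⁻¹ : ℝ) : ℂ) * ∑ j ∈ range r, (-1 : ℂ) ^ j * ∑ S ∈ (pz z).powersetCard j,
        ∑ n ∈ Icc 1 N, ((if (∏ p ∈ S, p) ∣ n then (1 : ℝ) else 0 : ℝ) : ℂ) * ee ((n : ℝ) * α) := by
    have e1 : ∀ n : ℕ, ((lsh z r n : ℝ) : ℂ) * ee ((n : ℝ) * α) = (((Vz z)⁻¹ : ℝ) : ℂ) *
        ∑ j ∈ range r, (-1 : ℂ) ^ j * ∑ S ∈ (pz z).powersetCard j,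
          (((if (∏ p ∈ S, p) ∣ n then (1 : ℝ) else 0 : ℝ) : ℂ) * ee ((n : ℝ) * α)) := by
      intro n
      unfold lsh
      rw [Complex.ofReal_mul, Complex.ofReal_sum, mul_assoc, sum_mul]
      congr 1
      apply sum_congr rfl
      intro j _
      rw [Complex.ofReal_mul, Complex.ofReal_sum, mul_assoc, sum_mul]
      congr 1
      push_cast
      rfl
    rw [sum_congr rfl fun n _ => e1 n, ← mul_sum, sum_comm]
    congr 1
    apply sum_congr rfl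
    intro j _
    rw [← mul_sum, sum_comm]
  rw [h4, norm_mul, Complex.norm_real, Real.norm_of_nonneg hV0.le]
  apply mul_le_mul_of_nonneg_left _ hV0.le
  refine (norm_sum_le _ _).trans ?_
  have h5 : ∀ j ∈ range r, ‖(-1 : ℂ) ^ j * ∑ S ∈ (pz z).powersetCard j,
        ∑ n ∈ Icc 1 N, ((if (∏ p ∈ S, p) ∣ n then (1 : ℝ) else 0 : ℝ) : ℂ) * ee ((n : ℝ) * α)‖ ≤
      ∑ S ∈ (pz z).powersetCard j, KK (2 * N / ((∏ p ∈ S, p : ℕ) : ℝ)) (((∏ p ∈ S, p : ℕ) : ℝ) * α) := by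
    intro j _
    rw [norm_mul, norm_pow, norm_neg, norm_one, one_pow, one_mul]
    refine (norm_sum_le _ _).trans (sum_le_sum fun S hS => ?_)
    obtain ⟨d, hd⟩ : ∃ d, d = ∏ p ∈ S, p := ⟨_, rfl⟩
    have hd1 : 1 ≤ d := by rw [hd]; exact hpos j S hS
    have hd0 : (0 : ℝ) < d := by exact_mod_cast hd1
    rw [← hd]
    have h6 : ∑ n ∈ Icc 1 N, ((if d ∣ n then (1 : ℝ) else 0 : ℝ) : ℂ) * ee ((n : ℝ) * α) =
        ∑ n ∈ (Icc 1 N).filter (fun n => d ∣ n), ee ((n : ℝ) * α) := by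
      rw [sum_filter]
      apply sum_congr rfl
      intro n _
      split_ifs <;> simp
    rw [h6, sum_mult N d hd1]
    have h7 : ∀ m ∈ Icc 1 (N / d), ee (((d * m : ℕ) : ℝ) * α) = ee ((m : ℝ) * (d * α)) := by
      intro m _; congr 1; push_cast; ring
    rw [sum_congr rfl h7]
    have h8 : Icc 1 (N / d) = Ico 1 (N / d + 1) := by ext x; rw [mem_Icc, mem_Ico]; omega
    rw [h8]
    apply geo_bound _ _ (Nat.le_add_left 1 _)
    push_cast
    have h9 : ((N / d : ℕ) : ℝ) ≤ N / d := Nat.cast_div_le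
    have h10 : 0 ≤ (N : ℝ) / d := by positivity
    have h11 : 2 * (N : ℝ) / d = 2 * (N / d) := by ring
    rw [h11]
    linarith
  refine (sum_le_sum h5).trans ?_
  have h6 := sum_small_le z r (fun d => KK (2 * N / (d : ℝ)) ((d : ℝ) * α)) (fun d => KK_nonneg (by positivity) _)
  rw [sum_range_succ] at h6
  have h7 : 0 ≤ ∑ S ∈ (pz z).powersetCard r, KK (2 * N / ((∏ p ∈ S, p : ℕ) : ℝ)) (((∏ p ∈ S, p : ℕ) : ℝ) * α) :=
    sum_nonneg fun S _ => KK_nonneg (by positivity) _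
  linarith

lemma lsh_le (z r n : ℕ) (hn : 1 ≤ n) : |lsh z r n| ≤ (Vz z)⁻¹ * n.divisors.card := by
  classical
  have hV0 : 0 < (Vz z)⁻¹ := inv_pos.2 (Vz_pos z)
  unfold lsh
  rw [abs_mul, abs_of_pos hV0]
  apply mul_le_mul_of_nonneg_left _ hV0.le
  refine (abs_sum_le_sum_abs _ _).trans ?_
  have h1 : ∀ j ∈ range r, |(-1 : ℝ) ^ j * ∑ S ∈ (pz z).powersetCard j, if (∏ p ∈ S, p) ∣ n then (1 : ℝ) else 0| =
      ∑ S ∈ (pz z).powersetCard j, if (∏ p ∈ S, p) ∣ n then (1 : ℝ) else 0 := by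
    intro j _
    rw [abs_mul, abs_pow, abs_neg, abs_one, one_pow, one_mul, abs_of_nonneg]
    exact sum_nonneg fun S _ => by split_ifs <;> norm_num
  rw [sum_congr rfl h1, sum_sigma']
  obtain ⟨I, hI⟩ : ∃ I, I = (range r).sigma (fun j => (pz z).powersetCard j) := ⟨_, rfl⟩
  rw [← hI]
  have hmem : ∀ x ∈ I, x.2 ⊆ pz z ∧ x.2.card = x.1 := by
    intro x hx
    rw [hI, mem_sigma, mem_range, mem_powersetCard] at hx
    exact hx.2
  have h2 : ∑ x ∈ I, (if (∏ p ∈ x.2, p) ∣ n then (1 : ℝ) else 0) =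
      ((I.filter (fun x => (∏ p ∈ x.2, p) ∣ n)).card : ℝ) := by
    rw [card_eq_sum_ones]
    push_cast
    rw [sum_filter]
  rw [h2]
  have h3 : (I.filter (fun x => (∏ p ∈ x.2, p) ∣ n)).card ≤ n.divisors.card := by
    apply card_le_card_of_injOn (fun x => ∏ p ∈ x.2, p)
    · intro x hx
      rw [mem_coe, mem_filter] at hx
      rw [mem_coe, Nat.mem_divisors]
      exact ⟨hx.2, by omega⟩
    · intro x hx y hy h
      rw [mem_coe, mem_filter] at hx hy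
      have hx1 := hmem x hx.1
      have hy1 := hmem y hy.1
      have h4 := prod_inj x.2 y.2 (fun p hp => (mem_pz.1 (hx1.1 hp)).2) (fun p hp => (mem_pz.1 (hy1.1 hp)).2) h
      apply Sigma.ext
      · rw [← hx1.2, ← hy1.2, h4]
      · exact heq_of_eq h4
  exact_mod_cast h3

end Pool.Agent.Y883.T3
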