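import Pool.Agent.Y883.T3.Lev

set_option autoImplicit false

/-! Close pairs of points and common divisors: preparations and the case of few points. -/

namespace Pool.Agent.Y883.T3

open Finset

/-- the number of points of a well spaced set -/
lemma spaced {α : Type*} (V : Finset α) (f : α → ℝ) (a b ε : ℝ) (hε : 0 < ε) (hab : a ≤ b)
    (h1 : ∀ v ∈ V, a ≤ f v ∧ f v ≤ b) (h2 : ∀ v ∈ V, ∀ v' ∈ V, v ≠ v' → ε ≤ |f v - f v'|) :
    (V.card : ℝ) ≤ (b - a) / ε + 1 := by
  classical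
  have hmap : V.card ≤ (range (⌊(b - a) / ε⌋₊ + 1)).card := by
    apply card_le_card_of_injOn (fun v => ⌊(f v - a) / ε⌋₊)
    · intro v hv
      rw [mem_coe] at hv
      obtain ⟨h3, h4⟩ := h1 v hv
      rw [mem_coe, mem_range, Nat.lt_succ_iff]
      apply Nat.floor_le_floor
      exact div_le_div_of_nonneg_right (by linarith) hε.le
    · intro v hv v' hv' h
      rw [mem_coe] at hv hv'
      by_contra hne
      have h3 := h2 v hv v' hv' hne
      obtain ⟨h4, h5⟩ := h1 v hv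
      obtain ⟨h6, h7⟩ := h1 v' hv'
      simp only at h
      have e1 := Nat.floor_le (show 0 ≤ (f v - a) / ε from div_nonneg (by linarith) hε.le)
      have e2 := Nat.lt_floor_add_one ((f v - a) / ε)
      have e3 := Nat.floor_le (show 0 ≤ (f v' - a) / ε from div_nonneg (by linarith) hε.le)
      have e4 := Nat.lt_floor_add_one ((f v' - a) / ε)
      rw [h] at e1 e2
      have e5 : |(f v - a) / ε - (f v' - a) / ε| < 1 := by
        rw [abs_lt]
        constructor <;> linarith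
      have e6 : (f v - a) / ε - (f v' - a) / ε = (f v - f v') / ε := by ring
      rw [e6, abs_div, abs_of_pos hε, div_lt_one hε] at e5
      linarith
  rw [card_range] at hmap
  have h3 := Nat.floor_le (show 0 ≤ (b - a) / ε from div_nonneg (by linarith) hε.le)
  calc (V.card : ℝ) ≤ ((⌊(b - a) / ε⌋₊ + 1 : ℕ) : ℝ) := by exact_mod_cast hmap
    _ ≤ (b - a) / ε + 1 := by push_cast; linarith

/-- the number of integers `t` with `t / M` in a short interval -/
lemma near_card (M : ℕ) (hM : 1 ≤ M) (V : Finset ℕ) (c w : ℝ) (hw : 0 ≤ w)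
    (h : ∀ t ∈ V, |(t : ℝ) / M - c| ≤ w) : (V.card : ℝ) ≤ 2 * w * M + 1 := by
  have hM0 : (0 : ℝ) < M := by exact_mod_cast hM
  have h1 := spaced V (fun t : ℕ => (t : ℝ) / M) (c - w) (c + w) (1 / M) (by positivity) (by linarith)
    (fun t ht => by
      have := abs_le.1 (h t ht)
      constructor <;> linarith)
    (fun t ht t' ht' hne => by
      rw [← sub_div, abs_div, abs_of_pos hM0]
      apply div_le_div_of_nonneg_right _ hM0.le
      have h3 : (t : ℤ) - t' ≠ 0 := by omega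
      have h4 := Int.one_le_abs h3
      have h5 : ((1 : ℤ) : ℝ) ≤ ((|(t : ℤ) - t'| : ℤ) : ℝ) := by exact_mod_cast h4
      push_cast at h5
      exact h5)
  refine h1.trans (le_of_eq ?_)
  field_simp
  ring

/-- the parameters of the lemmas -/
structure Par (M N Q P : ℕ) (κ T : ℝ) : Prop where
  hQ : 1 ≤ Q
  hP : 1 ≤ P
  hPQ : P * Q ≤ N
  hNPQ : N ≤ 2 * P * Q
  hNM : N ≤ M
  hMκ : (M : ℝ) ≤ κ * N
  hT : 1 ≤ T
  hTP : 4 * T ≤ P

lemma Par.near {M N Q P : ℕ} {κ T : ℝ} (h : Par M N Q P κ T) (s : ℕ) (hs : Q ≤ s) (V : Finset ℕ) (c : ℝ)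
    (hV : ∀ t ∈ V, |(s : ℝ) * ((t : ℝ) / M) - c| ≤ T / P) : (V.card : ℝ) ≤ 4 * κ * T + 1 := by
  have hP0 : (0 : ℝ) < P := by exact_mod_cast h.hP
  have hQ0 : (0 : ℝ) < Q := by exact_mod_cast h.hQ
  have hs0 : (0 : ℝ) < s := by exact_mod_cast (h.hQ.trans hs)
  have hsQ : (Q : ℝ) ≤ s := by exact_mod_cast hs
  have hN1 : 1 ≤ N := by have := h.hPQ; have := Nat.mul_pos h.hP h.hQ; omega
  have hM1 : 1 ≤ M := hN1.trans h.hNM
  have hN0 : (0 : ℝ) < N := by exact_mod_cast hN1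
  have hT0 : 0 < T := by linarith [h.hT]
  have h1 := near_card M hM1 V (c / s) (T / (P * s)) (by positivity) (fun t ht => by
    have h2 := hV t ht
    have e : (t : ℝ) / M - c / s = ((s : ℝ) * ((t : ℝ) / M) - c) / s := by
      field_simp
    rw [e, abs_div, abs_of_pos hs0, div_le_iff₀ hs0]
    refine h2.trans (le_of_eq ?_)
    field_simp)
  refine h1.trans ?_
  have hNPQ : (N : ℝ) ≤ 2 * P * Q := by exact_mod_cast h.hNPQ
  have h3 : 2 * (T / (P * s)) * M ≤ 4 * κ * T := by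
    have h4 : (M : ℝ) ≤ 2 * κ * (P * s) := by
      have hκ0 : 0 ≤ κ := by
        by_contra hc
        rw [not_le] at hc
        have := h.hMκ
        have h6 : (0 : ℝ) < M := by exact_mod_cast hM1
        have : κ * N ≤ 0 := mul_nonpos_of_nonpos_of_nonneg hc.le hN0.le
        linarith
      calc (M : ℝ) ≤ κ * N := h.hMκ
        _ ≤ κ * (2 * P * Q) := mul_le_mul_of_nonneg_left hNPQ hκ0
        _ ≤ κ * (2 * P * s) := by
            apply mul_le_mul_of_nonneg_left _ hκ0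
            exact mul_le_mul_of_nonneg_left hsQ (by positivity)
        _ = 2 * κ * (P * s) := by ring
    have h5 : 2 * (T / (P * s)) * M = 2 * T * (M / (P * s)) := by ring
    rw [h5]
    have h6 : (M : ℝ) / (P * s) ≤ 2 * κ := by
      rw [div_le_iff₀ (by positivity)]
      exact h4
    calc 2 * T * (M / (P * s)) ≤ 2 * T * (2 * κ) := mul_le_mul_of_nonneg_left h6 (by positivity)
      _ = 4 * κ * T := by ring
  linarith

lemma Par.QP {M N Q P : ℕ} {κ T : ℝ} (h : Par M N Q P κ T) : (P : ℝ) * Q ≤ N := by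
  exact_mod_cast h.hPQ

/-- the error of the approximation after the multiplication with `s` -/
lemma Par.err {M N Q P : ℕ} {κ T : ℝ} (h : Par M N Q P κ T) (s : ℕ) (hs : s < 4 * Q) (r R0 β : ℝ)
    (hr : 0 < r) (hR0 : 0 ≤ R0) (hβ : |β| ≤ R0 / (r * N)) : |(s : ℝ) * β| ≤ 4 * R0 / (r * P) := by
  have hP0 : (0 : ℝ) < P := by exact_mod_cast h.hP
  have hQ0 : (0 : ℝ) < Q := by exact_mod_cast h.hQ
  have hN1 : 1 ≤ N := by have := h.hPQ; have := Nat.mul_pos h.hP h.hQ; omega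
  have hN0 : (0 : ℝ) < N := by exact_mod_cast hN1
  have hsQ : (s : ℝ) ≤ 4 * Q := by exact_mod_cast hs.le
  have hQP := h.QP
  rw [abs_mul, abs_of_nonneg (Nat.cast_nonneg s : (0 : ℝ) ≤ s)]
  calc (s : ℝ) * |β| ≤ (4 * Q) * (R0 / (r * N)) := mul_le_mul hsQ hβ (abs_nonneg _) (by positivity)
    _ ≤ 4 * R0 / (r * P) := by
        rw [← mul_div_assoc, div_le_div_iff₀ (by positivity) (by positivity)]
        calc 4 * (Q : ℝ) * R0 * (r * P) = (P * Q) * (4 * R0 * r) := by ring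
          _ ≤ N * (4 * R0 * r) := mul_le_mul_of_nonneg_right hQP (by positivity)
          _ = 4 * R0 * (r * N) := by ring

/-- a rational number with an integral multiple -/
lemma den_dvd_of_mul (y : ℚ) (s : ℕ) (n : ℤ) (h : (s : ℚ) * y = n) (hs : 0 < s) : y.den ∣ s := by
  have hs0 : (s : ℚ) ≠ 0 := by exact_mod_cast hs.ne'
  have h1 : y = ((n : ℤ) : ℚ) / ((s : ℤ) : ℚ) := by
    push_cast
    rw [eq_div_iff hs0, mul_comm]
    exact h
  have h2 := Rat.den_dvd n (s : ℤ)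
  rw [Rat.divInt_eq_div, ← h1] at h2
  exact_mod_cast h2

/-- a small rational number with a small denominator is zero -/
lemma rat_small (y : ℚ) (R : ℝ) (hR : (y.den : ℝ) ≤ R) (h : |(y : ℝ)| * R < 1) : y = 0 := by
  by_contra hne
  have hden : (0 : ℝ) < y.den := by exact_mod_cast y.den_pos
  have h1 : (1 : ℝ) ≤ |(y : ℝ)| * y.den := by
    have h2 : y * y.den = y.num := Rat.mul_den_eq_num y
    have h3 : (y : ℝ) * y.den = y.num := by exact_mod_cast congrArg (fun z : ℚ => (z : ℝ)) h2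
    have h4 : |(y : ℝ)| * y.den = |(y.num : ℝ)| := by
      rw [← h3, abs_mul, abs_of_pos hden]
    rw [h4]
    have h5 : y.num ≠ 0 := by rwa [Ne, Rat.num_eq_zero]
    have h6 := Int.one_le_abs h5
    have h7 : ((1 : ℤ) : ℝ) ≤ ((|y.num| : ℤ) : ℝ) := by exact_mod_cast h6
    push_cast at h7
    exact h7
  have h2 : |(y : ℝ)| * y.den ≤ |(y : ℝ)| * R := mul_le_mul_of_nonneg_left hR (abs_nonneg _)
  linarith

lemma den_sub_le (x y : ℚ) (R : ℝ) (hx : (x.den : ℝ) ≤ R) (hy : (y.den : ℝ) ≤ R) (n : ℤ) (s : ℕ) :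
    ((((s : ℚ) * (x - y) - n : ℚ)).den : ℝ) ≤ R ^ 2 := by
  have hx0 : (0 : ℝ) ≤ x.den := Nat.cast_nonneg _
  have h1 : ((s : ℚ) * (x - y) - n).den ∣ x.den * y.den := by
    apply den_dvd_of_mul _ _ ((s : ℤ) * (x.num * y.den - y.num * x.den) - n * (x.den * y.den))
    · push_cast
      have e1 : (x.num : ℚ) = x * x.den := (Rat.mul_den_eq_num x).symm
      have e2 : (y.num : ℚ) = y * y.den := (Rat.mul_den_eq_num y).symm
      rw [e1, e2]
      ring
    · exact Nat.mul_pos x.den_pos y.den_pos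
  have h2 := Nat.le_of_dvd (Nat.mul_pos x.den_pos y.den_pos) h1
  have h3 : ((((s : ℚ) * (x - y) - n : ℚ)).den : ℝ) ≤ x.den * y.den := by exact_mod_cast h2
  refine h3.trans ?_
  rw [pow_two]
  exact mul_le_mul hx hy (Nat.cast_nonneg _) (hx0.trans hx)

lemma sum_five (Y : ℕ) : ∑ d ∈ Icc 1 Y, (4 * d + 1) ≤ 5 * Y ^ 2 := by
  have h : ∀ d ∈ Icc 1 Y, 4 * d + 1 ≤ 5 * Y := by
    intro d hd
    rw [mem_Icc] at hd
    omega
  refine (sum_le_sum h).trans ?_
  rw [sum_const, Nat.card_Icc, smul_eq_mul, Nat.add_sub_cancel]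
  exact le_of_eq (by ring)

open Classical in
theorem small_case (M N Q P : ℕ) (κ T R0 : ℝ) (hp : Par M N Q P κ T) (hR0 : 1 ≤ R0) (Z : Finset ℕ)
    (hZ : ∀ t ∈ Z, t < M) (x : ℕ → ℚ)
    (hx : ∀ t ∈ Z, ((x t).den : ℝ) ≤ R0 ∧ |(t : ℝ) / M - x t| ≤ R0 / ((x t).den * N))
    (hsm : R0 ^ 2 * (T + 8 * R0) < P) (S : Finset ℕ) (hS : ∀ s ∈ S, Q ≤ s ∧ s < 4 * Q)
    (X1 Y : ℝ) (hX10 : 0 < X1) (hX1 : ∀ s ∈ S, X1 ≤ (clp M P s T Z).card) (hY : 1 ≤ Y)
    (hbig : 10 * Z.card * Y ^ 2 * (4 * κ * T + 1) ≤ X1) :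
    ∃ d : ℕ, Y < d ∧ S.card * X1 ≤ 2 * (Z.card : ℝ) ^ 2 * (S.filter (fun s => d ∣ s)).card := by
  have hP0 : (0 : ℝ) < P := by exact_mod_cast hp.hP
  have hQ0 : (0 : ℝ) < Q := by exact_mod_cast hp.hQ
  have hN1 : 1 ≤ N := by have := hp.hPQ; have := Nat.mul_pos hp.hP hp.hQ; omega
  have hN0 : (0 : ℝ) < N := by exact_mod_cast hN1
  have hM1 : 1 ≤ M := hN1.trans hp.hNM
  have hM0 : (0 : ℝ) < M := by exact_mod_cast hM1
  have hT0 : 0 < T := by linarith [hp.hT]
  rcases S.eq_empty_or_nonempty with hSe | hSne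
  · subst hSe
    obtain ⟨d, hd⟩ := exists_nat_gt Y
    exact ⟨d, hd, by simp⟩
  have hκ0 : 0 ≤ 4 * κ * T + 1 := by
    have h1 : 0 ≤ κ := by
      by_contra hc
      rw [not_le] at hc
      have := hp.hMκ
      have : κ * N ≤ 0 := mul_nonpos_of_nonpos_of_nonneg hc.le hN0.le
      linarith
    positivity
  -- the differences are divisors
  have hdv : ∀ s ∈ S, ∀ p ∈ clp M P s T Z, (x p.1 - x p.2).den ∣ s ∧
      |(s : ℝ) * ((p.1 : ℝ) / M) - s * ((p.2 : ℝ) / M + (x p.1 - x p.2 : ℚ))| ≤ T / P := by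
    intro s hs p hp1
    obtain ⟨hs1, hs2⟩ := hS s hs
    unfold clp at hp1
    rw [mem_filter, mem_product] at hp1
    obtain ⟨⟨hp2, hp3⟩, hp4⟩ := hp1
    unfold Cl at hp4
    obtain ⟨w, hw⟩ : ∃ w, w = (s : ℝ) * (((p.1 : ℝ) - p.2) / M) := ⟨_, rfl⟩
    rw [← hw] at hp4
    obtain ⟨h1, h2⟩ := hx p.1 hp2
    obtain ⟨h3, h4⟩ := hx p.2 hp3
    have d1 : (1 : ℝ) ≤ (x p.1).den := by exact_mod_cast (x p.1).den_pos
    have d2 : (1 : ℝ) ≤ (x p.2).den := by exact_mod_cast (x p.2).den_pos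
    have h5 := hp.err s hs2 (x p.1).den R0 _ (by linarith) (by linarith) h2
    have h6 := hp.err s hs2 (x p.2).den R0 _ (by linarith) (by linarith) h4
    have h7 : 4 * R0 / ((x p.1).den * P) ≤ 4 * R0 / P := by
      apply div_le_div_of_nonneg_left (by positivity) hP0
      nlinarith
    have h8 : 4 * R0 / ((x p.2).den * P) ≤ 4 * R0 / P := by
      apply div_le_div_of_nonneg_left (by positivity) hP0
      nlinarith
    have h9 : w - s * ((x p.1 : ℝ) - x p.2) = s * ((p.1 : ℝ) / M - x p.1) - s * ((p.2 : ℝ) / M - x p.2) := by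
      rw [hw]; ring
    have h10 : |w - s * ((x p.1 : ℝ) - x p.2)| ≤ 8 * R0 / P := by
      rw [h9]
      refine (abs_sub _ _).trans ?_
      have : 8 * R0 / P = 4 * R0 / P + 4 * R0 / P := by ring
      linarith
    have h11 : |((((s : ℚ) * (x p.1 - x p.2) - (round w : ℤ) : ℚ)) : ℝ)| ≤ (T + 8 * R0) / P := by
      push_cast
      have e : (s : ℝ) * ((x p.1 : ℝ) - x p.2) - (round w : ℤ) = (w - round w) - (w - s * ((x p.1 : ℝ) - x p.2)) := by ring
      rw [e]
      refine (abs_sub _ _).trans ?_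
      rw [add_div]
      linarith
    have h12 : (s : ℚ) * (x p.1 - x p.2) - (round w : ℤ) = 0 := by
      apply rat_small _ (R0 ^ 2) (den_sub_le _ _ R0 h1 h3 _ _)
      calc |((((s : ℚ) * (x p.1 - x p.2) - (round w : ℤ) : ℚ)) : ℝ)| * R0 ^ 2 ≤ (T + 8 * R0) / P * R0 ^ 2 :=
            mul_le_mul_of_nonneg_right h11 (by positivity)
        _ = R0 ^ 2 * (T + 8 * R0) / P := by ring
        _ < 1 := by rw [div_lt_one hP0]; exact hsm
    refine ⟨den_dvd_of_mul _ s (round w) (by linarith) (by omega), ?_⟩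
    have h13 : (s : ℝ) * (((x p.1 - x p.2 : ℚ)) : ℝ) = (round w : ℤ) := by
      have : (s : ℚ) * (x p.1 - x p.2) = (round w : ℤ) := by linarith
      exact_mod_cast congrArg (fun z : ℚ => (z : ℝ)) this
    have h14 : (s : ℝ) * ((p.1 : ℝ) / M) - s * ((p.2 : ℝ) / M + (x p.1 - x p.2 : ℚ)) = w - round w := by
      rw [mul_add, h13, hw]
      ring
    rw [h14]
    exact hp4
  -- the pairs with a small difference
  have hcnt : ∀ s ∈ S, (((clp M P s T Z).filter (fun p => ((x p.1 - x p.2).den : ℝ) ≤ Y)).card : ℝ) ≤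
      Z.card * (5 * Y ^ 2 * (4 * κ * T + 1)) := by
    intro s hs
    obtain ⟨hs1, hs2⟩ := hS s hs
    have hs0 : (0 : ℝ) < s := by exact_mod_cast (hp.hQ.trans hs1)
    obtain ⟨C, hC⟩ : ∃ C, C = (clp M P s T Z).filter (fun p => ((x p.1 - x p.2).den : ℝ) ≤ Y) := ⟨_, rfl⟩
    rw [← hC]
    have hmaps : ∀ p ∈ C, p.2 ∈ Z := by
      intro p hp1
      rw [hC, mem_filter] at hp1
      have := hp1.1
      unfold clp at this
      rw [mem_filter, mem_product] at this
      exact this.1.2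
    rw [card_eq_sum_card_fiberwise (fun p hp1 => mem_coe.2 (hmaps p hp1))]
    push_cast
    have hfib : ∀ t' ∈ Z, ((C.filter (fun p => p.2 = t')).card : ℝ) ≤ 5 * Y ^ 2 * (4 * κ * T + 1) := by
      intro t' ht'
      obtain ⟨U, hU⟩ : ∃ U : Finset (ℕ × ℤ), U = (Icc 1 ⌊Y⌋₊).biUnion (fun d : ℕ => (Icc (-(2 * d : ℤ)) (2 * d)).image (fun a => (d, a))) := ⟨_, rfl⟩
      have hUc : (U.card : ℝ) ≤ 5 * Y ^ 2 := by
        have h1 : U.card ≤ ∑ d ∈ Icc 1 ⌊Y⌋₊, (4 * d + 1) := by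
          rw [hU]
          refine card_biUnion_le.trans (sum_le_sum fun d _ => ?_)
          refine card_image_le.trans ?_
          rw [Int.card_Icc]
          omega
        have h2 := h1.trans (sum_five ⌊Y⌋₊)
        have h3 : ((⌊Y⌋₊ : ℕ) : ℝ) ≤ Y := Nat.floor_le (by linarith)
        calc (U.card : ℝ) ≤ ((5 * ⌊Y⌋₊ ^ 2 : ℕ) : ℝ) := by exact_mod_cast h2
          _ = 5 * (⌊Y⌋₊ : ℝ) ^ 2 := by push_cast; ring
          _ ≤ 5 * Y ^ 2 := by
              apply mul_le_mul_of_nonneg_left _ (by norm_num)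
              exact pow_le_pow_left₀ (Nat.cast_nonneg _) h3 2
      have hmap2 : ∀ p ∈ C.filter (fun p => p.2 = t'), (((x p.1 - x p.2).den, (x p.1 - x p.2).num) : ℕ × ℤ) ∈ U := by
        intro p hp1
        rw [mem_filter, hC, mem_filter] at hp1
        obtain ⟨⟨hp2, hp3⟩, hp4⟩ := hp1
        obtain ⟨h1, h2⟩ := hdv s hs p hp2
        rw [hU, mem_biUnion]
        refine ⟨(x p.1 - x p.2).den, ?_, ?_⟩
        · rw [mem_Icc]
          exact ⟨(x p.1 - x p.2).den_pos, Nat.le_floor hp3⟩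
        · rw [mem_image]
          refine ⟨(x p.1 - x p.2).num, ?_, rfl⟩
          obtain ⟨y, hy⟩ : ∃ y, y = x p.1 - x p.2 := ⟨_, rfl⟩
          rw [← hy] at h2 ⊢
          unfold clp at hp2
          rw [mem_filter, mem_product] at hp2
          have t1 := hZ p.1 hp2.1.1
          have t2 := hZ p.2 hp2.1.2
          have u1 : (p.1 : ℝ) / M < 1 := by rw [div_lt_one hM0]; exact_mod_cast t1
          have u2 : (p.2 : ℝ) / M < 1 := by rw [div_lt_one hM0]; exact_mod_cast t2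
          have u3 : (0 : ℝ) ≤ (p.1 : ℝ) / M := by positivity
          have u4 : (0 : ℝ) ≤ (p.2 : ℝ) / M := by positivity
          have h3 : |(p.1 : ℝ) / M - ((p.2 : ℝ) / M + (y : ℝ))| ≤ 1 := by
            have e : (s : ℝ) * ((p.1 : ℝ) / M) - s * ((p.2 : ℝ) / M + (y : ℝ)) = s * ((p.1 : ℝ) / M - ((p.2 : ℝ) / M + (y : ℝ))) := by ring
            rw [e, abs_mul, abs_of_pos hs0] at h2
            have h4 : T / P ≤ 1 := by
              rw [div_le_one hP0]
              linarith [hp.hTP]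
            have hs1' : (1 : ℝ) ≤ s := by exact_mod_cast (hp.hQ.trans hs1)
            by_contra hc
            rw [not_le] at hc
            nlinarith
          have h5 : |(y : ℝ)| ≤ 2 := by
            have := abs_le.1 h3
            rw [abs_le]
            constructor <;> linarith
          have hden : (0 : ℝ) < y.den := by exact_mod_cast y.den_pos
          have h6 : (y : ℝ) * y.den = y.num := by exact_mod_cast congrArg (fun z : ℚ => (z : ℝ)) (Rat.mul_den_eq_num y)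
          have h7 := abs_le.1 h5
          rw [mem_Icc]
          constructor
          · have : (-(2 * y.den : ℝ)) ≤ y.num := by rw [← h6]; nlinarith
            exact_mod_cast this
          · have : (y.num : ℝ) ≤ 2 * y.den := by rw [← h6]; nlinarith
            exact_mod_cast this
      rw [card_eq_sum_card_fiberwise (fun p hp1 => mem_coe.2 (hmap2 p hp1))]
      push_cast
      have hf2 : ∀ u ∈ U, ((((C.filter (fun p => p.2 = t')).filter (fun p => (((x p.1 - x p.2).den, (x p.1 - x p.2).num) : ℕ × ℤ) = u)).card : ℕ) : ℝ) ≤ 4 * κ * T + 1 := by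
        intro u _
        have h1 : (((C.filter (fun p => p.2 = t')).filter (fun p => (((x p.1 - x p.2).den, (x p.1 - x p.2).num) : ℕ × ℤ) = u)).image Prod.fst).card =
            ((C.filter (fun p => p.2 = t')).filter (fun p => (((x p.1 - x p.2).den, (x p.1 - x p.2).num) : ℕ × ℤ) = u)).card := by
          apply card_image_of_injOn
          intro p hp1 p' hp1' h
          rw [mem_coe, mem_filter, mem_filter] at hp1 hp1'
          exact Prod.ext h (hp1.1.2.trans hp1'.1.2.symm)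
        rw [← h1]
        apply hp.near s hs1 _ ((s : ℝ) * ((t' : ℝ) / M + (u.2 : ℝ) / (u.1 : ℝ)))
        intro t ht
        rw [mem_image] at ht
        obtain ⟨p, hp1, rfl⟩ := ht
        rw [mem_filter, mem_filter, hC, mem_filter] at hp1
        obtain ⟨⟨⟨hp2, hp3⟩, hp4⟩, hp5⟩ := hp1
        obtain ⟨h1, h2⟩ := hdv s hs p hp2
        have h3 : ((x p.1 - x p.2 : ℚ) : ℝ) = (u.2 : ℝ) / (u.1 : ℝ) := by
          rw [← hp5]
          simp only
          exact_mod_cast congrArg (fun z : ℚ => (z : ℝ)) (Rat.num_div_den (x p.1 - x p.2)).symm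
        rw [h3, hp4] at h2
        exact h2
      refine (sum_le_sum hf2).trans ?_
      rw [sum_const, nsmul_eq_mul]
      exact mul_le_mul_of_nonneg_right hUc hκ0
    refine (sum_le_sum hfib).trans ?_
    rw [sum_const, nsmul_eq_mul]
  -- the conclusion
  by_contra hcon
  push Not at hcon
  obtain ⟨V, hV⟩ : ∃ V, V = (Z ×ˢ Z).filter (fun p : ℕ × ℕ => Y < ((x p.1 - x p.2).den : ℝ)) := ⟨_, rfl⟩
  have hlow : ∀ s ∈ S, X1 / 2 ≤ ((V.filter (fun p => (x p.1 - x p.2).den ∣ s)).card : ℝ) := by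
    intro s hs
    have h1 := hX1 s hs
    have h2 := hcnt s hs
    have h3 : ((clp M P s T Z).filter (fun p => ((x p.1 - x p.2).den : ℝ) ≤ Y)).card +
        ((clp M P s T Z).filter (fun p => ¬ ((x p.1 - x p.2).den : ℝ) ≤ Y)).card = (clp M P s T Z).card :=
      card_filter_add_card_filter_not _
    have h4 : ((clp M P s T Z).filter (fun p => ¬ ((x p.1 - x p.2).den : ℝ) ≤ Y)).card ≤
        (V.filter (fun p => (x p.1 - x p.2).den ∣ s)).card := by
      apply card_le_card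
      intro p hp1
      rw [mem_filter] at hp1
      obtain ⟨h5, _⟩ := hdv s hs p hp1.1
      have h6 := hp1.1
      unfold clp at h6
      rw [mem_filter] at h6
      rw [mem_filter, hV, mem_filter]
      exact ⟨⟨h6.1, not_le.1 hp1.2⟩, h5⟩
    have h5 : (((clp M P s T Z).filter (fun p => ((x p.1 - x p.2).den : ℝ) ≤ Y)).card : ℝ) +
        ((clp M P s T Z).filter (fun p => ¬ ((x p.1 - x p.2).den : ℝ) ≤ Y)).card = (clp M P s T Z).card := by
      exact_mod_cast h3
    have h6 : (((clp M P s T Z).filter (fun p => ¬ ((x p.1 - x p.2).den : ℝ) ≤ Y)).card : ℝ) ≤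
        (V.filter (fun p => (x p.1 - x p.2).den ∣ s)).card := by exact_mod_cast h4
    have h7 : Z.card * (5 * Y ^ 2 * (4 * κ * T + 1)) ≤ X1 / 2 := by linarith
    linarith
  have hsw : ∑ s ∈ S, ((V.filter (fun p => (x p.1 - x p.2).den ∣ s)).card : ℝ) =
      ∑ p ∈ V, ((S.filter (fun s => (x p.1 - x p.2).den ∣ s)).card : ℝ) := by
    simp only [card_filter, Nat.cast_sum]
    rw [sum_comm]
  have h1 : (S.card : ℝ) * (X1 / 2) ≤ ∑ p ∈ V, ((S.filter (fun s => (x p.1 - x p.2).den ∣ s)).card : ℝ) := by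
    rw [← hsw]
    calc (S.card : ℝ) * (X1 / 2) = ∑ _s ∈ S, X1 / 2 := by rw [sum_const, nsmul_eq_mul]
      _ ≤ _ := sum_le_sum hlow
  have hSc : (0 : ℝ) < S.card := by exact_mod_cast hSne.card_pos
  have hVne : V.Nonempty := by
    rw [nonempty_iff_ne_empty]
    intro h0
    rw [h0, sum_empty] at h1
    have : 0 < (S.card : ℝ) * (X1 / 2) := by positivity
    linarith
  have hVc : (V.card : ℝ) ≤ (Z.card : ℝ) ^ 2 := by
    have : V.card ≤ Z.card ^ 2 := by
      rw [hV]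
      refine (card_filter_le _ _).trans ?_
      rw [card_product, pow_two]
    exact_mod_cast this
  have hZc : (0 : ℝ) < (Z.card : ℝ) ^ 2 := by
    have h2 : (0 : ℝ) < V.card := by exact_mod_cast hVne.card_pos
    linarith
  have h2 : ∑ p ∈ V, ((S.filter (fun s => (x p.1 - x p.2).den ∣ s)).card : ℝ) <
      ∑ _p ∈ V, (S.card : ℝ) * X1 / (2 * (Z.card : ℝ) ^ 2) := by
    apply sum_lt_sum_of_nonempty hVne
    intro p hp1
    rw [hV, mem_filter] at hp1
    have h3 := hcon (x p.1 - x p.2).den hp1.2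
    rw [lt_div_iff₀ (by positivity)]
    linarith
  rw [sum_const, nsmul_eq_mul] at h2
  have h3 : (V.card : ℝ) * ((S.card : ℝ) * X1 / (2 * (Z.card : ℝ) ^ 2)) ≤ (Z.card : ℝ) ^ 2 * ((S.card : ℝ) * X1 / (2 * (Z.card : ℝ) ^ 2)) :=
    mul_le_mul_of_nonneg_right hVc (by positivity)
  have hZne : (Z.card : ℝ) ≠ 0 := by
    intro h0
    rw [h0] at hZc
    norm_num at hZc
  have h4 : (Z.card : ℝ) ^ 2 * ((S.card : ℝ) * X1 / (2 * (Z.card : ℝ) ^ 2)) = S.card * (X1 / 2) := by
    field_simp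
  linarith

end Pool.Agent.Y883.T3
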