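import Pool.Agent.Y883.T3.Lvl
import Pool.Agent.Helper112.Arith

set_option autoImplicit false

/-! A set of moduli `q ≤ N ^ (2 / 3 - ρ)` with many exceptional multiples has many members with a common
divisor. -/

namespace Pool.Agent.Y883.T3

open Finset
open Pool.Agent.H807R2.Dav
open Pool.Agent.H373R2.T7 (fz parseval_Icc ev_L' ev_log' lamz)
open Pool.Agent.W93.GB (Good)

lemma rpow_step (N a b : ℝ) (hN : 1 ≤ N) (hab : a ≤ b) : N ^ a ≤ N ^ b :=
  Real.rpow_le_rpow_of_exponent_le hN hab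

open Classical in
theorem level_step (A N Q P j U : ℕ) (L X ν ρ : ℝ) (f : ℕ → ℝ) (S : Finset ℕ)
    (h : Hyp A N Q P j L (lev (FF f N) (4 * N) N j) S) (hU : 8 * A + 42 ≤ U) (hN1 : 1 ≤ N)
    (hρ0 : 0 < ρ) (hQN : (Q : ℝ) ≤ (N : ℝ) ^ (2 / 3 - ρ)) (hν : ν = (N : ℝ) ^ (1 / 40 : ℝ))
    (hX : L ^ (40 * A + 200) ≤ X) (hX4 : X ^ 4 ≤ (N : ℝ) ^ (1 / 100 : ℝ)) (hXρ : X ^ 4 ≤ (N : ℝ) ^ (2 * ρ))
    (h100 : 100 ≤ (N : ℝ) ^ (1 / 1000 : ℝ)) (h8 : 8 ≤ (N : ℝ) ^ ρ)
    (hL98 : 19 * L ^ (8 * A + 98) ≤ (N : ℝ) ^ (1 / 100 : ℝ))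
    (hdiv : ∀ n : ℕ, 1 ≤ n → n ≤ 4 * N → (n.divisors.card : ℝ) ≤ X)
    (hlog : ((Nat.log 2 N : ℕ) : ℝ) + 1 ≤ L ^ 2)
    (hsup : ∀ t, FF f N t ≤ N / L ^ U)
    (hrat : ∀ K : ℝ, 1 ≤ K → K ≤ (N : ℝ) ^ (17 / 100 : ℝ) → ∀ t : ℕ, N / K < FF f N t →
      ∃ x : ℚ, (x.den : ℝ) ≤ K ^ 2 * L ^ 18 ∧ |(t : ℝ) / (4 * N : ℕ) - x| ≤ K ^ 2 * L ^ 18 / (x.den * N))
    (hne : S.Nonempty) :
    (∃ d : ℕ, L ^ (U - (8 * A + 41)) < d ∧ (S.card : ℝ) ≤ L ^ (8 * A + 43) * (S.filter (fun s => d ∣ s)).card) ∨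
    (∃ d : ℕ, ν ≤ d ∧ (S.card : ℝ) ≤ X ^ 4 * (S.filter (fun s => d ∣ s)).card) := by
  have hN0 : (0 : ℝ) < N := by exact_mod_cast hN1
  have hN1r : (1 : ℝ) ≤ N := by exact_mod_cast hN1
  have hL := h.hL
  have hL0 : 0 < L := by linarith
  have hL1 : 1 ≤ L := by linarith
  have hp := h.hp
  have hP0 : (0 : ℝ) < P := by exact_mod_cast hp.hP
  have hQ0 : (0 : ℝ) < Q := by exact_mod_cast hp.hQ
  have hX1 : 1 ≤ X := (one_le_pow₀ hL1).trans hX
  have hX0 : 0 < X := by linarith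
  have hν0 : 0 < ν := by rw [hν]; positivity
  have hν1 : 1 ≤ ν := by rw [hν]; exact Real.one_le_rpow hN1r (by norm_num)
  have hNP : (N : ℝ) ≤ 2 * P * Q := by exact_mod_cast hp.hNPQ
  -- lower bound of `P`
  have hPlow : (N : ℝ) ^ (1 / 3 : ℝ) / 2 ≤ P := by
    have h1 : (Q : ℝ) ≤ (N : ℝ) ^ (2 / 3 : ℝ) := hQN.trans (rpow_step _ _ _ hN1r (by linarith))
    have h2 : (N : ℝ) ^ (1 / 3 : ℝ) * (N : ℝ) ^ (2 / 3 : ℝ) = N := by
      rw [← Real.rpow_add hN0]
      norm_num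
    have h3 : (N : ℝ) ^ (1 / 3 : ℝ) * (N : ℝ) ^ (2 / 3 : ℝ) ≤ (2 * P) * (N : ℝ) ^ (2 / 3 : ℝ) := by
      rw [h2]
      exact hNP.trans (mul_le_mul_of_nonneg_left h1 (by positivity))
    have h4 := le_of_mul_le_mul_right h3 (by positivity)
    linarith
  -- the lower bound of the level
  have hlev : L ^ U < 2 ^ (j + 1) := by
    obtain ⟨s, hs⟩ := hne
    have h1 := h.hX1 s hs
    have h2 : (lev (FF f N) (4 * N) N j).Nonempty := by
      rw [nonempty_iff_ne_empty]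
      intro h0
      rw [h0] at h1
      unfold clp at h1
      simp at h1
      have : 0 < (16 : ℝ) ^ j / (6 * L ^ (8 * A + 24)) := by positivity
      linarith
    obtain ⟨t, ht⟩ := h2
    unfold lev at ht
    rw [mem_filter] at ht
    have h3 := ht.2.1.trans_le (hsup t)
    rw [div_lt_div_iff₀ (by positivity) (by positivity)] at h3
    exact lt_of_mul_lt_mul_left h3 hN0.le
  have h2j : (2 : ℝ) ^ (j + 1) * 2 ^ (j + 1) = 4 * 4 ^ j := by
    rw [← mul_pow, pow_succ]; norm_num; ring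
  have h4j : ((2 : ℝ) ^ (j + 1)) ^ 2 = 4 ^ (j + 1) := by rw [← pow_mul, mul_comm, pow_mul]; norm_num
  -- the rational approximations
  have hx : (2 : ℝ) ^ (j + 1) ≤ (N : ℝ) ^ (17 / 100 : ℝ) → ∃ x : ℕ → ℚ, ∀ t ∈ lev (FF f N) (4 * N) N j,
      ((x t).den : ℝ) ≤ 4 ^ (j + 1) * L ^ 18 ∧
      |(t : ℝ) / (4 * N : ℕ) - x t| ≤ 4 ^ (j + 1) * L ^ 18 / ((x t).den * N) := by
    intro hK
    have h1 : ∀ t ∈ lev (FF f N) (4 * N) N j, ∃ x : ℚ, (x.den : ℝ) ≤ 4 ^ (j + 1) * L ^ 18 ∧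
      |(t : ℝ) / (4 * N : ℕ) - x| ≤ 4 ^ (j + 1) * L ^ 18 / (x.den * N) := by
      intro t ht
      unfold lev at ht
      rw [mem_filter] at ht
      obtain ⟨x, hx1, hx2⟩ := hrat (2 ^ (j + 1)) (one_le_pow₀ (by norm_num)) hK t ht.2.1
      rw [h4j] at hx1 hx2
      exact ⟨x, hx1, hx2⟩
    choose! x hx using h1
    exact ⟨x, hx⟩
  have hL98' : L ^ (8 * A + 98) ≤ (N : ℝ) ^ (1 / 100 : ℝ) / 19 := by linarith
  have hL18 : L ^ 18 ≤ (N : ℝ) ^ (1 / 100 : ℝ) := by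
    have : L ^ 18 ≤ L ^ (8 * A + 98) := pow_le_pow_right₀ hL1 (by omega)
    have h0 : 0 < (N : ℝ) ^ (1 / 100 : ℝ) := by positivity
    linarith
  have h1000 : (N : ℝ) ^ (1 / 1000 : ℝ) ≤ (N : ℝ) ^ (1 / 100 : ℝ) := rpow_step _ _ _ hN1r (by norm_num)
  -- bound of `X`
  have hX4ν : 16 * X ^ 4 ≤ ν := by
    have h1 : (N : ℝ) ^ (1 / 100 : ℝ) * (N : ℝ) ^ (1 / 1000 : ℝ) ≤ ν := by
      rw [hν, ← Real.rpow_add hN0]
      exact rpow_step _ _ _ hN1r (by norm_num)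
    have h2 : X ^ 4 * 100 ≤ (N : ℝ) ^ (1 / 100 : ℝ) * (N : ℝ) ^ (1 / 1000 : ℝ) :=
      mul_le_mul hX4 h100 (by norm_num) (by positivity)
    have : 0 < X ^ 4 := by positivity
    linarith
  have hXle : X ≤ X ^ 4 := by
    calc X = X ^ 1 := (pow_one X).symm
      _ ≤ X ^ 4 := pow_le_pow_right₀ hX1 (by norm_num)
  have hX3le : X ^ 3 ≤ X ^ 4 := pow_le_pow_right₀ hX1 (by norm_num)
  rcases le_or_gt ((2 : ℝ) ^ (j + 1)) ν with hsmall | hbig
  · -- the small case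
    left
    obtain ⟨x, hx⟩ := hx (hsmall.trans (by rw [hν]; exact rpow_step _ _ _ hN1r (by norm_num)))
    refine small_step A N Q P j U L _ S h x hx ?_ hlev hU
    have h1 : (64 : ℝ) ^ (j + 1) = (2 ^ (j + 1)) ^ 6 := by rw [← pow_mul, mul_comm, pow_mul]; norm_num
    have h2 : (64 : ℝ) ^ (j + 1) ≤ (N : ℝ) ^ (3 / 20 : ℝ) := by
      rw [h1]
      calc ((2 : ℝ) ^ (j + 1)) ^ 6 ≤ ν ^ 6 := pow_le_pow_left₀ (by positivity) hsmall 6
        _ = (N : ℝ) ^ (3 / 20 : ℝ) := by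
            rw [hν, ← Real.rpow_natCast, ← Real.rpow_mul hN0.le]
            norm_num
    refine lt_of_lt_of_le ?_ hPlow
    have h3 : (N : ℝ) ^ (1 / 100 : ℝ) * (N : ℝ) ^ (3 / 20 : ℝ) ≤ (N : ℝ) ^ (1 / 3 : ℝ) := by
      rw [← Real.rpow_add hN0]
      exact rpow_step _ _ _ hN1r (by norm_num)
    have h4 : 19 * L ^ (8 * A + 98) * 64 ^ (j + 1) ≤ (N : ℝ) ^ (1 / 100 : ℝ) * (N : ℝ) ^ (3 / 20 : ℝ) :=
      mul_le_mul hL98 h2 (by positivity) (by positivity)
    have h5 : 0 < L ^ (8 * A + 98) * 64 ^ (j + 1) := by positivity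
    nlinarith
  · -- the other cases
    right
    have h4big : ν ^ 2 / 4 < 4 ^ j := by
      have : ν ^ 2 < 4 * 4 ^ j := by
        rw [← h2j, pow_two]
        exact mul_lt_mul'' hbig hbig hν0.le hν0.le
      linarith
    have hdivS : ∀ s ∈ S, (s.divisors.card : ℝ) ≤ X := by
      intro s hs
      have h1 := h.hS s hs
      have h2 := hp.hQ
      have h3 : Q ≤ N := by
        have h4 := hp.hPQ
        have h5 := hp.hP
        calc Q = 1 * Q := (one_mul _).symm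
          _ ≤ P * Q := Nat.mul_le_mul_right _ h5
          _ ≤ N := h4
      exact hdiv s (by omega) (by omega)
    have hdeep : X * (Q / P + ν) ≤ (4 : ℝ) ^ j → ∃ d : ℕ, ν ≤ d ∧ (S.card : ℝ) ≤ X ^ 4 * (S.filter (fun s => d ∣ s)).card := by
      intro hj
      exact deep_step A N Q P j L X ν _ S h hX hdivS hν0.le hj
    have hXν : X * ν ≤ (4 : ℝ) ^ j / 2 := by
      have h1 : 8 * X ≤ ν := by linarith
      nlinarith
    rcases le_or_gt ((2 : ℝ) ^ (j + 1)) ((N : ℝ) ^ (17 / 100 : ℝ)) with hK | hK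
    · rcases le_or_gt (4 ^ j * X ^ 3) (P : ℝ) with hPj | hPj
      · -- large
        obtain ⟨x, hx⟩ := hx hK
        have hR0 : (4 : ℝ) ^ (j + 1) * L ^ 18 ≤ N := by
          rw [← h4j]
          have h1 : ((2 : ℝ) ^ (j + 1)) ^ 2 ≤ (N : ℝ) ^ (34 / 100 : ℝ) := by
            calc ((2 : ℝ) ^ (j + 1)) ^ 2 ≤ ((N : ℝ) ^ (17 / 100 : ℝ)) ^ 2 := pow_le_pow_left₀ (by positivity) hK 2
              _ = (N : ℝ) ^ (34 / 100 : ℝ) := by
                  rw [← Real.rpow_natCast, ← Real.rpow_mul hN0.le]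
                  norm_num
          calc ((2 : ℝ) ^ (j + 1)) ^ 2 * L ^ 18 ≤ (N : ℝ) ^ (34 / 100 : ℝ) * (N : ℝ) ^ (1 / 100 : ℝ) :=
                mul_le_mul h1 hL18 (by positivity) (by positivity)
            _ = (N : ℝ) ^ (35 / 100 : ℝ) := by rw [← Real.rpow_add hN0]; norm_num
            _ ≤ (N : ℝ) ^ (1 : ℝ) := rpow_step _ _ _ hN1r (by norm_num)
            _ = N := Real.rpow_one _
        obtain ⟨d, hd1, hd2⟩ := large_step A N Q P j L X _ S h x hx hX (by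
          intro n hn1 hn2
          apply hdiv n hn1
          rcases hn2 with hn2 | hn2
          · have h3 : Q ≤ N := by
              have h4 := hp.hPQ
              have h5 := hp.hP
              calc Q = 1 * Q := (one_mul _).symm
                _ ≤ P * Q := Nat.mul_le_mul_right _ h5
                _ ≤ N := h4
            omega
          · have h3 : (n : ℝ) ≤ N := hn2.trans hR0
            have h4 : n ≤ N := by exact_mod_cast h3
            omega) (by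
          refine le_trans ?_ hlog
          have h1 : ⌊(4 : ℝ) ^ (j + 1) * L ^ 18⌋₊ ≤ N := by
            have h2 := Nat.floor_le_floor hR0
            rwa [Nat.floor_natCast] at h2
          have h2 := Nat.log_mono_right (b := 2) h1
          have h3 : ((Nat.log 2 ⌊(4 : ℝ) ^ (j + 1) * L ^ 18⌋₊ : ℕ) : ℝ) ≤ Nat.log 2 N := by exact_mod_cast h2
          linarith) hPj
        refine ⟨d, ?_, hd2⟩
        by_contra hc
        rw [not_le] at hc
        have h1 : X ^ 3 * (d : ℝ) ≤ X ^ 3 * ν := mul_le_mul_of_nonneg_left hc.le (by positivity)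
        have h2 : 4 * X ^ 3 ≤ ν := by
          have : 0 < X ^ 4 := by positivity
          linarith
        nlinarith
      · -- deep, first case
        apply hdeep
        rw [mul_add]
        have h1 : X * (Q / P) ≤ (4 : ℝ) ^ j / 2 := by
          have h2 : X * (Q / P) * (2 * X ^ 3) ≤ 4 ^ j * X ^ 3 := by
            refine le_trans ?_ hPj.le
            have e1 : X * (Q / P) * (2 * X ^ 3) = 2 * X ^ 4 * Q / P := by ring
            rw [e1, div_le_iff₀ hP0]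
            have h3 : 8 * X ^ 4 * (Q : ℝ) ^ 3 ≤ (N : ℝ) ^ 2 := by
              have h4 : (Q : ℝ) ^ 3 ≤ (N : ℝ) ^ (2 - 3 * ρ) := by
                calc (Q : ℝ) ^ 3 ≤ ((N : ℝ) ^ (2 / 3 - ρ)) ^ 3 := pow_le_pow_left₀ hQ0.le hQN 3
                  _ = (N : ℝ) ^ (2 - 3 * ρ) := by
                      rw [← Real.rpow_natCast, ← Real.rpow_mul hN0.le]
                      congr 1
                      push_cast
                      ring
              calc 8 * X ^ 4 * (Q : ℝ) ^ 3 ≤ ((N : ℝ) ^ ρ * (N : ℝ) ^ (2 * ρ)) * (N : ℝ) ^ (2 - 3 * ρ) := by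
                    apply mul_le_mul _ h4 (by positivity) (by positivity)
                    exact mul_le_mul h8 hXρ (by positivity) (by positivity)
                _ = (N : ℝ) ^ (2 : ℝ) := by
                    rw [← Real.rpow_add hN0, ← Real.rpow_add hN0]
                    congr 1
                    ring
                _ = (N : ℝ) ^ 2 := by norm_cast
            have h5 : (N : ℝ) ^ 2 ≤ (2 * P * Q) ^ 2 := pow_le_pow_left₀ hN0.le hNP 2
            have h6 : (2 * X ^ 4 * Q) * (4 * (Q : ℝ) ^ 2) ≤ ((P : ℝ) * P) * (4 * (Q : ℝ) ^ 2) := by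
              calc (2 * X ^ 4 * Q) * (4 * (Q : ℝ) ^ 2) = 8 * X ^ 4 * (Q : ℝ) ^ 3 := by ring
                _ ≤ (N : ℝ) ^ 2 := h3
                _ ≤ (2 * P * Q) ^ 2 := h5
                _ = _ := by ring
            exact le_of_mul_le_mul_right h6 (by positivity)
          have h3 : 0 < X ^ 3 := by positivity
          have h4 : (X * (Q / P) * 2) * X ^ 3 ≤ 4 ^ j * X ^ 3 := by
            refine le_trans (le_of_eq ?_) h2
            ring
          have h5 := le_of_mul_le_mul_right h4 h3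
          linarith
        linarith
    · -- deep, second case
      apply hdeep
      rw [mul_add]
      have h1 : X * (Q / P) ≤ (4 : ℝ) ^ j / 2 := by
        have h2 : (N : ℝ) ^ (34 / 100 : ℝ) / 4 ≤ 4 ^ j := by
          have h3 : (N : ℝ) ^ (34 / 100 : ℝ) = (N : ℝ) ^ (17 / 100 : ℝ) * (N : ℝ) ^ (17 / 100 : ℝ) := by
            rw [← Real.rpow_add hN0]; norm_num
          have h4 : (N : ℝ) ^ (17 / 100 : ℝ) * (N : ℝ) ^ (17 / 100 : ℝ) ≤ (2 : ℝ) ^ (j + 1) * 2 ^ (j + 1) :=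
            mul_le_mul hK.le hK.le (by positivity) (by positivity)
          rw [← h3, h2j] at h4
          linarith
        have h3 : (Q : ℝ) / P ≤ 2 * (N : ℝ) ^ (1 / 3 : ℝ) := by
          rw [div_le_iff₀ hP0]
          have h4 : (Q : ℝ) ≤ (N : ℝ) ^ (2 / 3 : ℝ) := hQN.trans (rpow_step _ _ _ hN1r (by linarith))
          calc (Q : ℝ) ≤ (N : ℝ) ^ (2 / 3 : ℝ) := h4
            _ = 2 * (N : ℝ) ^ (1 / 3 : ℝ) * ((N : ℝ) ^ (1 / 3 : ℝ) / 2) := by
                have : (N : ℝ) ^ (2 / 3 : ℝ) = (N : ℝ) ^ (1 / 3 : ℝ) * (N : ℝ) ^ (1 / 3 : ℝ) := by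
                  rw [← Real.rpow_add hN0]; norm_num
                rw [this]; ring
            _ ≤ _ := mul_le_mul_of_nonneg_left hPlow (by positivity)
        have h4 : X * (16 * (N : ℝ) ^ (1 / 3 : ℝ)) ≤ (N : ℝ) ^ (34 / 100 : ℝ) := by
          have hX' : X ≤ (N : ℝ) ^ (1 / 400 : ℝ) := by
            have h5 : X ^ 4 ≤ ((N : ℝ) ^ (1 / 400 : ℝ)) ^ 4 := by
              refine hX4.trans (le_of_eq ?_)
              rw [← Real.rpow_natCast, ← Real.rpow_mul hN0.le]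
              norm_num
            exact le_of_pow_le_pow_left₀ (by norm_num) (by positivity) h5
          calc X * (16 * (N : ℝ) ^ (1 / 3 : ℝ)) ≤ (N : ℝ) ^ (1 / 400 : ℝ) * ((N : ℝ) ^ (1 / 1000 : ℝ) * (N : ℝ) ^ (1 / 3 : ℝ)) := by
                apply mul_le_mul hX' _ (by positivity) (by positivity)
                exact mul_le_mul_of_nonneg_right (by linarith) (by positivity)
            _ = (N : ℝ) ^ (1 / 400 + (1 / 1000 + 1 / 3) : ℝ) := by
                rw [← Real.rpow_add hN0, ← Real.rpow_add hN0]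
            _ ≤ (N : ℝ) ^ (34 / 100 : ℝ) := rpow_step _ _ _ hN1r (by norm_num)
        have h5 : X * (Q / P) ≤ X * (2 * (N : ℝ) ^ (1 / 3 : ℝ)) := mul_le_mul_of_nonneg_left h3 hX0.le
        linarith
      linarith

end Pool.Agent.Y883.T3
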