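import Pool.Agent.Y883.T3.Cmb

set_option autoImplicit false

/-! Close pairs of points and common divisors: the case of many points. -/

namespace Pool.Agent.Y883.T3

open Finset

lemma card_le_image {α β : Type*} [DecidableEq β] (V : Finset α) (f : α → β) (b : ℝ)
    (h : ∀ y ∈ V.image f, ((V.filter (fun x => f x = y)).card : ℝ) ≤ b) : (V.card : ℝ) ≤ (V.image f).card * b := by
  rw [card_eq_sum_card_image f V]
  push_cast
  refine (sum_le_sum h).trans ?_
  rw [sum_const, nsmul_eq_mul]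

lemma Par.kap {M N Q P : ℕ} {κ T : ℝ} (h : Par M N Q P κ T) : 1 ≤ 4 * κ * T + 1 := by
  have hN1 : 1 ≤ N := by have := h.hPQ; have := Nat.mul_pos h.hP h.hQ; omega
  have hN0 : (0 : ℝ) < N := by exact_mod_cast hN1
  have hT := h.hT
  have h1 : 0 ≤ κ := by
    by_contra hc
    rw [not_le] at hc
    have h2 := h.hMκ
    have h3 : κ * N < 0 := mul_neg_of_neg_of_pos hc hN0
    have h4 : (0 : ℝ) ≤ M := Nat.cast_nonneg _
    linarith
  have : 0 ≤ 4 * κ * T := by positivity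
  linarith

lemma Par.TP {M N Q P : ℕ} {κ T : ℝ} (h : Par M N Q P κ T) : T / P ≤ 1 / 4 := by
  have hP0 : (0 : ℝ) < P := by exact_mod_cast h.hP
  rw [div_le_iff₀ hP0]
  linarith [h.hTP]

/-- the range of the rounded numbers -/
lemma round_range (M P s : ℕ) (T : ℝ) (hM : 1 ≤ M) (hTP : T / P ≤ 1 / 4) (t t' : ℕ) (ht : t < M)
    (h : Cl M P s T t t') :
    -((s : ℝ) * ((t' : ℝ) / M)) - 1 / 4 ≤ (round ((s : ℝ) * (((t : ℝ) - t') / M)) : ℤ) ∧
      ((round ((s : ℝ) * (((t : ℝ) - t') / M)) : ℤ) : ℝ) ≤ s - (s : ℝ) * ((t' : ℝ) / M) + 1 / 4 := by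
  have hM0 : (0 : ℝ) < M := by exact_mod_cast hM
  unfold Cl at h
  have h1 := abs_le.1 (h.trans hTP)
  have h2 : (s : ℝ) * (((t : ℝ) - t') / M) = s * ((t : ℝ) / M) - s * ((t' : ℝ) / M) := by ring
  have h3 : (0 : ℝ) ≤ s * ((t : ℝ) / M) := by positivity
  have h4 : (s : ℝ) * ((t : ℝ) / M) ≤ s := by
    have : (t : ℝ) / M ≤ 1 := by rw [div_le_one hM0]; exact_mod_cast ht.le
    nlinarith [(Nat.cast_nonneg s : (0 : ℝ) ≤ s)]
  constructor <;> linarith [h1.1, h1.2]

lemma two_close (M N Q P : ℕ) (κ T : ℝ) (hp : Par M N Q P κ T) (s s' : ℕ) (hs : Q ≤ s ∧ s < 4 * Q)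
    (hs' : Q ≤ s' ∧ s' < 4 * Q) (t' : ℕ) (V : Finset ℕ)
    (hV : ∀ t ∈ V, t < M ∧ Cl M P s T t t' ∧ Cl M P s' T t t') :
    (V.card : ℝ) ≤ (48 * (Q * T / P) + 3 * (Nat.gcd s s' : ℝ)) * (4 * κ * T + 1) := by
  classical
  have hP0 : (0 : ℝ) < P := by exact_mod_cast hp.hP
  have hQ0 : (0 : ℝ) < Q := by exact_mod_cast hp.hQ
  have hN1 : 1 ≤ N := by have := hp.hPQ; have := Nat.mul_pos hp.hP hp.hQ; omega
  have hM1 : 1 ≤ M := hN1.trans hp.hNM
  have hM0 : (0 : ℝ) < M := by exact_mod_cast hM1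
  have hT0 : 0 < T := by linarith [hp.hT]
  have hk := hp.kap
  have hTP := hp.TP
  have hs0 : 0 < s := by have := hp.hQ; omega
  have hs0' : 0 < s' := by have := hp.hQ; omega
  have hs0r : (0 : ℝ) < s := by exact_mod_cast hs0
  obtain ⟨g, hg⟩ : ∃ g, g = Nat.gcd s s' := ⟨_, rfl⟩
  rw [← hg]
  have hg0 : 0 < g := by rw [hg]; exact Nat.gcd_pos_of_pos_left _ hs0
  have hg0r : (0 : ℝ) < g := by exact_mod_cast hg0
  have hg1r : (1 : ℝ) ≤ g := by exact_mod_cast hg0
  obtain ⟨a, ha⟩ : g ∣ s := by rw [hg]; exact Nat.gcd_dvd_left _ _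
  obtain ⟨b, hb⟩ : g ∣ s' := by rw [hg]; exact Nat.gcd_dvd_right _ _
  have hab : Nat.Coprime a b := by
    have h1 : Nat.gcd s s' = g * Nat.gcd a b := by
      conv_lhs => rw [ha, hb]
      exact Nat.gcd_mul_left _ _ _
    rw [← hg] at h1
    exact Nat.eq_of_mul_eq_mul_left hg0 (by rw [mul_one]; exact h1.symm)
  have ha0 : 0 < a := Nat.pos_of_mul_pos_left (by rw [← ha]; exact hs0) |> fun h => h
  have ha0r : (0 : ℝ) < a := by exact_mod_cast ha0
  obtain ⟨φ, hφ⟩ : ∃ φ : ℕ → ℤ × ℤ, φ = fun t : ℕ => (round ((s : ℝ) * (((t : ℝ) - t') / M)),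
    round ((s' : ℝ) * (((t : ℝ) - t') / M))) := ⟨_, rfl⟩
  obtain ⟨k, hkd⟩ : ∃ k : ℤ × ℤ → ℤ, k = fun p => (s' : ℤ) * p.1 - (s : ℤ) * p.2 := ⟨_, rfl⟩
  -- fibres of `φ`
  have h1 : (V.card : ℝ) ≤ (V.image φ).card * (4 * κ * T + 1) := by
    apply card_le_image
    intro y hy
    apply hp.near s hs.1 _ ((s : ℝ) * ((t' : ℝ) / M) + y.1)
    intro t ht
    rw [mem_filter] at ht
    obtain ⟨ht1, ht2⟩ := ht
    have h2 := (hV t ht1).2.1
    unfold Cl at h2
    rw [hφ] at ht2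
    have h3 : round ((s : ℝ) * (((t : ℝ) - t') / M)) = y.1 := congrArg Prod.fst ht2
    rw [h3] at h2
    have e : (s : ℝ) * ((t : ℝ) / M) - (s * ((t' : ℝ) / M) + y.1) = s * (((t : ℝ) - t') / M) - y.1 := by ring
    rw [e]
    exact h2
  -- the fibres of `k`
  have h2 : ((V.image φ).card : ℝ) ≤ ((V.image φ).image k).card * (3 * g) := by
    apply card_le_image
    intro y hy
    have h3 := spaced ((V.image φ).filter (fun p => k p = y)) (fun p => (p.1 : ℝ))
      (-((s : ℝ) * ((t' : ℝ) / M)) - 1 / 4) (s - (s : ℝ) * ((t' : ℝ) / M) + 1 / 4) a ha0r (by linarith) (by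
        intro p hp1
        rw [mem_filter, mem_image] at hp1
        obtain ⟨⟨t, ht1, ht2⟩, _⟩ := hp1
        have h4 := round_range M P s T hM1 hTP t t' (hV t ht1).1 (hV t ht1).2.1
        rw [← ht2, hφ]
        exact h4) (by
        intro p hp1 p' hp1' hne
        rw [mem_filter] at hp1 hp1'
        have h4 : k p = k p' := by rw [hp1.2, hp1'.2]
        rw [hkd] at h4
        simp only at h4
        have h5 : (b : ℤ) * (p.1 - p'.1) = (a : ℤ) * (p.2 - p'.2) := by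
          have h6 : (g : ℤ) * ((b : ℤ) * (p.1 - p'.1)) = g * ((a : ℤ) * (p.2 - p'.2)) := by
            rw [ha, hb] at h4
            push_cast at h4
            linarith
          exact mul_left_cancel₀ (by exact_mod_cast hg0.ne') h6
        have h6 : (a : ℤ) ∣ p.1 - p'.1 := by
          have h7 : (a : ℤ) ∣ (b : ℤ) * (p.1 - p'.1) := ⟨_, h5⟩
          exact (Nat.isCoprime_iff_coprime.2 hab).dvd_of_dvd_mul_left h7
        have h7 : p.1 - p'.1 ≠ 0 := by
          intro h0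
          rw [h0, mul_zero] at h5
          have h8 : p.2 - p'.2 = 0 := by
            rcases mul_eq_zero.1 h5.symm with h9 | h9
            · exfalso
              have : (a : ℤ) ≠ 0 := by exact_mod_cast ha0.ne'
              exact this h9
            · exact h9
          apply hne
          exact Prod.ext (by omega) (by omega)
        have h8 : (a : ℤ) ≤ |p.1 - p'.1| := by
          apply Int.le_of_dvd (abs_pos.2 h7)
          exact (dvd_abs _ _).2 h6
        have h9 : ((a : ℤ) : ℝ) ≤ ((|p.1 - p'.1| : ℤ) : ℝ) := by exact_mod_cast h8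
        push_cast at h9
        exact h9)
    refine h3.trans ?_
    have e : (s : ℝ) - (s : ℝ) * ((t' : ℝ) / M) + 1 / 4 - (-((s : ℝ) * ((t' : ℝ) / M)) - 1 / 4) = s + 1 / 2 := by ring
    rw [e]
    have e2 : (s : ℝ) = g * a := by exact_mod_cast ha
    have ha1 : (1 : ℝ) ≤ a := by exact_mod_cast ha0
    have e3 : ((s : ℝ) + 1 / 2) / a ≤ g + 1 / 2 := by
      rw [div_le_iff₀ ha0r, e2]
      nlinarith
    linarith
  -- the values of `k`
  have h3 : (((V.image φ).image k).card : ℝ) ≤ 16 * (Q * T / P) / g + 1 := by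
    have h4 := spaced ((V.image φ).image k) (fun z => (z : ℝ)) (-(8 * (Q * T / P))) (8 * (Q * T / P)) g hg0r
      (by have : 0 ≤ (Q : ℝ) * T / P := by positivity
          linarith) (by
        intro z hz
        rw [mem_image] at hz
        obtain ⟨p, hp1, rfl⟩ := hz
        rw [mem_image] at hp1
        obtain ⟨t, ht1, rfl⟩ := hp1
        obtain ⟨_, h5, h6⟩ := hV t ht1
        unfold Cl at h5 h6
        obtain ⟨u, hu⟩ : ∃ u, u = ((t : ℝ) - t') / M := ⟨_, rfl⟩
        rw [← hu] at h5 h6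
        have e : ((k (φ t) : ℤ) : ℝ) = s * (s' * u - round ((s' : ℝ) * u)) - s' * (s * u - round ((s : ℝ) * u)) := by
          rw [hkd, hφ]
          simp only
          rw [← hu]
          push_cast
          ring
        have h7 : |((k (φ t) : ℤ) : ℝ)| ≤ 8 * (Q * T / P) := by
          rw [e]
          refine (abs_sub _ _).trans ?_
          rw [abs_mul, abs_mul, Nat.abs_cast, Nat.abs_cast]
          have g1 : (s : ℝ) ≤ 4 * Q := by exact_mod_cast hs.2.le
          have g2 : (s' : ℝ) ≤ 4 * Q := by exact_mod_cast hs'.2.le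
          have g3 : (s : ℝ) * |(s' : ℝ) * u - round ((s' : ℝ) * u)| ≤ (4 * Q) * (T / P) :=
            mul_le_mul g1 h6 (abs_nonneg _) (by positivity)
          have g4 : (s' : ℝ) * |(s : ℝ) * u - round ((s : ℝ) * u)| ≤ (4 * Q) * (T / P) :=
            mul_le_mul g2 h5 (abs_nonneg _) (by positivity)
          have g5 : 8 * (Q * T / P) = (4 * Q) * (T / P) + (4 * Q) * (T / P) := by ring
          rw [g5]
          exact add_le_add g3 g4
        exact abs_le.1 h7) (by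
        intro z hz z' hz' hne
        rw [mem_image] at hz hz'
        obtain ⟨p, _, rfl⟩ := hz
        obtain ⟨p', _, rfl⟩ := hz'
        have hgd : ∀ p, (g : ℤ) ∣ k p := by
          intro p
          rw [hkd]
          simp only
          have d1 : (g : ℤ) ∣ (s' : ℤ) := by exact_mod_cast Dvd.intro b hb.symm
          have d2 : (g : ℤ) ∣ (s : ℤ) := by exact_mod_cast Dvd.intro a ha.symm
          exact dvd_sub (d1.mul_right _) (d2.mul_right _)
        have h8 : (g : ℤ) ≤ |k p - k p'| := by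
          apply Int.le_of_dvd (abs_pos.2 (sub_ne_zero.2 hne))
          exact (dvd_abs _ _).2 (dvd_sub (hgd p) (hgd p'))
        have h9 : ((g : ℤ) : ℝ) ≤ ((|k p - k p'| : ℤ) : ℝ) := by exact_mod_cast h8
        push_cast at h9
        exact h9)
    refine h4.trans (le_of_eq ?_)
    ring
  have hk0 : 0 ≤ 4 * κ * T + 1 := by linarith
  calc (V.card : ℝ) ≤ (V.image φ).card * (4 * κ * T + 1) := h1
    _ ≤ (((V.image φ).image k).card * (3 * g)) * (4 * κ * T + 1) := mul_le_mul_of_nonneg_right h2 hk0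
    _ ≤ ((16 * (Q * T / P) / g + 1) * (3 * g)) * (4 * κ * T + 1) := by
        apply mul_le_mul_of_nonneg_right _ hk0
        exact mul_le_mul_of_nonneg_right h3 (by positivity)
    _ = (48 * (Q * T / P) + 3 * (g : ℝ)) * (4 * κ * T + 1) := by
        field_simp
        ring

open Classical in
theorem deep_case (M N Q P : ℕ) (κ T : ℝ) (hp : Par M N Q P κ T) (Z : Finset ℕ) (hZ : ∀ t ∈ Z, t < M)
    (S : Finset ℕ) (hS : ∀ s ∈ S, Q ≤ s ∧ s < 4 * Q) (X1 G1 E1 : ℝ) (hX10 : 0 < X1)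
    (hX1 : ∀ s ∈ S, X1 ≤ (clp M P s T Z).card) (hdiv : ∀ s ∈ S, (s.divisors.card : ℝ) ≤ E1)
    (hbig : (Z.card : ℝ) * ((48 * (Q * T / P) + 3 * G1) * (4 * κ * T + 1)) ≤ X1 ^ 2 / (2 * (Z.card : ℝ) ^ 2)) :
    ∃ d : ℕ, G1 ≤ d ∧ S.card * X1 ^ 2 ≤ 2 * (Z.card : ℝ) ^ 4 * E1 * (S.filter (fun s => d ∣ s)).card := by
  rcases S.eq_empty_or_nonempty with hSe | hSne
  · subst hSe
    obtain ⟨d, hd⟩ := exists_nat_ge G1
    exact ⟨d, hd, by simp⟩
  have hk := hp.kap
  have hk0 : 0 ≤ 4 * κ * T + 1 := by linarith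
  have hZne : Z.Nonempty := by
    obtain ⟨s, hs⟩ := hSne
    have h1 := hX1 s hs
    rw [nonempty_iff_ne_empty]
    intro h0
    rw [h0] at h1
    unfold clp at h1
    simp at h1
    linarith
  have hZc : (0 : ℝ) < Z.card := by exact_mod_cast hZne.card_pos
  have hSc : (0 : ℝ) < S.card := by exact_mod_cast hSne.card_pos
  have hE0 : 0 ≤ E1 := by
    obtain ⟨s, hs⟩ := hSne
    exact (Nat.cast_nonneg _).trans (hdiv s hs)
  by_contra hcon
  push Not at hcon
  -- the number of the pairs of points close for two members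
  obtain ⟨n, hn⟩ : ∃ n : ℕ → ℕ → ℝ, n = fun s s' => (((Z ×ˢ Z).filter (fun p => Cl M P s T p.1 p.2 ∧ Cl M P s' T p.1 p.2)).card : ℝ) := ⟨_, rfl⟩
  have hn1 : ∀ s s', n s s' ≤ (Z.card : ℝ) ^ 2 := by
    intro s s'
    rw [hn]
    simp only
    have : ((Z ×ˢ Z).filter (fun p => Cl M P s T p.1 p.2 ∧ Cl M P s' T p.1 p.2)).card ≤ Z.card ^ 2 := by
      refine (card_filter_le _ _).trans ?_
      rw [card_product, pow_two]
    exact_mod_cast this
  have hn2 : ∀ s ∈ S, ∀ s' ∈ S, ((Nat.gcd s s' : ℕ) : ℝ) < G1 → n s s' ≤ X1 ^ 2 / (2 * (Z.card : ℝ) ^ 2) := by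
    intro s hs s' hs' hg
    refine le_trans ?_ hbig
    rw [hn]
    simp only
    have hmaps : ∀ p ∈ (Z ×ˢ Z).filter (fun p => Cl M P s T p.1 p.2 ∧ Cl M P s' T p.1 p.2), p.2 ∈ Z := by
      intro p hp1
      rw [mem_filter, mem_product] at hp1
      exact hp1.1.2
    rw [card_eq_sum_card_fiberwise (fun p hp1 => mem_coe.2 (hmaps p hp1))]
    push_cast
    have hf : ∀ t' ∈ Z, ((((Z ×ˢ Z).filter (fun p => Cl M P s T p.1 p.2 ∧ Cl M P s' T p.1 p.2)).filter (fun p => p.2 = t')).card : ℝ) ≤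
        (48 * (Q * T / P) + 3 * G1) * (4 * κ * T + 1) := by
      intro t' ht'
      have h1 : ((((Z ×ˢ Z).filter (fun p => Cl M P s T p.1 p.2 ∧ Cl M P s' T p.1 p.2)).filter (fun p => p.2 = t')).image Prod.fst).card =
          (((Z ×ˢ Z).filter (fun p => Cl M P s T p.1 p.2 ∧ Cl M P s' T p.1 p.2)).filter (fun p => p.2 = t')).card := by
        apply card_image_of_injOn
        intro p hp1 p' hp1' h
        rw [mem_coe, mem_filter] at hp1 hp1'
        exact Prod.ext h (hp1.2.trans hp1'.2.symm)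
      rw [← h1]
      refine (two_close M N Q P κ T hp s s' (hS s hs) (hS s' hs') t' _ ?_).trans ?_
      · intro t ht
        rw [mem_image] at ht
        obtain ⟨p, hp1, rfl⟩ := ht
        rw [mem_filter, mem_filter, mem_product] at hp1
        obtain ⟨⟨⟨a1, a2⟩, a3, a4⟩, a5⟩ := hp1
        rw [a5] at a3 a4
        exact ⟨hZ _ a1, a3, a4⟩
      · apply mul_le_mul_of_nonneg_right _ hk0
        linarith
    refine (sum_le_sum hf).trans ?_
    rw [sum_const, nsmul_eq_mul]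
  -- the number of the pairs of members with a large common divisor
  have hpairs : ∀ s ∈ S, 2 * (Z.card : ℝ) ^ 4 * ((S.filter (fun s' => G1 ≤ ((Nat.gcd s s' : ℕ) : ℝ))).card : ℝ) < S.card * X1 ^ 2 := by
    intro s hs
    have h1 : ((S.filter (fun s' => G1 ≤ ((Nat.gcd s s' : ℕ) : ℝ))).card : ℝ) ≤
        ∑ d ∈ s.divisors.filter (fun d : ℕ => G1 ≤ (d : ℝ)), ((S.filter (fun s' => d ∣ s')).card : ℝ) := by
      have h2 : S.filter (fun s' => G1 ≤ ((Nat.gcd s s' : ℕ) : ℝ)) ⊆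
          (s.divisors.filter (fun d : ℕ => G1 ≤ (d : ℝ))).biUnion (fun d => S.filter (fun s' => d ∣ s')) := by
        intro s' hs'
        rw [mem_filter] at hs'
        rw [mem_biUnion]
        refine ⟨Nat.gcd s s', ?_, ?_⟩
        · rw [mem_filter, Nat.mem_divisors]
          refine ⟨⟨Nat.gcd_dvd_left _ _, ?_⟩, hs'.2⟩
          have := (hS s hs).1
          have := hp.hQ
          omega
        · rw [mem_filter]
          exact ⟨hs'.1, Nat.gcd_dvd_right _ _⟩
      have h3 := (card_le_card h2).trans card_biUnion_le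
      calc ((S.filter (fun s' => G1 ≤ ((Nat.gcd s s' : ℕ) : ℝ))).card : ℝ) ≤
          ((∑ d ∈ s.divisors.filter (fun d : ℕ => G1 ≤ (d : ℝ)), (S.filter (fun s' => d ∣ s')).card : ℕ) : ℝ) := by exact_mod_cast h3
        _ = _ := by push_cast; rfl
    rcases eq_or_lt_of_le hE0 with hE | hE
    · exfalso
      have h2 := hdiv s hs
      rw [← hE] at h2
      have h3 : 0 < s.divisors.card := by
        rw [card_pos]
        refine ⟨1, ?_⟩
        rw [Nat.mem_divisors]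
        have := (hS s hs).1
        have := hp.hQ
        exact ⟨one_dvd _, by omega⟩
      have h4 : (0 : ℝ) < s.divisors.card := by exact_mod_cast h3
      linarith
    have h2 : ∀ d ∈ s.divisors.filter (fun d : ℕ => G1 ≤ (d : ℝ)), ((S.filter (fun s' => d ∣ s')).card : ℝ) <
        S.card * X1 ^ 2 / (2 * (Z.card : ℝ) ^ 4 * E1) := by
      intro d hd
      rw [mem_filter] at hd
      have h3 := hcon d hd.2
      rw [lt_div_iff₀ (by positivity)]
      linarith
    have h3 : ((s.divisors.filter (fun d : ℕ => G1 ≤ (d : ℝ))).card : ℝ) ≤ E1 := by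
      refine le_trans ?_ (hdiv s hs)
      exact_mod_cast card_filter_le _ _
    rcases (s.divisors.filter (fun d : ℕ => G1 ≤ (d : ℝ))).eq_empty_or_nonempty with hF | hF
    · rw [hF, sum_empty] at h1
      have h5 : ((S.filter (fun s' => G1 ≤ ((Nat.gcd s s' : ℕ) : ℝ))).card : ℝ) = 0 := le_antisymm h1 (Nat.cast_nonneg _)
      rw [h5, mul_zero]
      positivity
    have h4 := h1.trans_lt (sum_lt_sum_of_nonempty hF h2)
    rw [sum_const, nsmul_eq_mul] at h4
    calc 2 * (Z.card : ℝ) ^ 4 * ((S.filter (fun s' => G1 ≤ ((Nat.gcd s s' : ℕ) : ℝ))).card : ℝ) <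
          2 * (Z.card : ℝ) ^ 4 * (((s.divisors.filter (fun d : ℕ => G1 ≤ (d : ℝ))).card : ℝ) * (S.card * X1 ^ 2 / (2 * (Z.card : ℝ) ^ 4 * E1))) :=
          mul_lt_mul_of_pos_left h4 (by positivity)
      _ ≤ 2 * (Z.card : ℝ) ^ 4 * (E1 * (S.card * X1 ^ 2 / (2 * (Z.card : ℝ) ^ 4 * E1))) := by
          apply mul_le_mul_of_nonneg_left _ (by positivity)
          exact mul_le_mul_of_nonneg_right h3 (by positivity)
      _ = S.card * X1 ^ 2 := by
          field_simp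
  -- Cauchy-Schwarz
  have h1 : (S.card : ℝ) * X1 ≤ ∑ p ∈ Z ×ˢ Z, ((S.filter (fun s => Cl M P s T p.1 p.2)).card : ℝ) := by
    calc (S.card : ℝ) * X1 = ∑ _s ∈ S, X1 := by rw [sum_const, nsmul_eq_mul]
      _ ≤ ∑ s ∈ S, ((clp M P s T Z).card : ℝ) := sum_le_sum hX1
      _ = _ := by
          unfold clp
          simp only [card_filter, Nat.cast_sum]
          rw [sum_comm]
  have h2 : (∑ p ∈ Z ×ˢ Z, ((S.filter (fun s => Cl M P s T p.1 p.2)).card : ℝ)) ^ 2 ≤
      (Z.card : ℝ) ^ 2 * ∑ p ∈ Z ×ˢ Z, ((S.filter (fun s => Cl M P s T p.1 p.2)).card : ℝ) ^ 2 := by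
    have h3 := sum_mul_sq_le_sq_mul_sq (Z ×ˢ Z) (fun _ => (1 : ℝ)) (fun p => ((S.filter (fun s => Cl M P s T p.1 p.2)).card : ℝ))
    simp only [one_mul, one_pow, sum_const, card_product, nsmul_eq_mul, mul_one] at h3
    push_cast at h3
    rw [← pow_two] at h3
    exact h3
  have h3 : ∑ p ∈ Z ×ˢ Z, ((S.filter (fun s => Cl M P s T p.1 p.2)).card : ℝ) ^ 2 = ∑ s ∈ S, ∑ s' ∈ S, n s s' := by
    have h4 : ∀ p ∈ Z ×ˢ Z, ((S.filter (fun s => Cl M P s T p.1 p.2)).card : ℝ) ^ 2 =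
        ∑ s ∈ S, ∑ s' ∈ S, (if Cl M P s T p.1 p.2 ∧ Cl M P s' T p.1 p.2 then (1 : ℝ) else 0) := by
      intro p _
      rw [pow_two, card_filter]
      push_cast
      rw [sum_mul_sum]
      apply sum_congr rfl
      intro s _
      apply sum_congr rfl
      intro s' _
      by_cases a1 : Cl M P s T p.1 p.2 <;> by_cases a2 : Cl M P s' T p.1 p.2 <;> simp [a1, a2]
    rw [sum_congr rfl h4, sum_comm]
    apply sum_congr rfl
    intro s _
    rw [sum_comm]
    apply sum_congr rfl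
    intro s' _
    rw [hn]
    simp only [card_filter]
    push_cast
    rfl
  have h4 : ∀ s ∈ S, ∑ s' ∈ S, n s s' < S.card * (X1 ^ 2 / (2 * (Z.card : ℝ) ^ 2)) + S.card * (X1 ^ 2 / (2 * (Z.card : ℝ) ^ 2)) := by
    intro s hs
    rw [← sum_filter_add_sum_filter_not S (fun s' => ((Nat.gcd s s' : ℕ) : ℝ) < G1)]
    apply add_lt_add_of_le_of_lt
    · have : ∀ s' ∈ S.filter (fun s' => ((Nat.gcd s s' : ℕ) : ℝ) < G1), n s s' ≤ X1 ^ 2 / (2 * (Z.card : ℝ) ^ 2) := by
        intro s' hs'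
        rw [mem_filter] at hs'
        exact hn2 s hs s' hs'.1 hs'.2
      refine (sum_le_sum this).trans ?_
      rw [sum_const, nsmul_eq_mul]
      apply mul_le_mul_of_nonneg_right _ (by positivity)
      exact_mod_cast card_filter_le _ _
    · have : ∀ s' ∈ S.filter (fun s' => ¬ ((Nat.gcd s s' : ℕ) : ℝ) < G1), n s s' ≤ (Z.card : ℝ) ^ 2 := fun s' _ => hn1 s s'
      refine (sum_le_sum this).trans_lt ?_
      rw [sum_const, nsmul_eq_mul]
      have h5 := hpairs s hs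
      have h6 : S.filter (fun s' => ¬ ((Nat.gcd s s' : ℕ) : ℝ) < G1) = S.filter (fun s' => G1 ≤ ((Nat.gcd s s' : ℕ) : ℝ)) := by
        apply filter_congr
        intro s' _
        rw [not_lt]
      rw [h6]
      have h7 : (S.card : ℝ) * (X1 ^ 2 / (2 * (Z.card : ℝ) ^ 2)) = (S.card * X1 ^ 2) / (2 * (Z.card : ℝ) ^ 2) := by ring
      rw [h7, lt_div_iff₀ (by positivity)]
      calc ((S.filter (fun s' => G1 ≤ ((Nat.gcd s s' : ℕ) : ℝ))).card : ℝ) * (Z.card : ℝ) ^ 2 * (2 * (Z.card : ℝ) ^ 2) =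
            2 * (Z.card : ℝ) ^ 4 * ((S.filter (fun s' => G1 ≤ ((Nat.gcd s s' : ℕ) : ℝ))).card : ℝ) := by ring
        _ < _ := h5
  have h5 := sum_lt_sum_of_nonempty hSne h4
  rw [sum_const, nsmul_eq_mul] at h5
  have h6 : ((S.card : ℝ) * X1) ^ 2 ≤ (Z.card : ℝ) ^ 2 * ∑ s ∈ S, ∑ s' ∈ S, n s s' := by
    rw [← h3]
    exact (pow_le_pow_left₀ (by positivity) h1 2).trans h2
  have h7 : (Z.card : ℝ) ^ 2 * ∑ s ∈ S, ∑ s' ∈ S, n s s' < (Z.card : ℝ) ^ 2 *
      ((S.card : ℝ) * (S.card * (X1 ^ 2 / (2 * (Z.card : ℝ) ^ 2)) + S.card * (X1 ^ 2 / (2 * (Z.card : ℝ) ^ 2)))) :=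
    mul_lt_mul_of_pos_left h5 (by positivity)
  have h8 : (Z.card : ℝ) ^ 2 *
      ((S.card : ℝ) * (S.card * (X1 ^ 2 / (2 * (Z.card : ℝ) ^ 2)) + S.card * (X1 ^ 2 / (2 * (Z.card : ℝ) ^ 2)))) = ((S.card : ℝ) * X1) ^ 2 := by
    field_simp
    ring
  linarith

end Pool.Agent.Y883.T3
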