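import Pool.Agent.Y883.T3.Core3

set_option autoImplicit false

/-! A set of moduli `q ≤ N ^ (2 / 3 - ρ)` with many exceptional multiples has many members with a common
divisor: the final form. -/

namespace Pool.Agent.Y883.T3

open Finset
open Pool.Agent.H807R2.Dav
open Pool.Agent.H373R2.T7 (fz parseval_Icc ev_L' ev_log' lamz)
open Pool.Agent.W93.GB (Good)

theorem core3 (ε : ℝ) (hε : 0 < ε) (A C : ℕ) (η ρ : ℝ) (hη0 : 0 < η) (hη1 : η ≤ 1) (hρ0 : 0 < ρ) :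
    ∃ N₀ : ℕ, ∀ N : ℕ, N₀ ≤ N → ∀ Q : ℕ, 1 ≤ Q → (Q : ℝ) ≤ (N : ℝ) ^ (2 / 3 - ρ) → ∀ R : Finset ℕ,
      R.Nonempty → (∀ q ∈ R, Q ≤ q ∧ q < 2 * Q) →
      (∀ q ∈ R, (N : ℝ) / (q * Real.log N ^ A) < (badm (Good ε) N q).card) →
      ∃ d : ℕ, Real.log N ^ C < d ∧ R.card * (d : ℝ) ^ (-η) ≤ ((R.filter (fun q => d ∣ q)).card : ℝ) := by
  classical
  obtain ⟨θ, hθ⟩ : ∃ θ : ℝ, θ = min (η / 400) (ρ / 2) := ⟨_, rfl⟩
  have hθ0 : 0 < θ := by rw [hθ]; exact lt_min (by positivity) (by positivity)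
  have hθη : θ ≤ η / 400 := by rw [hθ]; exact min_le_left _ _
  have hθρ : θ ≤ ρ / 2 := by rw [hθ]; exact min_le_right _ _
  obtain ⟨U₀, hU₀⟩ := exists_nat_ge ((8 * A + 45 : ℝ) / η)
  obtain ⟨U, hU⟩ : ∃ U, U = 8 * A + 43 + C + U₀ := ⟨_, rfl⟩
  obtain ⟨B, hB⟩ := model U
  obtain ⟨B1, hB1⟩ : ∃ B1, B1 = max B 3 := ⟨_, rfl⟩
  obtain ⟨n1, h1⟩ := hB (B1 + 1)
  obtain ⟨n2, h2⟩ := mom ε hε A (B1 + 1)
  obtain ⟨n3, h3⟩ := ev_L' 100000
  obtain ⟨n4, h4⟩ := ev_log_rpow (40 * A + 200) 1 θ hθ0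
  obtain ⟨C0, hC0, hdivb⟩ := Pool.Agent.Helper112.divisor_bound (θ / 2) (by positivity)
  obtain ⟨n5, h5⟩ := tendsto_pow_log (C0 * 4 ^ (θ / 2)) (θ / 2) (by positivity)
  obtain ⟨n6, h6⟩ := tendsto_pow_log 100 (1 / 1000) (by norm_num)
  obtain ⟨n7, h7⟩ := tendsto_pow_log 8 ρ hρ0
  obtain ⟨n8, h8⟩ := ev_log_rpow (8 * A + 98) 19 (1 / 100) (by norm_num)
  obtain ⟨n9, h9⟩ := ev_log' (2 * A + 4) 2
  obtain ⟨n10, h10⟩ := ev_log_rpow C 2 (1 / 80) (by norm_num)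
  refine ⟨n1 + n2 + n3 + n4 + n5 + n6 + n7 + n8 + n9 + n10 + 16, fun N hN Q hQ hQN R hRne hR hbad => ?_⟩
  have a1 := h1 N (by omega)
  have a2 := h2 N (by omega)
  have a3 := h3 N (by omega)
  have a4 := h4 N (by omega)
  have a5 := h5 N (by omega)
  have a6 := h6 N (by omega)
  have a7 := h7 N (by omega)
  have a8 := h8 N (by omega)
  have a9 := h9 N (by omega)
  have a10 := h10 N (by omega)
  have hN16 : 16 ≤ N := by omega
  have hN1 : 1 ≤ N := by omega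
  have hN0 : (0 : ℝ) < N := by exact_mod_cast hN1
  have hN1r : (1 : ℝ) ≤ N := by exact_mod_cast hN1
  obtain ⟨L, hLd⟩ : ∃ L, L = Real.log (N : ℝ) := ⟨_, rfl⟩
  rw [← hLd] at a1 a2 a3 a4 a8 a9 a10 hbad ⊢
  rw [one_mul] at a4
  have hL0 : 0 < L := by linarith
  have hL1 : 1 ≤ L := by linarith
  obtain ⟨X, hX⟩ : ∃ X : ℝ, X = (N : ℝ) ^ θ := ⟨_, rfl⟩
  rw [← hX] at a4
  have hX1 : 1 ≤ X := (one_le_pow₀ hL1).trans a4
  have hX0 : 0 < X := by linarith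
  have hXk : ∀ k : ℕ, X ^ k = (N : ℝ) ^ (k * θ) := by
    intro k
    rw [hX, ← Real.rpow_natCast, ← Real.rpow_mul hN0.le]
    congr 1
    ring
  -- the parameter `z`
  obtain ⟨z, hz⟩ : ∃ z, z = ⌈L ^ B1⌉₊ := ⟨_, rfl⟩
  have hzlo : L ^ B1 ≤ z := by rw [hz]; exact Nat.le_ceil _
  have hL1B : 1 ≤ L ^ B1 := one_le_pow₀ hL1
  have hzhi : (z : ℝ) ≤ L ^ (B1 + 1) := by
    have := Nat.ceil_lt_add_one (show 0 ≤ L ^ B1 by positivity)
    rw [← hz] at this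
    calc (z : ℝ) ≤ L ^ B1 + 1 := this.le
      _ ≤ L ^ B1 + L ^ B1 := by linarith
      _ = 2 * L ^ B1 := by ring
      _ ≤ L * L ^ B1 := mul_le_mul_of_nonneg_right (by linarith) (by positivity)
      _ = L ^ (B1 + 1) := by ring
  have hzB : L ^ B ≤ z := (pow_le_pow_right₀ hL1 (by rw [hB1]; exact le_max_left _ _)).trans hzlo
  have hz3 : L ^ 3 ≤ z := (pow_le_pow_right₀ hL1 (by rw [hB1]; exact le_max_right _ _)).trans hzlo
  obtain ⟨f, hf1, hf2, hf3, hf4⟩ := a1 z hzB hzhi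
  have hsup : ∀ t, FF f N t ≤ N / L ^ U := fun t => hf3 (-(t : ℝ) / (4 * N : ℕ))
  have hsupN : ∀ t, FF f N t ≤ N := by
    intro t
    refine (hsup t).trans ?_
    exact div_le_self hN0.le (one_le_pow₀ hL1)
  have hrat : ∀ K : ℝ, 1 ≤ K → K ≤ (N : ℝ) ^ (17 / 100 : ℝ) → ∀ t : ℕ, N / K < FF f N t →
      ∃ x : ℚ, (x.den : ℝ) ≤ K ^ 2 * L ^ 18 ∧ |(t : ℝ) / (4 * N : ℕ) - x| ≤ K ^ 2 * L ^ 18 / (x.den * N) := by
    intro K hK1 hK2 t ht
    obtain ⟨x, hx1, hx2⟩ := hf4 K hK1 hK2 (-(t : ℝ) / (4 * N : ℕ)) ht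
    refine ⟨-x, ?_, ?_⟩
    · rw [Rat.neg_den]; exact hx1
    · rw [Rat.neg_den]
      refine le_trans (le_of_eq ?_) hx2
      rw [← abs_neg]
      congr 1
      push_cast
      ring
  -- numerical facts
  have hlog : ((Nat.log 2 N : ℕ) : ℝ) + 1 ≤ L ^ 2 := by
    have e1 : (Nat.log 2 N : ℝ) ≤ Real.logb 2 N := by
      have := Real.natLog_le_logb N 2
      exact_mod_cast this
    have e2 : Real.logb 2 N ≤ 2 * L := by
      rw [Real.logb, ← hLd, div_le_iff₀ (Real.log_pos (by norm_num))]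
      have h2 : (1 : ℝ) ≤ 2 * Real.log 2 := by linarith [Real.log_two_gt_d9]
      calc L = L * 1 := (mul_one L).symm
        _ ≤ L * (2 * Real.log 2) := mul_le_mul_of_nonneg_left h2 hL0.le
        _ = 2 * L * Real.log 2 := by ring
    have e3 : 3 * L ≤ L * L := mul_le_mul_of_nonneg_right (by linarith) hL0.le
    rw [pow_two]
    linarith
  have hQN' : Q ≤ N := by
    have : (Q : ℝ) ≤ (N : ℝ) ^ (1 : ℝ) := hQN.trans (rpow_step _ _ _ hN1r (by linarith))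
    rw [Real.rpow_one] at this
    exact_mod_cast this
  obtain ⟨P, hP⟩ : ∃ P, P = N / Q := ⟨_, rfl⟩
  have hP1 : 1 ≤ P := by rw [hP]; exact Nat.div_pos hQN' (by omega)
  have hMN : P * Q ≤ N := by rw [hP]; exact Nat.div_mul_le_self _ _
  have hNM : N < (P + 1) * Q := by
    rw [hP]
    exact Nat.lt_mul_of_div_lt (Nat.lt_succ_self _) (by omega)
  have hNM2 : N ≤ 2 * P * Q := by
    calc N ≤ (P + 1) * Q := hNM.le
      _ ≤ (2 * P) * Q := Nat.mul_le_mul_right _ (by omega)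
  have hP0 : (0 : ℝ) < P := by exact_mod_cast hP1
  have hQ0 : (0 : ℝ) < Q := by exact_mod_cast hQ
  have hPlow : (N : ℝ) ^ (1 / 3 : ℝ) / 2 ≤ P := by
    have h1 : (Q : ℝ) ≤ (N : ℝ) ^ (2 / 3 : ℝ) := hQN.trans (rpow_step _ _ _ hN1r (by linarith))
    have h2 : (N : ℝ) ^ (1 / 3 : ℝ) * (N : ℝ) ^ (2 / 3 : ℝ) = N := by
      rw [← Real.rpow_add hN0]
      norm_num
    have hNP : (N : ℝ) ≤ 2 * P * Q := by exact_mod_cast hNM2
    have h3 : (N : ℝ) ^ (1 / 3 : ℝ) * (N : ℝ) ^ (2 / 3 : ℝ) ≤ (2 * P) * (N : ℝ) ^ (2 / 3 : ℝ) := by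
      rw [h2]
      exact hNP.trans (mul_le_mul_of_nonneg_left h1 (by positivity))
    have h4 := le_of_mul_le_mul_right h3 (by positivity)
    linarith
  have hTP : 4 * L ^ (8 * A + 44) ≤ P := by
    have e1 : L ^ (8 * A + 44) ≤ L ^ (8 * A + 98) := pow_le_pow_right₀ hL1 (by omega)
    have e2 : (N : ℝ) ^ (1 / 100 : ℝ) ≤ (N : ℝ) ^ (1 / 3 : ℝ) := rpow_step _ _ _ hN1r (by norm_num)
    have e3 : 0 < L ^ (8 * A + 98) := by positivity
    linarith
  have hpar : Par (4 * N) N Q P 4 (L ^ (8 * A + 44)) :=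
    ⟨hQ, hP1, hMN, hNM2, by omega, by push_cast; exact le_rfl, one_le_pow₀ hL1, hTP⟩
  have hdiv : ∀ n : ℕ, 1 ≤ n → n ≤ 4 * N → (n.divisors.card : ℝ) ≤ X := by
    intro n hn1 hn2
    refine (hdivb n hn1).trans ?_
    have e1 : (n : ℝ) ^ (θ / 2) ≤ (4 * N : ℝ) ^ (θ / 2) := by
      apply Real.rpow_le_rpow (Nat.cast_nonneg _) (by exact_mod_cast hn2) (by positivity)
    calc C0 * (n : ℝ) ^ (θ / 2) ≤ C0 * (4 * N : ℝ) ^ (θ / 2) := mul_le_mul_of_nonneg_left e1 hC0.le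
      _ = (C0 * 4 ^ (θ / 2)) * (N : ℝ) ^ (θ / 2) := by rw [Real.mul_rpow (by norm_num) hN0.le]; ring
      _ ≤ (N : ℝ) ^ (θ / 2) * (N : ℝ) ^ (θ / 2) := mul_le_mul_of_nonneg_right a5 (by positivity)
      _ = X := by rw [hX, ← Real.rpow_add hN0]; congr 1; ring
  -- the even moduli
  obtain ⟨S, hS⟩ : ∃ S : Finset ℕ, S = R.image (fun q => Nat.lcm 2 q) := ⟨_, rfl⟩
  have hSinj : Set.InjOn (fun q => Nat.lcm 2 q) (R : Set ℕ) := by
    intro q hq q' hq' h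
    exact lcm_inj Q q q' (hR q hq) (hR q' hq') h
  have hScard : S.card = R.card := by rw [hS]; exact card_image_of_injOn hSinj
  have hSQ : ∀ s ∈ S, Q ≤ s ∧ s < 4 * Q := by
    intro s hs
    rw [hS, mem_image] at hs
    obtain ⟨q, hq, rfl⟩ := hs
    have := hR q hq
    rcases lcm_two_cases q with ⟨h4, h5⟩ | ⟨h4, h5⟩ <;> omega
  have hlvl : ∀ s ∈ S, ∃ j < Nat.log 2 N + 1, 16 ^ j / (6 * L ^ (8 * A + 24)) ≤
      ((clp (4 * N) P s (L ^ (8 * A + 44)) (lev (FF f N) (4 * N) N j)).card : ℝ) := by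
    intro s hs
    rw [hS, mem_image] at hs
    obtain ⟨q, hq, rfl⟩ := hs
    have hm := a2 z hz3 hzhi f (by
      refine hf1.trans ?_
      apply div_le_div_of_nonneg_left hN0.le (by positivity)
      exact pow_le_pow_right₀ hL1 (by omega)) Q q hQ (hR q hq).1 (hR q hq).2 (hbad q hq)
    have := lvl N Q q A L hN1 hQ hQN' (hR q hq) f a3 hf2 hsupN (by push_cast; exact hlog) a9 hm
    rw [← hP] at this
    exact this
  choose! jj hjj using hlvl
  have hSne : S.Nonempty := by rw [hS]; exact hRne.image _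
  have hSc : (0 : ℝ) < S.card := by exact_mod_cast hSne.card_pos
  have hJ0 : (0 : ℝ) < ((Nat.log 2 N + 1 : ℕ) : ℝ) := by positivity
  obtain ⟨j, hjJ, hjc⟩ := exists_le_card_fiber_of_nsmul_le_card_of_maps_to (M := ℝ)
    (b := (S.card : ℝ) / ((Nat.log 2 N + 1 : ℕ) : ℝ)) (s := S) (t := range (Nat.log 2 N + 1)) (f := jj)
    (fun s hs => mem_range.2 (hjj s hs).1) (nonempty_range_iff.2 (by omega)) (by
      rw [card_range, nsmul_eq_mul, mul_div_cancel₀ _ hJ0.ne'])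
  obtain ⟨S2, hS2⟩ : ∃ S2, S2 = S.filter (fun s => jj s = j) := ⟨_, rfl⟩
  rw [← hS2] at hjc
  have hS2c : (R.card : ℝ) ≤ L ^ 2 * S2.card := by
    rw [div_le_iff₀ hJ0] at hjc
    rw [← hScard]
    refine hjc.trans ?_
    rw [mul_comm]
    apply mul_le_mul_of_nonneg_right _ (Nat.cast_nonneg _)
    push_cast
    exact hlog
  have hS2ne : S2.Nonempty := by
    rw [← card_pos]
    have : 0 < (S.card : ℝ) / ((Nat.log 2 N + 1 : ℕ) : ℝ) := by positivity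
    have : (0 : ℝ) < S2.card := lt_of_lt_of_le this hjc
    exact_mod_cast this
  have hyp : Hyp A N Q P j L (lev (FF f N) (4 * N) N j) S2 := by
    refine ⟨hpar, a3, ?_, lev_card N hN1 f L (by linarith) hf2 j, ?_, ?_⟩
    · intro t ht
      unfold lev at ht
      rw [mem_filter, mem_range] at ht
      exact ht.1
    · intro s hs
      rw [hS2, mem_filter] at hs
      exact hSQ s hs.1
    · intro s hs
      rw [hS2, mem_filter] at hs
      have := (hjj s hs.1).2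
      rw [hs.2] at this
      exact this
  have hX4 : X ^ 4 ≤ (N : ℝ) ^ (1 / 100 : ℝ) := by
    rw [hXk 4]
    apply rpow_step _ _ _ hN1r
    push_cast
    linarith
  have hXρ : X ^ 4 ≤ (N : ℝ) ^ (2 * ρ) := by
    rw [hXk 4]
    apply rpow_step _ _ _ hN1r
    push_cast
    linarith
  -- the transfer to `R`
  have htr : ∀ d : ℕ, ((S2.filter (fun s => d ∣ s)).card : ℝ) ≤
      ((R.filter (fun q => (if 2 ∣ d then d / 2 else d) ∣ q)).card : ℝ) := by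
    intro d
    have h6 : S2.filter (fun s => d ∣ s) ⊆ (R.filter (fun q => (if 2 ∣ d then d / 2 else d) ∣ q)).image (fun q => Nat.lcm 2 q) := by
      intro s hs
      rw [mem_filter, hS2, mem_filter, hS, mem_image] at hs
      obtain ⟨⟨⟨q, hq, rfl⟩, _⟩, hds⟩ := hs
      rw [mem_image]
      exact ⟨q, mem_filter.2 ⟨hq, half_dvd d q hds⟩, rfl⟩
    exact_mod_cast (card_le_card h6).trans card_image_le
  have hhalf : ∀ d : ℕ, (d : ℝ) / 2 ≤ ((if 2 ∣ d then d / 2 else d : ℕ) : ℝ) := by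
    intro d
    have : d ≤ 2 * (if 2 ∣ d then d / 2 else d) := by
      split_ifs with h4 <;> omega
    have h2 : (d : ℝ) ≤ 2 * ((if 2 ∣ d then d / 2 else d : ℕ) : ℝ) := by exact_mod_cast this
    linarith
  have hrc : (0 : ℝ) ≤ R.card := Nat.cast_nonneg _
  rcases level_step A N Q P j U L X ((N : ℝ) ^ (1 / 40 : ℝ)) ρ f S2 hyp (by omega) hN1 hρ0 hQN rfl a4 hX4 hXρ
    a6 a7 a8 hdiv hlog hsup hrat hS2ne with ⟨d, hd1, hd2⟩ | ⟨d, hd1, hd2⟩
  · obtain ⟨e, he⟩ : ∃ e, e = (if 2 ∣ d then d / 2 else d) := ⟨_, rfl⟩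
    have h1 := htr d
    have h2 := hhalf d
    rw [← he] at h1 h2
    have h3 : L ^ (U - (8 * A + 42)) < e := by
      have e1 : L ^ (U - (8 * A + 41)) = L ^ (U - (8 * A + 42)) * L := by
        rw [← pow_succ]; congr 1; omega
      rw [e1] at hd1
      have e2 : L ^ (U - (8 * A + 42)) * 2 ≤ L ^ (U - (8 * A + 42)) * L :=
        mul_le_mul_of_nonneg_left (by linarith) (by positivity)
      linarith
    have he0 : (0 : ℝ) < e := lt_trans (by positivity) h3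
    refine ⟨e, ?_, ?_⟩
    · refine lt_of_le_of_lt ?_ h3
      exact pow_le_pow_right₀ hL1 (by omega)
    · have h4 : L ^ (8 * A + 45) ≤ (e : ℝ) ^ η := by
        calc L ^ (8 * A + 45) = L ^ ((8 * A + 45 : ℕ) : ℝ) := (Real.rpow_natCast _ _).symm
          _ ≤ L ^ (((U - (8 * A + 42) : ℕ) : ℝ) * η) := by
              apply Real.rpow_le_rpow_of_exponent_le hL1
              rw [div_le_iff₀ hη0] at hU₀
              have : ((U₀ : ℕ) : ℝ) ≤ ((U - (8 * A + 42) : ℕ) : ℝ) := by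
                have : U₀ ≤ U - (8 * A + 42) := by omega
                exact_mod_cast this
              have e9 : (U₀ : ℝ) * η ≤ ((U - (8 * A + 42) : ℕ) : ℝ) * η := mul_le_mul_of_nonneg_right this hη0.le
              push_cast at hU₀ e9 ⊢
              linarith
          _ = (L ^ (U - (8 * A + 42))) ^ η := by rw [Real.rpow_mul hL0.le, Real.rpow_natCast]
          _ ≤ (e : ℝ) ^ η := Real.rpow_le_rpow (by positivity) h3.le hη0.le
      rw [Real.rpow_neg he0.le, ← div_eq_mul_inv, div_le_iff₀ (Real.rpow_pos_of_pos he0 _)]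
      calc (R.card : ℝ) ≤ L ^ 2 * S2.card := hS2c
        _ ≤ L ^ 2 * (L ^ (8 * A + 43) * (S2.filter (fun s => d ∣ s)).card) := mul_le_mul_of_nonneg_left hd2 (by positivity)
        _ = (S2.filter (fun s => d ∣ s)).card * L ^ (8 * A + 45) := by
            rw [show 8 * A + 45 = 2 + (8 * A + 43) by ring, pow_add]; ring
        _ ≤ (R.filter (fun q => e ∣ q)).card * (e : ℝ) ^ η := mul_le_mul h1 h4 (by positivity) (Nat.cast_nonneg _)
  · obtain ⟨e, he⟩ : ∃ e, e = (if 2 ∣ d then d / 2 else d) := ⟨_, rfl⟩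
    have h1 := htr d
    have h2 := hhalf d
    rw [← he] at h1 h2
    have h3 : (N : ℝ) ^ (1 / 80 : ℝ) ≤ e := by
      have e1 : (N : ℝ) ^ (1 / 40 : ℝ) = (N : ℝ) ^ (1 / 80 : ℝ) * (N : ℝ) ^ (1 / 80 : ℝ) := by
        rw [← Real.rpow_add hN0]; norm_num
      have e2 : (N : ℝ) ^ (1 / 1000 : ℝ) ≤ (N : ℝ) ^ (1 / 80 : ℝ) := rpow_step _ _ _ hN1r (by norm_num)
      have e3 : 0 < (N : ℝ) ^ (1 / 80 : ℝ) := by positivity
      rw [e1] at hd1
      have e4 : (N : ℝ) ^ (1 / 80 : ℝ) * 2 ≤ (N : ℝ) ^ (1 / 80 : ℝ) * (N : ℝ) ^ (1 / 80 : ℝ) :=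
        mul_le_mul_of_nonneg_left (by linarith) e3.le
      linarith
    have he0 : (0 : ℝ) < e := lt_of_lt_of_le (by positivity) h3
    refine ⟨e, ?_, ?_⟩
    · refine lt_of_lt_of_le ?_ h3
      have : 0 < L ^ C := by positivity
      linarith
    · have h4 : X ^ 5 ≤ (e : ℝ) ^ η := by
        calc X ^ 5 = (N : ℝ) ^ (((5 : ℕ) : ℝ) * θ) := hXk 5
          _ ≤ (N : ℝ) ^ ((1 / 80 : ℝ) * η) := by
              apply rpow_step _ _ _ hN1r
              push_cast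
              linarith
          _ = ((N : ℝ) ^ (1 / 80 : ℝ)) ^ η := Real.rpow_mul hN0.le _ _
          _ ≤ (e : ℝ) ^ η := Real.rpow_le_rpow (by positivity) h3 hη0.le
      have h5 : L ^ 2 ≤ X := (pow_le_pow_right₀ hL1 (by omega)).trans a4
      rw [Real.rpow_neg he0.le, ← div_eq_mul_inv, div_le_iff₀ (Real.rpow_pos_of_pos he0 _)]
      calc (R.card : ℝ) ≤ L ^ 2 * S2.card := hS2c
        _ ≤ X * (X ^ 4 * (S2.filter (fun s => d ∣ s)).card) :=
            mul_le_mul h5 hd2 (Nat.cast_nonneg _) hX0.le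
        _ = (S2.filter (fun s => d ∣ s)).card * X ^ 5 := by ring
        _ ≤ (R.filter (fun q => e ∣ q)).card * (e : ℝ) ^ η := mul_le_mul h1 h4 (by positivity) (Nat.cast_nonneg _)

end Pool.Agent.Y883.T3
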