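import Pool.Agent.Y883.T3.Deep

set_option autoImplicit false

/-! Close pairs of points and common divisors: the case of an intermediate number of points. -/

namespace Pool.Agent.Y883.T3

open Finset

lemma class_card (M N Q P : ℕ) (κ T R0 : ℝ) (hp : Par M N Q P κ T) (hR0 : 1 ≤ R0) (s : ℕ)
    (hs : Q ≤ s ∧ s < 4 * Q) (t' : ℕ) (C : Finset ℕ) (x : ℕ → ℚ) (g l : ℕ)
    (hC : ∀ t ∈ C, t < M ∧ Cl M P s T t t' ∧ ((x t).den : ℝ) ≤ R0 ∧
      |(t : ℝ) / M - x t| ≤ R0 / ((x t).den * N) ∧ Nat.gcd s (x t).den = g ∧ Nat.log 2 ((x t).den / g) = l) :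
    (C.card : ℝ) ≤ (3 * g + 120 * (T * R0 ^ 2 / P)) * (4 * κ * T + 1) := by
  classical
  have hP0 : (0 : ℝ) < P := by exact_mod_cast hp.hP
  have hQ0 : (0 : ℝ) < Q := by exact_mod_cast hp.hQ
  have hN1 : 1 ≤ N := by have := hp.hPQ; have := Nat.mul_pos hp.hP hp.hQ; omega
  have hM1 : 1 ≤ M := hN1.trans hp.hNM
  have hM0 : (0 : ℝ) < M := by exact_mod_cast hM1
  have hT1 := hp.hT
  have hT0 : 0 < T := by linarith
  have hk := hp.kap
  have hk0 : 0 ≤ 4 * κ * T + 1 := by linarith
  have hTP := hp.TP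
  have hs0 : 0 < s := by have := hp.hQ; omega
  have hs0r : (0 : ℝ) < s := by exact_mod_cast hs0
  rcases C.eq_empty_or_nonempty with hCe | hCne
  · subst hCe
    simp only [card_empty, Nat.cast_zero]
    positivity
  -- the data of one member
  have hmem : ∀ t ∈ C, ∃ r' : ℕ, (x t).den = g * r' ∧ 2 ^ l ≤ r' ∧ r' < 2 ^ (l + 1) ∧ Nat.Coprime (s / g) r' := by
    intro t ht
    obtain ⟨_, _, _, _, h5, h6⟩ := hC t ht
    have hden := (x t).den_pos
    have hg0 : 0 < g := by rw [← h5]; exact Nat.gcd_pos_of_pos_left _ hs0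
    have hgd : g ∣ (x t).den := by rw [← h5]; exact Nat.gcd_dvd_right _ _
    refine ⟨(x t).den / g, (Nat.mul_div_cancel' hgd).symm, ?_, ?_, ?_⟩
    · rw [← h6]
      apply Nat.pow_log_le_self
      have := Nat.div_pos (Nat.le_of_dvd hden hgd) hg0
      omega
    · rw [← h6]
      exact Nat.lt_pow_succ_log_self (by norm_num) _
    · have h7 := Nat.coprime_div_gcd_div_gcd (show 0 < Nat.gcd s (x t).den by rw [h5]; exact hg0)
      rw [h5] at h7
      exact h7
  obtain ⟨t0, ht0⟩ := hCne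
  have hg0 : 0 < g := by
    rw [← (hC t0 ht0).2.2.2.2.1]
    exact Nat.gcd_pos_of_pos_left _ hs0
  have hg0r : (0 : ℝ) < g := by exact_mod_cast hg0
  have hg1r : (1 : ℝ) ≤ g := by exact_mod_cast hg0
  have hgs : g ∣ s := by rw [← (hC t0 ht0).2.2.2.2.1]; exact Nat.gcd_dvd_left _ _
  obtain ⟨a, ha⟩ := hgs
  have ha2 : s / g = a := by rw [ha]; exact Nat.mul_div_cancel_left a hg0
  have ha0 : 0 < a := by
    rcases Nat.eq_zero_or_pos a with h | h
    · rw [h, mul_zero] at ha; omega
    · exact h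
  have ha0r : (0 : ℝ) < a := by exact_mod_cast ha0
  have ha1r : (1 : ℝ) ≤ a := by exact_mod_cast ha0
  have hgl : (g : ℝ) * 2 ^ l ≤ R0 := by
    obtain ⟨r', h1, h2, h3, _⟩ := hmem t0 ht0
    have h4 := (hC t0 ht0).2.2.1
    rw [h1] at h4
    push_cast at h4
    have h5 : ((2 : ℝ) ^ l) ≤ r' := by exact_mod_cast h2
    nlinarith
  obtain ⟨φ, hφ⟩ : ∃ φ : ℕ → ℚ × ℤ, φ = fun t : ℕ => ((s : ℚ) * x t - round ((s : ℝ) * (((t : ℝ) - t') / M)),
    round ((s : ℝ) * (((t : ℝ) - t') / M))) := ⟨_, rfl⟩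
  have h1 : (C.card : ℝ) ≤ (C.image φ).card * (4 * κ * T + 1) := by
    apply card_le_image
    intro y hy
    apply hp.near s hs.1 _ ((s : ℝ) * ((t' : ℝ) / M) + y.2)
    intro t ht
    rw [mem_filter] at ht
    obtain ⟨ht1, ht2⟩ := ht
    have h2 := (hC t ht1).2.1
    unfold Cl at h2
    rw [hφ] at ht2
    have h3 : round ((s : ℝ) * (((t : ℝ) - t') / M)) = y.2 := congrArg Prod.snd ht2
    rw [h3] at h2
    have e : (s : ℝ) * ((t : ℝ) / M) - (s * ((t' : ℝ) / M) + y.2) = s * (((t : ℝ) - t') / M) - y.2 := by ring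
    rw [e]
    exact h2
  -- the fibres over the first component
  have h2 : ((C.image φ).card : ℝ) ≤ ((C.image φ).image Prod.fst).card * (3 * g) := by
    apply card_le_image
    intro y hy
    have h3 := spaced ((C.image φ).filter (fun p => Prod.fst p = y)) (fun p => (p.2 : ℝ))
      (-((s : ℝ) * ((t' : ℝ) / M)) - 1 / 4) (s - (s : ℝ) * ((t' : ℝ) / M) + 1 / 4) a ha0r (by linarith) (by
        intro p hp1
        rw [mem_filter, mem_image] at hp1
        obtain ⟨⟨t, ht1, ht2⟩, _⟩ := hp1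
        have h4 := round_range M P s T hM1 hTP t t' (hC t ht1).1 (hC t ht1).2.1
        rw [← ht2, hφ]
        exact h4) (by
        intro p hp1 p' hp1' hne
        rw [mem_filter, mem_image] at hp1 hp1'
        obtain ⟨⟨t, ht1, ht2⟩, ht3⟩ := hp1
        obtain ⟨⟨u, hu1, hu2⟩, hu3⟩ := hp1'
        obtain ⟨r, a1, a2, a3, a4⟩ := hmem t ht1
        obtain ⟨r', b1, b2, b3, b4⟩ := hmem u hu1
        have e1 : (s : ℚ) * x t - p.2 = y := by
          rw [← ht3, ← ht2, hφ]
        have e2 : (s : ℚ) * x u - p'.2 = y := by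
          rw [← hu3, ← hu2, hφ]
        have e3 : (x t) * (x t).den = (x t).num := Rat.mul_den_eq_num _
        have e4 : (x u) * (x u).den = (x u).num := Rat.mul_den_eq_num _
        rw [a1] at e3
        rw [b1] at e4
        push_cast at e3 e4
        have e5 : (p.2 - p'.2) * ((r : ℤ) * r') = (a : ℤ) * ((x t).num * r' - (x u).num * r) := by
          have e6 : ((p.2 : ℚ) - p'.2) * ((r : ℚ) * r') = (a : ℚ) * ((x t).num * r' - (x u).num * r) := by
            rw [← e3, ← e4]
            have e7 : (s : ℚ) = g * a := by exact_mod_cast ha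
            rw [e7] at e1 e2
            linear_combination (-(r : ℚ) * r') * e1 + (r : ℚ) * r' * e2
          exact_mod_cast e6
        have h6 : (a : ℤ) ∣ p.2 - p'.2 := by
          have h7 : (a : ℤ) ∣ (p.2 - p'.2) * ((r : ℤ) * r') := ⟨_, e5⟩
          have h8 : Nat.Coprime a (r * r') := by
            rw [ha2] at a4 b4
            exact Nat.Coprime.mul_right a4 b4
          have h9 : IsCoprime (a : ℤ) ((r : ℤ) * r') := by
            have := Nat.isCoprime_iff_coprime.2 h8
            push_cast at this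
            exact this
          exact h9.dvd_of_dvd_mul_right h7
        have h7 : p.2 - p'.2 ≠ 0 := by
          intro h0
          apply hne
          refine Prod.ext (ht3.trans hu3.symm) (by omega)
        have h8 : (a : ℤ) ≤ |p.2 - p'.2| := by
          apply Int.le_of_dvd (abs_pos.2 h7)
          exact (dvd_abs _ _).2 h6
        have h9 : ((a : ℤ) : ℝ) ≤ ((|p.2 - p'.2| : ℤ) : ℝ) := by exact_mod_cast h8
        push_cast at h9
        exact h9)
    refine h3.trans ?_
    have e : (s : ℝ) - (s : ℝ) * ((t' : ℝ) / M) + 1 / 4 - (-((s : ℝ) * ((t' : ℝ) / M)) - 1 / 4) = s + 1 / 2 := by ring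
    rw [e]
    have e2 : (s : ℝ) = g * a := by exact_mod_cast ha
    have e3 : ((s : ℝ) + 1 / 2) / a ≤ g + 1 / 2 := by
      rw [div_le_iff₀ ha0r, e2]
      nlinarith
    linarith
  -- the first components
  obtain ⟨δ, hδ⟩ : ∃ δ : ℝ, δ = T / P + 4 * R0 / (g * 2 ^ l * P) := ⟨_, rfl⟩
  have hδ0 : 0 ≤ δ := by rw [hδ]; positivity
  have h3 : (((C.image φ).image Prod.fst).card : ℝ) ≤ 2 * δ * 4 ^ (l + 1) + 1 := by
    have h4 := spaced ((C.image φ).image Prod.fst) (fun v : ℚ => (v : ℝ)) ((s : ℝ) * ((t' : ℝ) / M) - δ)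
      ((s : ℝ) * ((t' : ℝ) / M) + δ) (1 / 4 ^ (l + 1)) (by positivity) (by linarith) (by
        intro v hv
        rw [mem_image] at hv
        obtain ⟨p, hp1, rfl⟩ := hv
        rw [mem_image] at hp1
        obtain ⟨t, ht1, rfl⟩ := hp1
        obtain ⟨r, a1, a2, a3, a4⟩ := hmem t ht1
        obtain ⟨c1, c2, c3, c4, c5, c6⟩ := hC t ht1
        have hden : (0 : ℝ) < (x t).den := by exact_mod_cast (x t).den_pos
        have h5 := hp.err s hs.2 (x t).den R0 _ hden (by linarith) c4
        have h6 : 4 * R0 / ((x t).den * P) ≤ 4 * R0 / (g * 2 ^ l * P) := by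
          apply div_le_div_of_nonneg_left (by positivity) (by positivity)
          apply mul_le_mul_of_nonneg_right _ hP0.le
          rw [a1]
          push_cast
          apply mul_le_mul_of_nonneg_left _ hg0r.le
          exact_mod_cast a2
        unfold Cl at c2
        have e : (((φ t).1 : ℚ) : ℝ) - (s : ℝ) * ((t' : ℝ) / M) =
            ((s : ℝ) * (((t : ℝ) - t') / M) - round ((s : ℝ) * (((t : ℝ) - t') / M))) - s * ((t : ℝ) / M - x t) := by
          rw [hφ]
          push_cast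
          ring
        have h7 : |(((φ t).1 : ℚ) : ℝ) - (s : ℝ) * ((t' : ℝ) / M)| ≤ δ := by
          rw [e, hδ]
          refine (abs_sub _ _).trans ?_
          linarith
        have h8 := abs_le.1 h7
        constructor <;> linarith) (by
        intro v hv v' hv' hne
        have hden : ∀ v ∈ (C.image φ).image Prod.fst, v.den < 2 ^ (l + 1) := by
          intro v hv
          rw [mem_image] at hv
          obtain ⟨p, hp1, rfl⟩ := hv
          rw [mem_image] at hp1
          obtain ⟨t, ht1, rfl⟩ := hp1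
          obtain ⟨r, a1, a2, a3, a4⟩ := hmem t ht1
          refine lt_of_le_of_lt ?_ a3
          have hr0 : 0 < r := lt_of_lt_of_le (by positivity) a2
          apply Nat.le_of_dvd hr0
          apply den_dvd_of_mul _ _ ((a : ℤ) * (x t).num - round ((s : ℝ) * (((t : ℝ) - t') / M)) * r) _ hr0
          rw [hφ]
          push_cast
          have e3 : (x t) * (x t).den = (x t).num := Rat.mul_den_eq_num _
          rw [a1] at e3
          push_cast at e3
          have e7 : (s : ℚ) = g * a := by exact_mod_cast ha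
          rw [← e3, e7]
          ring
        have h5 := hden v hv
        have h6 := hden v' hv'
        by_contra hc
        rw [not_le] at hc
        apply hne
        have h7 : v - v' = 0 := by
          apply rat_small (v - v') (4 ^ (l + 1))
          · have h8 : (v - v').den ∣ v.den * v'.den := by
              apply den_dvd_of_mul _ _ (v.num * v'.den - v'.num * v.den)
              · push_cast
                have e1 : (v.num : ℚ) = v * v.den := (Rat.mul_den_eq_num v).symm
                have e2 : (v'.num : ℚ) = v' * v'.den := (Rat.mul_den_eq_num v').symm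
                rw [e1, e2]
                ring
              · exact Nat.mul_pos v.den_pos v'.den_pos
            have h9 := Nat.le_of_dvd (Nat.mul_pos v.den_pos v'.den_pos) h8
            have h10 : (v - v').den ≤ 4 ^ (l + 1) := by
              refine h9.trans ?_
              calc v.den * v'.den ≤ 2 ^ (l + 1) * 2 ^ (l + 1) := Nat.mul_le_mul h5.le h6.le
                _ = 4 ^ (l + 1) := by rw [← mul_pow]; norm_num
            exact_mod_cast h10
          · push_cast
            rw [lt_div_iff₀ (by positivity)] at hc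
            exact hc
        linarith)
    refine h4.trans (le_of_eq ?_)
    field_simp
    ring
  calc (C.card : ℝ) ≤ (C.image φ).card * (4 * κ * T + 1) := h1
    _ ≤ (((C.image φ).image Prod.fst).card * (3 * g)) * (4 * κ * T + 1) := mul_le_mul_of_nonneg_right h2 hk0
    _ ≤ ((2 * δ * 4 ^ (l + 1) + 1) * (3 * g)) * (4 * κ * T + 1) := by
        apply mul_le_mul_of_nonneg_right _ hk0
        exact mul_le_mul_of_nonneg_right h3 (by positivity)
    _ ≤ (3 * g + 120 * (T * R0 ^ 2 / P)) * (4 * κ * T + 1) := by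
        apply mul_le_mul_of_nonneg_right _ hk0
        have e1 : (2 * δ * 4 ^ (l + 1) + 1) * (3 * g) = 3 * g + 24 * ((g * 2 ^ l * 2 ^ l) * T / P) + 96 * (2 ^ l * R0 / P) := by
          rw [hδ, pow_succ]
          have : (4 : ℝ) ^ l = 2 ^ l * 2 ^ l := by rw [← mul_pow]; norm_num
          rw [this]
          field_simp
          ring
        rw [e1]
        have hl1 : (1 : ℝ) ≤ 2 ^ l := one_le_pow₀ (by norm_num)
        have hl2 : (2 : ℝ) ^ l ≤ R0 := by nlinarith
        have h5 : (g * 2 ^ l * 2 ^ l) * T / P ≤ T * R0 ^ 2 / P := by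
          apply div_le_div_of_nonneg_right _ hP0.le
          calc (g : ℝ) * 2 ^ l * 2 ^ l * T ≤ R0 * R0 * T := by
                apply mul_le_mul_of_nonneg_right _ hT0.le
                exact mul_le_mul hgl hl2 (by positivity) (by positivity)
            _ = T * R0 ^ 2 := by ring
        have h6 : 2 ^ l * R0 / P ≤ T * R0 ^ 2 / P := by
          apply div_le_div_of_nonneg_right _ hP0.le
          calc 2 ^ l * R0 ≤ R0 * R0 := mul_le_mul_of_nonneg_right hl2 (by positivity)
            _ = 1 * R0 ^ 2 := by ring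
            _ ≤ T * R0 ^ 2 := mul_le_mul_of_nonneg_right hT1 (by positivity)
        linarith

open Classical in
theorem large_case (M N Q P : ℕ) (κ T R0 : ℝ) (hp : Par M N Q P κ T) (hR0 : 1 ≤ R0) (Z : Finset ℕ)
    (hZ : ∀ t ∈ Z, t < M) (x : ℕ → ℚ)
    (hx : ∀ t ∈ Z, ((x t).den : ℝ) ≤ R0 ∧ |(t : ℝ) / M - x t| ≤ R0 / ((x t).den * N))
    (S : Finset ℕ) (hS : ∀ s ∈ S, Q ≤ s ∧ s < 4 * Q)
    (X1 X3 E1 : ℝ) (hX10 : 0 < X1) (hX30 : 0 < X3) (hX1 : ∀ s ∈ S, X1 ≤ (clp M P s T Z).card)
    (hdiv : ∀ n : ℕ, 1 ≤ n → ((n < 4 * Q) ∨ (n : ℝ) ≤ R0) → (n.divisors.card : ℝ) ≤ E1)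
    (hX3 : X3 * (E1 * (Nat.log 2 ⌊R0⌋₊ + 1)) * Z.card ≤ X1)
    (hsm : 120 * (T * R0 ^ 2 / P) * (4 * κ * T + 1) ≤ X3 / 2) :
    ∃ d : ℕ, X3 ≤ 6 * (4 * κ * T + 1) * d ∧ S.card * X3 ≤ Z.card * E1 * (S.filter (fun s => d ∣ s)).card := by
  have hk := hp.kap
  have hk0 : 0 < 4 * κ * T + 1 := by linarith
  have hQ1 := hp.hQ
  have hE1 : 1 ≤ E1 := by
    have := hdiv 1 le_rfl (Or.inl (by omega))
    simpa using this
  rcases S.eq_empty_or_nonempty with hSe | hSne
  · subst hSe
    obtain ⟨d, hd⟩ := exists_nat_ge (X3 / (6 * (4 * κ * T + 1)))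
    refine ⟨d, ?_, by simp⟩
    rw [div_le_iff₀ (by positivity)] at hd
    linarith
  have hZne : Z.Nonempty := by
    obtain ⟨s, hs⟩ := hSne
    have h1 := hX1 s hs
    rw [nonempty_iff_ne_empty]
    intro h0
    rw [h0] at h1
    unfold clp at h1
    simp at h1
    linarith
  have hZc : (0 : ℝ) < Z.card := by exact_mod_cast hZne.card_pos
  have hSc : (0 : ℝ) < S.card := by exact_mod_cast hSne.card_pos
  -- the divisor belonging to one member of `S`
  have hone : ∀ s ∈ S, ∃ g : ℕ, g ∣ s ∧ X3 ≤ 6 * (4 * κ * T + 1) * g ∧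
      X3 ≤ ((Z.filter (fun t => g ∣ (x t).den)).card : ℝ) := by
    intro s hs
    have hs2 := hS s hs
    have hs0 : 0 < s := by omega
    have h1 := hX1 s hs
    -- a point with many close points
    obtain ⟨t', ht', h2⟩ : ∃ t' ∈ Z, X1 / Z.card ≤ ((Z.filter (fun t => Cl M P s T t t')).card : ℝ) := by
      by_contra hcon
      push Not at hcon
      have h2 : ((clp M P s T Z).card : ℝ) = ∑ t' ∈ Z, ((Z.filter (fun t => Cl M P s T t t')).card : ℝ) := by
        unfold clp
        simp only [card_filter, Nat.cast_sum]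
        rw [sum_product, sum_comm]
      have h3 := sum_lt_sum_of_nonempty hZne hcon
      rw [sum_const, nsmul_eq_mul, mul_div_cancel₀ _ hZc.ne'] at h3
      linarith
    obtain ⟨Z2, hZ2⟩ : ∃ Z2, Z2 = Z.filter (fun t => Cl M P s T t t') := ⟨_, rfl⟩
    rw [← hZ2] at h2
    obtain ⟨F, hF⟩ : ∃ F : Finset (ℕ × ℕ), F = s.divisors ×ˢ range (Nat.log 2 ⌊R0⌋₊ + 1) := ⟨_, rfl⟩
    have hFc : (F.card : ℝ) ≤ E1 * (Nat.log 2 ⌊R0⌋₊ + 1) := by
      rw [hF, card_product, card_range]
      push_cast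
      apply mul_le_mul_of_nonneg_right _ (by positivity)
      exact hdiv s hs0 (Or.inl hs2.2)
    have hmaps : ∀ t ∈ Z2, ((Nat.gcd s (x t).den, Nat.log 2 ((x t).den / Nat.gcd s (x t).den)) : ℕ × ℕ) ∈ F := by
      intro t ht
      rw [hZ2, mem_filter] at ht
      rw [hF, mem_product]
      refine ⟨?_, ?_⟩
      · rw [Nat.mem_divisors]
        exact ⟨Nat.gcd_dvd_left _ _, hs0.ne'⟩
      · rw [mem_range, Nat.lt_succ_iff]
        have h9 : (x t).den / Nat.gcd s (x t).den ≤ ⌊R0⌋₊ := by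
          refine (Nat.div_le_self _ _).trans ?_
          exact Nat.le_floor (hx t ht.1).1
        have h10 := Nat.log_mono_right (b := 2) h9
        simp only
        exact h10
    have hFne : F.Nonempty := by
      rw [hF]
      apply Nonempty.product
      · rw [Nat.nonempty_divisors]; exact hs0.ne'
      · exact nonempty_range_iff.2 (by omega)
    obtain ⟨y, hyF, hy⟩ := exists_le_card_fiber_of_nsmul_le_card_of_maps_to (M := ℝ) (b := X3) hmaps hFne (by
      rw [nsmul_eq_mul]
      refine le_trans ?_ h2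
      rw [le_div_iff₀ hZc]
      refine le_trans ?_ hX3
      apply mul_le_mul_of_nonneg_right _ hZc.le
      rw [mul_comm]
      exact mul_le_mul_of_nonneg_left hFc hX30.le)
    obtain ⟨C, hC⟩ : ∃ C, C = Z2.filter (fun t => ((Nat.gcd s (x t).den, Nat.log 2 ((x t).den / Nat.gcd s (x t).den)) : ℕ × ℕ) = y) := ⟨_, rfl⟩
    rw [← hC] at hy
    have hCm : ∀ t ∈ C, t ∈ Z ∧ Cl M P s T t t' ∧ Nat.gcd s (x t).den = y.1 ∧ Nat.log 2 ((x t).den / y.1) = y.2 := by
      intro t ht
      rw [hC, mem_filter, hZ2, mem_filter] at ht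
      obtain ⟨⟨a1, a2⟩, a3⟩ := ht
      have a4 : Nat.gcd s (x t).den = y.1 := by rw [← a3]
      have a5 : Nat.log 2 ((x t).den / Nat.gcd s (x t).den) = y.2 := by rw [← a3]
      rw [a4] at a5
      exact ⟨a1, a2, a4, a5⟩
    have h5 := class_card M N Q P κ T R0 hp hR0 s hs2 t' C x y.1 y.2 (fun t ht => by
      obtain ⟨a1, a2, a3, a4⟩ := hCm t ht
      exact ⟨hZ t a1, a2, (hx t a1).1, (hx t a1).2, a3, a4⟩)
    refine ⟨y.1, ?_, ?_, ?_⟩
    · rw [hF, mem_product, Nat.mem_divisors] at hyF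
      exact hyF.1.1
    · have h6 : (3 * (y.1 : ℝ) + 120 * (T * R0 ^ 2 / P)) * (4 * κ * T + 1) = 3 * y.1 * (4 * κ * T + 1) + 120 * (T * R0 ^ 2 / P) * (4 * κ * T + 1) := by ring
      rw [h6] at h5
      linarith
    · refine hy.trans ?_
      have h6 : C ⊆ Z.filter (fun t => y.1 ∣ (x t).den) := by
        intro t ht
        obtain ⟨a1, a2, a3, a4⟩ := hCm t ht
        rw [mem_filter]
        refine ⟨a1, ?_⟩
        rw [← a3]
        exact Nat.gcd_dvd_right _ _
      exact_mod_cast card_le_card h6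
  by_contra hcon
  push Not at hcon
  choose! g hg using hone
  have h1 : (S.card : ℝ) * X3 ≤ ∑ s ∈ S, ((Z.filter (fun t => g s ∣ (x t).den)).card : ℝ) := by
    calc (S.card : ℝ) * X3 = ∑ _s ∈ S, X3 := by rw [sum_const, nsmul_eq_mul]
      _ ≤ _ := sum_le_sum fun s hs => (hg s hs).2.2
  have h2 : ∑ s ∈ S, ((Z.filter (fun t => g s ∣ (x t).den)).card : ℝ) =
      ∑ t ∈ Z, ((S.filter (fun s => g s ∣ (x t).den)).card : ℝ) := by
    simp only [card_filter, Nat.cast_sum]
    rw [sum_comm]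
  have h3 : ∀ t ∈ Z, ((S.filter (fun s => g s ∣ (x t).den)).card : ℝ) < (S.card : ℝ) * X3 / Z.card := by
    intro t ht
    have hden := (x t).den_pos
    obtain ⟨F, hF⟩ : ∃ F : Finset ℕ, F = (x t).den.divisors.filter (fun d : ℕ => X3 ≤ 6 * (4 * κ * T + 1) * (d : ℝ)) := ⟨_, rfl⟩
    have h4 : S.filter (fun s => g s ∣ (x t).den) ⊆ F.biUnion (fun d => S.filter (fun s => d ∣ s)) := by
      intro s hs
      rw [mem_filter] at hs
      obtain ⟨hs1, hs2⟩ := hs
      obtain ⟨a1, a2, a3⟩ := hg s hs1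
      rw [mem_biUnion]
      refine ⟨g s, ?_, mem_filter.2 ⟨hs1, a1⟩⟩
      rw [hF, mem_filter, Nat.mem_divisors]
      exact ⟨⟨hs2, hden.ne'⟩, a2⟩
    have h5 := (card_le_card h4).trans card_biUnion_le
    have h6 : ((S.filter (fun s => g s ∣ (x t).den)).card : ℝ) ≤ ∑ d ∈ F, ((S.filter (fun s => d ∣ s)).card : ℝ) := by
      calc ((S.filter (fun s => g s ∣ (x t).den)).card : ℝ) ≤ ((∑ d ∈ F, (S.filter (fun s => d ∣ s)).card : ℕ) : ℝ) := by exact_mod_cast h5
        _ = _ := by push_cast; rfl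
    rcases F.eq_empty_or_nonempty with hFe | hFne
    · rw [hFe, sum_empty] at h6
      refine lt_of_le_of_lt h6 (by positivity)
    · have h7 : ∀ d ∈ F, ((S.filter (fun s => d ∣ s)).card : ℝ) < (S.card : ℝ) * X3 / (Z.card * E1) := by
        intro d hd
        rw [hF, mem_filter] at hd
        have h8 := hcon d hd.2
        rw [lt_div_iff₀ (by positivity)]
        linarith
      have h8 := h6.trans_lt (sum_lt_sum_of_nonempty hFne h7)
      rw [sum_const, nsmul_eq_mul] at h8
      have h9 : (F.card : ℝ) ≤ E1 := by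
        refine le_trans ?_ (hdiv (x t).den hden (Or.inr (hx t ht).1))
        rw [hF]
        exact_mod_cast card_filter_le _ _
      calc ((S.filter (fun s => g s ∣ (x t).den)).card : ℝ) < F.card * ((S.card : ℝ) * X3 / (Z.card * E1)) := h8
        _ ≤ E1 * ((S.card : ℝ) * X3 / (Z.card * E1)) := mul_le_mul_of_nonneg_right h9 (by positivity)
        _ = (S.card : ℝ) * X3 / Z.card := by field_simp
  have h4 := sum_lt_sum_of_nonempty hZne h3
  rw [sum_const, nsmul_eq_mul, mul_div_cancel₀ _ hZc.ne'] at h4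
  linarith

end Pool.Agent.Y883.T3
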