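import Pool.Agent.Y883.En

set_option autoImplicit false

/-! Level sets of an exponential sum and the large values of the exponential sums over the multiples
of one integer. -/

namespace Pool.Agent.Y883.T3

open Finset
open Pool.Agent.H807R2.Dav
open Pool.Agent.H373R2.T7 (fz orth triple cs_norm parseval_Icc conj_ee)

/-- the number `s (t - t') / M` is close to an integer -/
def Cl (M P s : ℕ) (T : ℝ) (t t' : ℕ) : Prop :=
  |(s : ℝ) * (((t : ℝ) - t') / M) - round ((s : ℝ) * (((t : ℝ) - t') / M))| ≤ T / P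

open Classical in
/-- the close pairs -/
noncomputable def clp (M P s : ℕ) (T : ℝ) (Z : Finset ℕ) : Finset (ℕ × ℕ) :=
  (Z ×ˢ Z).filter (fun x => Cl M P s T x.1 x.2)

/-- the exponential sum over the multiples -/
noncomputable def CC (M P s : ℕ) (c : ℕ → ℂ) (t : ℕ) : ℂ :=
  ∑ i ∈ Icc 1 P, c i * ee ((t : ℝ) * (((s : ℝ) * i) / M))

lemma CC_le (M P s : ℕ) (c : ℕ → ℂ) (hc : ∀ i, ‖c i‖ ≤ 1) (t : ℕ) : ‖CC M P s c t‖ ≤ P := by
  unfold CC
  refine (norm_sum_le _ _).trans ?_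
  have : ∀ i ∈ Icc 1 P, ‖c i * ee ((t : ℝ) * (((s : ℝ) * i) / M))‖ ≤ 1 := by
    intro i _
    rw [norm_mul, norm_ee, mul_one]
    exact hc i
  refine (sum_le_sum this).trans ?_
  rw [sum_const, Nat.card_Icc, nsmul_eq_mul]
  simp

/-- duality -/
lemma dual (M P s : ℕ) (c : ℕ → ℂ) (hc : ∀ i, ‖c i‖ ≤ 1) (Z : Finset ℕ) :
    (∑ t ∈ Z, ‖CC M P s c t‖ ^ 2) ^ 2 ≤
      (P : ℝ) ^ 3 * ∑ t ∈ Z, ∑ t' ∈ Z, KK P ((s : ℝ) * (((t : ℝ) - t') / M)) := by
  classical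
  obtain ⟨ε, hε⟩ : ∃ ε : ℕ → ℂ, ε = fun t : ℕ => (starRingEnd ℂ) (CC M P s c t) := ⟨_, rfl⟩
  have hε1 : ∀ t, ‖ε t‖ ≤ P := by
    intro t
    rw [hε]
    simp only [RCLike.norm_conj]
    exact CC_le M P s c hc t
  obtain ⟨B, hB⟩ : ∃ B : ℕ → ℂ, B = fun i : ℕ => ∑ t ∈ Z, ε t * ee ((t : ℝ) * (((s : ℝ) * i) / M)) := ⟨_, rfl⟩
  have h1 : (((∑ t ∈ Z, ‖CC M P s c t‖ ^ 2 : ℝ)) : ℂ) = ∑ i ∈ Icc 1 P, c i * B i := by
    have e1 : ∀ t ∈ Z, ((‖CC M P s c t‖ ^ 2 : ℝ) : ℂ) = ∑ i ∈ Icc 1 P, c i * (ε t * ee ((t : ℝ) * (((s : ℝ) * i) / M))) := by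
      intro t _
      have e2 : ((‖CC M P s c t‖ ^ 2 : ℝ) : ℂ) = CC M P s c t * ε t := by
        rw [hε]
        simp only
        rw [Complex.mul_conj']
        push_cast
        rfl
      rw [e2]
      conv_lhs => unfold CC
      rw [sum_mul]
      apply sum_congr rfl
      intro i _
      ring
    rw [Complex.ofReal_sum, sum_congr rfl e1, sum_comm]
    apply sum_congr rfl
    intro i _
    rw [hB, mul_sum]
  have hnn : 0 ≤ ∑ t ∈ Z, ‖CC M P s c t‖ ^ 2 := sum_nonneg fun _ _ => by positivity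
  have h2 : (∑ t ∈ Z, ‖CC M P s c t‖ ^ 2) ^ 2 ≤ P * ∑ i ∈ Icc 1 P, ‖B i‖ ^ 2 := by
    have e1 : (∑ t ∈ Z, ‖CC M P s c t‖ ^ 2) = ‖∑ i ∈ Icc 1 P, c i * B i‖ := by
      rw [← h1, Complex.norm_real, Real.norm_of_nonneg hnn]
    rw [e1]
    refine (cs_norm (Icc 1 P) c B).trans ?_
    apply mul_le_mul_of_nonneg_right _ (sum_nonneg fun _ _ => by positivity)
    have : ∀ i ∈ Icc 1 P, ‖c i‖ ^ 2 ≤ 1 := fun i _ => pow_le_one₀ (norm_nonneg _) (hc i)
    refine (sum_le_sum this).trans ?_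
    rw [sum_const, Nat.card_Icc, nsmul_eq_mul]
    simp
  have h3 : ∑ i ∈ Icc 1 P, ‖B i‖ ^ 2 ≤ (P : ℝ) ^ 2 * ∑ t ∈ Z, ∑ t' ∈ Z, KK P ((s : ℝ) * (((t : ℝ) - t') / M)) := by
    have e1 : (((∑ i ∈ Icc 1 P, ‖B i‖ ^ 2 : ℝ)) : ℂ) =
        ∑ t ∈ Z, ∑ t' ∈ Z, ε t * (starRingEnd ℂ) (ε t') *
          ∑ i ∈ Icc 1 P, ee ((i : ℝ) * ((s : ℝ) * (((t : ℝ) - t') / M))) := by
      have e2 : ∀ i ∈ Icc 1 P, ((‖B i‖ ^ 2 : ℝ) : ℂ) = ∑ t ∈ Z, ∑ t' ∈ Z, ε t * (starRingEnd ℂ) (ε t') *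
          ee ((i : ℝ) * ((s : ℝ) * (((t : ℝ) - t') / M))) := by
        intro i _
        have e3 : ((‖B i‖ ^ 2 : ℝ) : ℂ) = B i * (starRingEnd ℂ) (B i) := by
          rw [Complex.mul_conj']
          push_cast
          rfl
        rw [e3, hB]
        simp only
        rw [map_sum, sum_mul_sum]
        apply sum_congr rfl
        intro t _
        apply sum_congr rfl
        intro t' _
        rw [map_mul, conj_ee]
        have e4 : ee ((i : ℝ) * ((s : ℝ) * (((t : ℝ) - t') / M))) =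
            ee ((t : ℝ) * (((s : ℝ) * i) / M)) * ee (-((t' : ℝ) * (((s : ℝ) * i) / M))) := by
          rw [← ee_add]
          congr 1
          ring
        rw [e4]
        ring
      rw [Complex.ofReal_sum, sum_congr rfl e2, sum_comm]
      apply sum_congr rfl
      intro t _
      rw [sum_comm]
      apply sum_congr rfl
      intro t' _
      rw [mul_sum]
    have hnn2 : 0 ≤ ∑ i ∈ Icc 1 P, ‖B i‖ ^ 2 := sum_nonneg fun _ _ => by positivity
    have e2 : ∑ i ∈ Icc 1 P, ‖B i‖ ^ 2 = ‖∑ t ∈ Z, ∑ t' ∈ Z, ε t * (starRingEnd ℂ) (ε t') *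
          ∑ i ∈ Icc 1 P, ee ((i : ℝ) * ((s : ℝ) * (((t : ℝ) - t') / M)))‖ := by
      rw [← e1, Complex.norm_real, Real.norm_of_nonneg hnn2]
    rw [e2, mul_sum]
    refine (norm_sum_le _ _).trans (sum_le_sum fun t _ => ?_)
    rw [mul_sum]
    refine (norm_sum_le _ _).trans (sum_le_sum fun t' _ => ?_)
    rw [norm_mul, norm_mul, RCLike.norm_conj]
    have e3 : ‖∑ i ∈ Icc 1 P, ee ((i : ℝ) * ((s : ℝ) * (((t : ℝ) - t') / M)))‖ ≤
        KK P ((s : ℝ) * (((t : ℝ) - t') / M)) := by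
      have h8 : Icc 1 P = Ico 1 (P + 1) := by ext x; rw [mem_Icc, mem_Ico]; omega
      rw [h8]
      apply geo_bound _ _ (by omega)
      push_cast
      linarith
    have e4 : ‖ε t‖ * ‖ε t'‖ ≤ (P : ℝ) ^ 2 := by
      rw [pow_two]
      exact mul_le_mul (hε1 t) (hε1 t') (norm_nonneg _) (Nat.cast_nonneg _)
    exact mul_le_mul e4 e3 (norm_nonneg _) (by positivity)
  calc (∑ t ∈ Z, ‖CC M P s c t‖ ^ 2) ^ 2 ≤ P * ∑ i ∈ Icc 1 P, ‖B i‖ ^ 2 := h2
    _ ≤ P * ((P : ℝ) ^ 2 * ∑ t ∈ Z, ∑ t' ∈ Z, KK P ((s : ℝ) * (((t : ℝ) - t') / M))) :=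
        mul_le_mul_of_nonneg_left h3 (Nat.cast_nonneg _)
    _ = _ := by ring

/-- many close pairs -/
lemma close_count (M P s : ℕ) (hP : 1 ≤ P) (c : ℕ → ℂ) (hc : ∀ i, ‖c i‖ ≤ 1) (Z : Finset ℕ) (S1 T : ℝ)
    (hS1 : 0 ≤ S1) (hT : 0 < T) (h : (P : ℝ) ^ 2 * S1 ≤ ∑ t ∈ Z, ‖CC M P s c t‖ ^ 2) :
    S1 ^ 2 / 3 - (Z.card : ℝ) ^ 2 / (4 * T) ≤ (clp M P s T Z).card := by
  classical
  have hP0 : (0 : ℝ) < P := by exact_mod_cast hP
  have h1 := dual M P s c hc Z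
  have h2 : ((P : ℝ) ^ 2 * S1) ^ 2 ≤ (∑ t ∈ Z, ‖CC M P s c t‖ ^ 2) ^ 2 := pow_le_pow_left₀ (by positivity) h 2
  have h3 : ∑ t ∈ Z, ∑ t' ∈ Z, KK P ((s : ℝ) * (((t : ℝ) - t') / M)) ≤
      3 * P * (clp M P s T Z).card + (Z.card : ℝ) ^ 2 * (3 * P / (4 * T)) := by
    rw [← sum_product', ← sum_filter_add_sum_filter_not (Z ×ˢ Z) (fun x : ℕ × ℕ => Cl M P s T x.1 x.2)]
    apply add_le_add
    · calc ∑ x ∈ (Z ×ˢ Z).filter (fun x : ℕ × ℕ => Cl M P s T x.1 x.2), KK P ((s : ℝ) * (((x.1 : ℝ) - x.2) / M)) ≤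
            ∑ _x ∈ (Z ×ˢ Z).filter (fun x : ℕ × ℕ => Cl M P s T x.1 x.2), 3 * (P : ℝ) :=
            sum_le_sum fun x _ => KK_le hP0.le _
        _ = 3 * P * (clp M P s T Z).card := by
            rw [sum_const, nsmul_eq_mul]
            unfold clp
            rw [mul_comm]
    · calc ∑ x ∈ (Z ×ˢ Z).filter (fun x : ℕ × ℕ => ¬ Cl M P s T x.1 x.2), KK P ((s : ℝ) * (((x.1 : ℝ) - x.2) / M)) ≤
            ∑ _x ∈ (Z ×ˢ Z).filter (fun x : ℕ × ℕ => ¬ Cl M P s T x.1 x.2), (3 * P / (4 * T)) := by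
            apply sum_le_sum
            intro x hx
            rw [mem_filter] at hx
            have hx2 := hx.2
            unfold Cl at hx2
            rw [not_le] at hx2
            have h4 := dd_round ((s : ℝ) * (((x.1 : ℝ) - x.2) / M))
            have h5 : 4 * (T / P) ≤ dd ((s : ℝ) * (((x.1 : ℝ) - x.2) / M)) := by linarith
            refine (KK_le' hP0.le (by positivity) h5).trans (le_of_eq ?_)
            field_simp
        _ ≤ (Z.card : ℝ) ^ 2 * (3 * P / (4 * T)) := by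
            rw [sum_const, nsmul_eq_mul]
            apply mul_le_mul_of_nonneg_right _ (by positivity)
            have h6 : ((Z ×ˢ Z).filter (fun x : ℕ × ℕ => ¬ Cl M P s T x.1 x.2)).card ≤ Z.card ^ 2 := by
              refine (card_filter_le _ _).trans ?_
              rw [card_product, pow_two]
            exact_mod_cast h6
  have h4 : ((P : ℝ) ^ 2 * S1) ^ 2 ≤ (P : ℝ) ^ 3 * (3 * P * (clp M P s T Z).card + (Z.card : ℝ) ^ 2 * (3 * P / (4 * T))) :=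
    h2.trans (h1.trans (mul_le_mul_of_nonneg_left h3 (by positivity)))
  have h5 : S1 ^ 2 * (P : ℝ) ^ 4 ≤ (3 * (clp M P s T Z).card + (Z.card : ℝ) ^ 2 * (3 / (4 * T))) * (P : ℝ) ^ 4 := by
    calc S1 ^ 2 * (P : ℝ) ^ 4 = ((P : ℝ) ^ 2 * S1) ^ 2 := by ring
      _ ≤ _ := h4
      _ = _ := by ring
  have h6 := le_of_mul_le_mul_right h5 (by positivity)
  have h7 : (Z.card : ℝ) ^ 2 * (3 / (4 * T)) = 3 * ((Z.card : ℝ) ^ 2 / (4 * T)) := by ring
  rw [h7] at h6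
  linarith

lemma sum_biUnion_le' {ι α : Type} [DecidableEq α] (s : Finset ι) (t : ι → Finset α) (f : α → ℝ)
    (hf : ∀ a, 0 ≤ f a) : ∑ a ∈ s.biUnion t, f a ≤ ∑ i ∈ s, ∑ a ∈ t i, f a := by
  classical
  induction s using Finset.induction_on with
  | empty => simp
  | insert i s hi ih =>
    rw [biUnion_insert, sum_insert hi]
    have h1 : 0 ≤ ∑ a ∈ t i ∩ s.biUnion t, f a := sum_nonneg fun a _ => hf a
    have h2 : ∑ a ∈ t i ∪ s.biUnion t, f a + ∑ a ∈ t i ∩ s.biUnion t, f a =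
      ∑ a ∈ t i, f a + ∑ a ∈ s.biUnion t, f a := sum_union_inter
    linarith

/-- the level sets -/
noncomputable def lev (Fv : ℕ → ℝ) (M : ℕ) (H : ℝ) (j : ℕ) : Finset ℕ :=
  (range M).filter (fun t => H / 2 ^ (j + 1) < Fv t ∧ Fv t ≤ H / 2 ^ j)

/-- the Fourier identity -/
lemma four (A H P M : ℕ) (hM1 : 1 ≤ M) (f G c : ℕ → ℂ) (s : ℕ) (c0 : ℤ)
    (hcond : ∀ a ∈ Icc 1 A, ∀ m ∈ Icc 1 P, ∀ n ∈ Icc 1 H, |(a : ℤ) + ((s : ℤ) * m + c0) - n| < M) :
    (M : ℝ) * ‖∑ a ∈ Icc 1 A, ∑ m ∈ Icc 1 P, G a * c m * fz f H (a + ((s : ℤ) * m + c0))‖ ≤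
      ∑ t ∈ range M, ‖∑ n ∈ Icc 1 H, f n * ee ((n : ℝ) * (-(t : ℝ) / M))‖ *
        ‖∑ a ∈ Icc 1 A, G a * ee ((t : ℝ) * ((((1 : ℤ) * a : ℤ) : ℝ) / M))‖ * ‖CC M P s c t‖ := by
  obtain ⟨fh, hfh⟩ : ∃ fh : ℕ → ℂ, fh = fun t : ℕ => ∑ n ∈ Icc 1 H, f n * ee ((t : ℝ) * ((((-1 : ℤ) * n : ℤ) : ℝ) / M)) := ⟨_, rfl⟩
  obtain ⟨Gh, hGh⟩ : ∃ Gh : ℕ → ℂ, Gh = fun t : ℕ => ∑ a ∈ Icc 1 A, G a * ee ((t : ℝ) * ((((1 : ℤ) * a : ℤ) : ℝ) / M)) := ⟨_, rfl⟩
  obtain ⟨Sh, hSh⟩ : ∃ Sh : ℕ → ℂ, Sh = fun t : ℕ => ∑ m ∈ Icc 1 P, c m * ee ((t : ℝ) * ((((s : ℤ) * m + c0 : ℤ) : ℝ) / M)) := ⟨_, rfl⟩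
  have hid : (M : ℂ) * ∑ a ∈ Icc 1 A, ∑ m ∈ Icc 1 P, G a * c m * fz f H (a + ((s : ℤ) * m + c0)) =
      ∑ t ∈ range M, fh t * Gh t * Sh t := by
    have h1 : ∀ t ∈ range M, fh t * Gh t * Sh t = ∑ a ∈ Icc 1 A, ∑ m ∈ Icc 1 P, ∑ n ∈ Icc 1 H,
        G a * c m * f n * ee ((t : ℝ) * ((((a : ℤ) + ((s : ℤ) * m + c0) - n : ℤ) : ℝ) / M)) := by
      intro t _
      rw [hfh, hGh, hSh]
      simp only
      rw [← triple]
      apply sum_congr rfl
      intro a _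
      apply sum_congr rfl
      intro m _
      apply sum_congr rfl
      intro n _
      have h2 : ee ((t : ℝ) * ((((a : ℤ) + ((s : ℤ) * m + c0) - n : ℤ) : ℝ) / M)) =
          ee ((t : ℝ) * ((((1 : ℤ) * a : ℤ) : ℝ) / M)) * ee ((t : ℝ) * ((((-1 : ℤ) * n : ℤ) : ℝ) / M)) *
            ee ((t : ℝ) * ((((s : ℤ) * m + c0 : ℤ) : ℝ) / M)) := by
        rw [← ee_add, ← ee_add]
        congr 1
        push_cast
        ring
      rw [h2]
      ring
    rw [sum_congr rfl h1]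
    symm
    rw [sum_comm, mul_sum]
    apply sum_congr rfl
    intro a ha
    rw [sum_comm, mul_sum]
    apply sum_congr rfl
    intro m hm
    rw [sum_comm]
    have h2 : ∀ n ∈ Icc 1 H, ∑ t ∈ range M, G a * c m * f n * ee ((t : ℝ) * ((((a : ℤ) + ((s : ℤ) * m + c0) - n : ℤ) : ℝ) / M)) =
        if (n : ℤ) = a + ((s : ℤ) * m + c0) then (M : ℂ) * (G a * c m * f n) else 0 := by
      intro n hn
      rw [← mul_sum, orth M hM1]
      by_cases h3 : (n : ℤ) = a + ((s : ℤ) * m + c0)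
      · rw [if_pos h3, if_pos (by rw [h3]; simp)]
        ring
      · rw [if_neg h3, if_neg, mul_zero]
        intro hd
        apply h3
        have := Int.eq_zero_of_abs_lt_dvd hd (hcond a ha m hm n hn)
        omega
    rw [sum_congr rfl h2]
    unfold fz
    by_cases h3 : 1 ≤ (a : ℤ) + ((s : ℤ) * m + c0) ∧ (a : ℤ) + ((s : ℤ) * m + c0) ≤ H
    · rw [if_pos h3, sum_eq_single ((a : ℤ) + ((s : ℤ) * m + c0)).toNat]
      · rw [if_pos (by rw [Int.toNat_of_nonneg (by omega)])]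
      · intro n _ hne
        rw [if_neg]
        intro h4
        apply hne
        omega
      · intro h4
        exfalso
        apply h4
        rw [mem_Icc]
        omega
    · rw [if_neg h3, mul_zero, mul_zero]
      apply sum_eq_zero
      intro n hn
      rw [mem_Icc] at hn
      rw [if_neg]
      omega
  have hM0 : (0 : ℝ) ≤ M := Nat.cast_nonneg _
  have h1 : (M : ℝ) * ‖∑ a ∈ Icc 1 A, ∑ m ∈ Icc 1 P, G a * c m * fz f H (a + ((s : ℤ) * m + c0))‖ =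
      ‖∑ t ∈ range M, fh t * Gh t * Sh t‖ := by
    rw [← hid, norm_mul, Complex.norm_natCast]
  rw [h1]
  refine (norm_sum_le _ _).trans (sum_le_sum fun t _ => ?_)
  rw [norm_mul, norm_mul]
  have e1 : fh t = ∑ n ∈ Icc 1 H, f n * ee ((n : ℝ) * (-(t : ℝ) / M)) := by
    rw [hfh]
    apply sum_congr rfl
    intro n _
    congr 2
    push_cast
    ring
  have e2 : ‖Sh t‖ = ‖CC M P s c t‖ := by
    have e3 : Sh t = ee ((t : ℝ) * ((c0 : ℝ) / M)) * CC M P s c t := by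
      rw [hSh]
      unfold CC
      simp only
      rw [mul_sum]
      apply sum_congr rfl
      intro m _
      have e4 : ee ((t : ℝ) * ((((s : ℤ) * m + c0 : ℤ) : ℝ) / M)) =
          ee ((t : ℝ) * ((c0 : ℝ) / M)) * ee ((t : ℝ) * (((s : ℝ) * m) / M)) := by
        rw [← ee_add]
        congr 1
        push_cast
        ring
      rw [e4]
      ring
    rw [e3, norm_mul, norm_ee, one_mul]
  rw [e1, e2, hGh]

/-- one of the level sets has many close pairs -/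
theorem level_main (A H P M J : ℕ) (hM1 : 1 ≤ M) (hP : 1 ≤ P) (hAM : A ≤ M) (f G : ℕ → ℂ) (s : ℕ) (c0 : ℤ)
    (hcond : ∀ a ∈ Icc 1 A, ∀ m ∈ Icc 1 P, ∀ n ∈ Icc 1 H, |(a : ℤ) + ((s : ℤ) * m + c0) - n| < M)
    (hG : ∀ a, ‖G a‖ ≤ 1) (Fv : ℕ → ℝ) (hFv : ∀ t, Fv t = ‖∑ n ∈ Icc 1 H, f n * ee ((n : ℝ) * (-(t : ℝ) / M))‖)
    (hFH : ∀ t, Fv t ≤ H) (X0 S W1 T : ℝ) (hS : 0 < S) (hT0 : 0 < T)
    (hmom : X0 * P ≤ ∑ m ∈ Icc 1 P, ‖∑ a ∈ Icc 1 A, G a * fz f H (a + ((s : ℤ) * m + c0))‖)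
    (h1 : J * (H * √(M * A * S)) ≤ X0 * M / 2) (h2 : H / 2 ^ J * √A < X0 / 2)
    (hW : ∀ j, ((lev Fv M H j).card : ℝ) ≤ W1 * 4 ^ j) (hT : 3 * W1 ^ 2 ≤ 2 * S ^ 2 * T) :
    ∃ j < J, 16 ^ j * S ^ 2 / 6 ≤ ((clp M P s T (lev Fv M H j)).card : ℝ) := by
  classical
  have hM0 : (0 : ℝ) < M := by exact_mod_cast hM1
  have hP0 : (0 : ℝ) < P := by exact_mod_cast hP
  have hA0 : (0 : ℝ) ≤ A := Nat.cast_nonneg _
  have hH0 : (0 : ℝ) ≤ H := Nat.cast_nonneg _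
  -- the coefficients
  obtain ⟨D, hD⟩ : ∃ D : ℕ → ℂ, D = fun m : ℕ => ∑ a ∈ Icc 1 A, G a * fz f H (a + ((s : ℤ) * m + c0)) := ⟨_, rfl⟩
  obtain ⟨c, hc⟩ : ∃ c : ℕ → ℂ, c = fun m : ℕ => (starRingEnd ℂ) (D m) / ‖D m‖ := ⟨_, rfl⟩
  have hc1 : ∀ m, ‖c m‖ ≤ 1 := by
    intro m
    rw [hc]
    simp only [norm_div, RCLike.norm_conj, Complex.norm_real, norm_norm]
    exact div_self_le_one _
  have heq : ∑ a ∈ Icc 1 A, ∑ m ∈ Icc 1 P, G a * c m * fz f H (a + ((s : ℤ) * m + c0)) =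
      ((∑ m ∈ Icc 1 P, ‖D m‖ : ℝ) : ℂ) := by
    rw [sum_comm]
    push_cast
    apply sum_congr rfl
    intro m _
    have e1 : ∑ a ∈ Icc 1 A, G a * c m * fz f H (a + ((s : ℤ) * m + c0)) = c m * D m := by
      rw [hD, mul_sum]
      apply sum_congr rfl
      intro a _
      ring
    rw [e1, hc]
    simp only
    by_cases h0 : ‖D m‖ = 0
    · rw [norm_eq_zero.1 h0]; simp
    · have h0' : ((‖D m‖ : ℝ) : ℂ) ≠ 0 := by exact_mod_cast h0
      rw [div_mul_eq_mul_div, mul_comm, Complex.mul_conj', pow_two]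
      field_simp
  have key := four A H P M hM1 f G c s c0 hcond
  rw [heq, Complex.norm_real, Real.norm_of_nonneg (sum_nonneg fun _ _ => norm_nonneg _)] at key
  have hD1 : ∑ m ∈ Icc 1 P, ‖D m‖ = ∑ m ∈ Icc 1 P, ‖∑ a ∈ Icc 1 A, G a * fz f H (a + ((s : ℤ) * m + c0))‖ := by rw [hD]
  rw [← hD1] at hmom
  obtain ⟨Gv, hGv⟩ : ∃ Gv : ℕ → ℝ, Gv = fun t : ℕ => ‖∑ a ∈ Icc 1 A, G a * ee ((t : ℝ) * ((((1 : ℤ) * a : ℤ) : ℝ) / M))‖ := ⟨_, rfl⟩
  obtain ⟨Cv, hCv⟩ : ∃ Cv : ℕ → ℝ, Cv = fun t : ℕ => ‖CC M P s c t‖ := ⟨_, rfl⟩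
  have hGv0 : ∀ t, 0 ≤ Gv t := by intro t; rw [hGv]; exact norm_nonneg _
  have hCv0 : ∀ t, 0 ≤ Cv t := by intro t; rw [hCv]; exact norm_nonneg _
  have hFv0 : ∀ t, 0 ≤ Fv t := by intro t; rw [hFv]; exact norm_nonneg _
  have hCvP : ∀ t, Cv t ≤ P := by intro t; rw [hCv]; exact CC_le M P s c hc1 t
  have key2 : X0 * P * M ≤ ∑ t ∈ range M, Fv t * Gv t * Cv t := by
    calc X0 * P * M ≤ (∑ m ∈ Icc 1 P, ‖D m‖) * M := mul_le_mul_of_nonneg_right hmom hM0.le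
      _ = M * ∑ m ∈ Icc 1 P, ‖D m‖ := mul_comm _ _
      _ ≤ _ := key
      _ = ∑ t ∈ range M, Fv t * Gv t * Cv t := by
          apply sum_congr rfl
          intro t _
          rw [hFv, hGv, hCv]
  have hpars : ∑ t ∈ range M, Gv t ^ 2 ≤ M * A := by
    have e1 := parseval_Icc A M hM1 hAM G 1 (Or.inl rfl)
    rw [hGv]
    refine (le_of_eq e1).trans ?_
    apply mul_le_mul_of_nonneg_left _ hM0.le
    have : ∀ a ∈ Icc 1 A, ‖G a‖ ^ 2 ≤ 1 := fun a _ => pow_le_one₀ (norm_nonneg _) (hG a)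
    refine (sum_le_sum this).trans ?_
    rw [sum_const, Nat.card_Icc, nsmul_eq_mul]
    simp
  by_contra hcon
  push Not at hcon
  have hsmall : ∀ j < J, ∑ t ∈ lev Fv M H j, Cv t ^ 2 ≤ (P : ℝ) ^ 2 * (4 ^ j * S) := by
    intro j hj
    by_contra hcon2
    rw [not_le] at hcon2
    have e1 := close_count M P s hP c hc1 (lev Fv M H j) (4 ^ j * S) T (by positivity) hT0 (by
      rw [hCv] at hcon2
      exact hcon2.le)
    have e2 := hcon j hj
    have e3 := hW j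
    have e4 : ((lev Fv M H j).card : ℝ) ^ 2 / (4 * T) ≤ 16 ^ j * S ^ 2 / 6 := by
      rw [div_le_div_iff₀ (by positivity) (by norm_num)]
      have e5 : ((lev Fv M H j).card : ℝ) ^ 2 ≤ (W1 * 4 ^ j) ^ 2 := pow_le_pow_left₀ (Nat.cast_nonneg _) e3 2
      have e6 : ((4 : ℝ) ^ j) ^ 2 = 16 ^ j := by rw [← pow_mul, mul_comm, pow_mul]; norm_num
      calc ((lev Fv M H j).card : ℝ) ^ 2 * 6 ≤ (W1 * 4 ^ j) ^ 2 * 6 := mul_le_mul_of_nonneg_right e5 (by norm_num)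
        _ = 2 * 16 ^ j * (3 * W1 ^ 2) := by rw [mul_pow, e6]; ring
        _ ≤ 2 * 16 ^ j * (2 * S ^ 2 * T) := mul_le_mul_of_nonneg_left hT (by positivity)
        _ = 16 ^ j * S ^ 2 * (4 * T) := by ring
    have e7 : (4 ^ j * S) ^ 2 = 16 ^ j * S ^ 2 := by
      rw [mul_pow, ← pow_mul, mul_comm j 2, pow_mul]
      norm_num
    rw [e7] at e1
    linarith
  -- the sum over one level
  have hone : ∀ j < J, ∑ t ∈ lev Fv M H j, Fv t * Gv t * Cv t ≤ P * (H * √(M * A * S)) := by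
    intro j hj
    have e1 : ∀ t ∈ lev Fv M H j, Fv t * Gv t * Cv t ≤ (H / 2 ^ j) * (Gv t * Cv t) := by
      intro t ht
      unfold lev at ht
      rw [mem_filter] at ht
      rw [mul_assoc]
      exact mul_le_mul_of_nonneg_right ht.2.2 (mul_nonneg (hGv0 t) (hCv0 t))
    refine (sum_le_sum e1).trans ?_
    rw [← mul_sum]
    have e2 : ∑ t ∈ lev Fv M H j, Gv t * Cv t ≤ √(M * A) * √((P : ℝ) ^ 2 * (4 ^ j * S)) := by
      have e3 := sum_mul_sq_le_sq_mul_sq (lev Fv M H j) Gv Cv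
      have e4 : ∑ t ∈ lev Fv M H j, Gv t ^ 2 ≤ M * A := by
        refine le_trans ?_ hpars
        apply sum_le_sum_of_subset_of_nonneg
        · unfold lev; exact filter_subset _ _
        · intro _ _ _; positivity
      have e5 : (∑ t ∈ lev Fv M H j, Gv t * Cv t) ^ 2 ≤ (M * A) * ((P : ℝ) ^ 2 * (4 ^ j * S)) := by
        refine e3.trans ?_
        exact mul_le_mul e4 (hsmall j hj) (sum_nonneg fun _ _ => by positivity) (by positivity)
      rw [← Real.sqrt_mul (by positivity)]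
      exact Real.le_sqrt_of_sq_le e5
    have e6 : √((P : ℝ) ^ 2 * (4 ^ j * S)) = P * 2 ^ j * √S := by
      have e7 : (P : ℝ) ^ 2 * (4 ^ j * S) = (P * 2 ^ j) ^ 2 * S := by
        rw [mul_pow, ← pow_mul, mul_comm j 2, pow_mul]
        norm_num
        ring
      rw [e7, Real.sqrt_mul (by positivity), Real.sqrt_sq (by positivity)]
    calc H / 2 ^ j * ∑ t ∈ lev Fv M H j, Gv t * Cv t ≤ H / 2 ^ j * (√(M * A) * √((P : ℝ) ^ 2 * (4 ^ j * S))) :=
          mul_le_mul_of_nonneg_left e2 (by positivity)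
      _ = P * (H * (√(M * A) * √S)) := by rw [e6]; field_simp
      _ = P * (H * √(M * A * S)) := by rw [← Real.sqrt_mul (by positivity)]
  -- the sum over the small values
  obtain ⟨Rs, hRs⟩ : ∃ Rs, Rs = (range M).filter (fun t => Fv t ≤ H / 2 ^ J) := ⟨_, rfl⟩
  have hrest : ∑ t ∈ Rs, Fv t * Gv t * Cv t ≤ P * M * (H / 2 ^ J * √A) := by
    have e1 : ∀ t ∈ Rs, Fv t * Gv t * Cv t ≤ (H / 2 ^ J * P) * Gv t := by
      intro t ht
      rw [hRs, mem_filter] at ht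
      calc Fv t * Gv t * Cv t = (Fv t * Cv t) * Gv t := by ring
        _ ≤ (H / 2 ^ J * P) * Gv t := by
            apply mul_le_mul_of_nonneg_right _ (hGv0 t)
            exact mul_le_mul ht.2 (hCvP t) (hCv0 t) (by positivity)
    refine (sum_le_sum e1).trans ?_
    rw [← mul_sum]
    have e2 : ∑ t ∈ Rs, Gv t ≤ M * √A := by
      have e3 : ∑ t ∈ Rs, Gv t ≤ ∑ t ∈ range M, 1 * Gv t := by
        simp only [one_mul]
        apply sum_le_sum_of_subset_of_nonneg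
        · rw [hRs]; exact filter_subset _ _
        · intro t _ _; exact hGv0 t
      have e4 := sum_mul_sq_le_sq_mul_sq (range M) (fun _ => (1 : ℝ)) Gv
      have e5 : (∑ t ∈ range M, 1 * Gv t) ^ 2 ≤ (M * √A) ^ 2 := by
        refine e4.trans ?_
        simp only [one_pow, sum_const, card_range, nsmul_eq_mul, mul_one]
        calc (M : ℝ) * ∑ t ∈ range M, Gv t ^ 2 ≤ M * (M * A) := mul_le_mul_of_nonneg_left hpars hM0.le
          _ = (M * √A) ^ 2 := by rw [mul_pow, Real.sq_sqrt hA0]; ring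
      exact e3.trans (abs_le_of_sq_le_sq' e5 (by positivity)).2
    calc H / 2 ^ J * P * ∑ t ∈ Rs, Gv t ≤ H / 2 ^ J * P * (M * √A) := mul_le_mul_of_nonneg_left e2 (by positivity)
      _ = P * M * (H / 2 ^ J * √A) := by ring
  -- covering
  have hcov : range M ⊆ (range J).biUnion (fun j => lev Fv M H j) ∪ Rs := by
    intro t ht
    rw [mem_union]
    rcases le_or_gt (Fv t) (H / 2 ^ J) with h3 | h3
    · right
      rw [hRs, mem_filter]
      exact ⟨ht, h3⟩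
    · left
      have hex : ∃ j, H / 2 ^ (j + 1) < Fv t := by
        refine ⟨J, lt_of_le_of_lt ?_ h3⟩
        apply div_le_div_of_nonneg_left hH0 (by positivity)
        exact pow_le_pow_right₀ (by norm_num) (by omega)
      obtain ⟨j, hj⟩ : ∃ j, j = Nat.find hex := ⟨_, rfl⟩
      have hj1 : H / 2 ^ (j + 1) < Fv t := by rw [hj]; exact Nat.find_spec hex
      rw [mem_biUnion]
      rcases Nat.eq_zero_or_pos J with hJ0 | hJ0
      · subst hJ0
        have := hFH t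
        rw [pow_zero, div_one] at h3
        linarith
      have hjJ : j < J := by
        by_contra hc2
        have h4 : ¬ H / 2 ^ (J - 1 + 1) < Fv t := by
          apply Nat.find_min hex
          rw [← hj]
          omega
        apply h4
        rw [Nat.sub_add_cancel hJ0]
        exact h3
      refine ⟨j, mem_range.2 hjJ, ?_⟩
      unfold lev
      rw [mem_filter]
      refine ⟨ht, hj1, ?_⟩
      rcases Nat.eq_zero_or_pos j with h0 | h0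
      · rw [h0, pow_zero, div_one]
        exact hFH t
      · have h4 : ¬ H / 2 ^ (j - 1 + 1) < Fv t := by
          apply Nat.find_min hex
          rw [← hj]
          omega
        rw [Nat.sub_add_cancel h0, not_lt] at h4
        exact h4
  have htot : ∑ t ∈ range M, Fv t * Gv t * Cv t ≤ J * (P * (H * √(M * A * S))) + P * M * (H / 2 ^ J * √A) := by
    have hnn : ∀ t, 0 ≤ Fv t * Gv t * Cv t := fun t => mul_nonneg (mul_nonneg (hFv0 t) (hGv0 t)) (hCv0 t)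
    calc ∑ t ∈ range M, Fv t * Gv t * Cv t ≤ ∑ t ∈ (range J).biUnion (fun j => lev Fv M H j) ∪ Rs, Fv t * Gv t * Cv t :=
          sum_le_sum_of_subset_of_nonneg hcov fun t _ _ => hnn t
      _ ≤ ∑ t ∈ (range J).biUnion (fun j => lev Fv M H j), Fv t * Gv t * Cv t + ∑ t ∈ Rs, Fv t * Gv t * Cv t := by
          have h5 : 0 ≤ ∑ t ∈ (range J).biUnion (fun j => lev Fv M H j) ∩ Rs, Fv t * Gv t * Cv t := sum_nonneg fun t _ => hnn t
          have h6 : ∑ t ∈ (range J).biUnion (fun j => lev Fv M H j) ∪ Rs, Fv t * Gv t * Cv t +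
            ∑ t ∈ (range J).biUnion (fun j => lev Fv M H j) ∩ Rs, Fv t * Gv t * Cv t =
            ∑ t ∈ (range J).biUnion (fun j => lev Fv M H j), Fv t * Gv t * Cv t + ∑ t ∈ Rs, Fv t * Gv t * Cv t := sum_union_inter
          linarith
      _ ≤ ∑ j ∈ range J, ∑ t ∈ lev Fv M H j, Fv t * Gv t * Cv t + ∑ t ∈ Rs, Fv t * Gv t * Cv t := by
          apply add_le_add _ le_rfl
          exact sum_biUnion_le' (range J) (fun j => lev Fv M H j) (fun t => Fv t * Gv t * Cv t) hnn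
      _ ≤ ∑ _j ∈ range J, P * (H * √(M * A * S)) + P * M * (H / 2 ^ J * √A) := by
          apply add_le_add _ hrest
          exact sum_le_sum fun j hj => hone j (mem_range.1 hj)
      _ = _ := by rw [sum_const, card_range, nsmul_eq_mul]
  have hfin : X0 * P * M < X0 * P * M := by
    calc X0 * P * M ≤ J * (P * (H * √(M * A * S))) + P * M * (H / 2 ^ J * √A) := key2.trans htot
      _ = P * (J * (H * √(M * A * S))) + P * M * (H / 2 ^ J * √A) := by ring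
      _ < P * (X0 * M / 2) + P * M * (X0 / 2) := by
          apply add_lt_add_of_le_of_lt
          · exact mul_le_mul_of_nonneg_left h1 hP0.le
          · exact mul_lt_mul_of_pos_left h2 (by positivity)
      _ = X0 * P * M := by ring
  exact lt_irrefl _ hfin

end Pool.Agent.Y883.T3
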