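import Pool.Agent.Y883.T3.Large

set_option autoImplicit false

/-! The three cases with the parameters of the application. -/

namespace Pool.Agent.Y883.T3

open Finset

/-- the hypotheses common to the three cases -/
structure Hyp (A N Q P j : ℕ) (L : ℝ) (Z S : Finset ℕ) : Prop where
  hp : Par (4 * N) N Q P 4 (L ^ (8 * A + 44))
  hL : 100000 ≤ L
  hZ : ∀ t ∈ Z, t < 4 * N
  hZc : (Z.card : ℝ) ≤ L ^ 9 * 4 ^ j
  hS : ∀ s ∈ S, Q ≤ s ∧ s < 4 * Q
  hX1 : ∀ s ∈ S, 16 ^ j / (6 * L ^ (8 * A + 24)) ≤ ((clp (4 * N) P s (L ^ (8 * A + 44)) Z).card : ℝ)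

open Classical in
theorem small_step (A N Q P j U : ℕ) (L : ℝ) (Z S : Finset ℕ) (h : Hyp A N Q P j L Z S) (x : ℕ → ℚ)
    (hx : ∀ t ∈ Z, ((x t).den : ℝ) ≤ 4 ^ (j + 1) * L ^ 18 ∧
      |(t : ℝ) / (4 * N : ℕ) - x t| ≤ 4 ^ (j + 1) * L ^ 18 / ((x t).den * N))
    (hP : 9 * L ^ (8 * A + 98) * 64 ^ (j + 1) < (P : ℝ)) (hj : L ^ U < 2 ^ (j + 1)) (hU : 8 * A + 42 ≤ U) :
    ∃ d : ℕ, L ^ (U - (8 * A + 41)) < d ∧ (S.card : ℝ) ≤ L ^ (8 * A + 43) * (S.filter (fun s => d ∣ s)).card := by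
  have hL := h.hL
  have hL0 : 0 < L := by linarith
  have hL1 : 1 ≤ L := by linarith
  obtain ⟨T, hT⟩ : ∃ T : ℝ, T = L ^ (8 * A + 44) := ⟨_, rfl⟩
  obtain ⟨R0, hR0⟩ : ∃ R0 : ℝ, R0 = 4 ^ (j + 1) * L ^ 18 := ⟨_, rfl⟩
  have hT1 : 1 ≤ T := by rw [hT]; exact one_le_pow₀ hL1
  have hR1 : 1 ≤ R0 := by
    rw [hR0]
    exact one_le_mul_of_one_le_of_one_le (one_le_pow₀ (by norm_num)) (one_le_pow₀ hL1)
  obtain ⟨Y, hY⟩ : ∃ Y : ℝ, Y = 2 ^ j / L ^ (8 * A + 40) := ⟨_, rfl⟩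
  have hYU : L ^ (U - (8 * A + 41)) < Y := by
    rw [hY, lt_div_iff₀ (by positivity), ← pow_add]
    have e : U - (8 * A + 41) + (8 * A + 40) = U - 1 := by omega
    rw [e]
    have e2 : L ^ U = L ^ (U - 1) * L := by
      rw [← pow_succ]
      congr 1
      omega
    have e3 : L ^ (U - 1) * 2 ≤ L ^ (U - 1) * L := mul_le_mul_of_nonneg_left (by linarith) (by positivity)
    have e4 : (2 : ℝ) ^ (j + 1) = 2 ^ j * 2 := pow_succ _ _
    rw [e4, e2] at hj
    linarith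
  have hY1 : 1 ≤ Y := (one_le_pow₀ hL1).trans hYU.le
  have hsm : R0 ^ 2 * (T + 8 * R0) < P := by
    refine lt_of_le_of_lt ?_ hP
    have h1 : T + 8 * R0 ≤ 9 * (T * R0) := by nlinarith
    calc R0 ^ 2 * (T + 8 * R0) ≤ R0 ^ 2 * (9 * (T * R0)) := mul_le_mul_of_nonneg_left h1 (by positivity)
      _ = 9 * L ^ (8 * A + 98) * 64 ^ (j + 1) := by
          rw [hR0, hT]
          have e1 : (64 : ℝ) ^ (j + 1) = (4 ^ (j + 1)) ^ 3 := by
            rw [← pow_mul, mul_comm (j + 1) 3, pow_mul]; norm_num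
          have e2 : L ^ (8 * A + 98) = L ^ (8 * A + 44) * (L ^ 18) ^ 3 := by
            rw [← pow_mul, ← pow_add]
          rw [e1, e2]
          ring
  rw [← hR0] at hx
  have hp := h.hp
  have hX1 := h.hX1
  rw [← hT] at hp hX1
  obtain ⟨d, hd1, hd2⟩ := small_case (4 * N) N Q P 4 T R0 hp hR1 Z h.hZ x hx hsm S h.hS
    (16 ^ j / (6 * L ^ (8 * A + 24))) Y (by positivity) hX1 hY1 (by
      have e1 : 4 * 4 * T + 1 ≤ 17 * L ^ (8 * A + 44) := by rw [← hT]; linarith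
      calc 10 * (Z.card : ℝ) * Y ^ 2 * (4 * 4 * T + 1) ≤ 10 * (L ^ 9 * 4 ^ j) * Y ^ 2 * (17 * L ^ (8 * A + 44)) := by
            apply mul_le_mul _ e1 (by positivity) (by positivity)
            apply mul_le_mul_of_nonneg_right _ (by positivity)
            exact mul_le_mul_of_nonneg_left h.hZc (by norm_num)
        _ = 170 * 16 ^ j * (L ^ (8 * A + 53) / L ^ (16 * A + 80)) := by
            rw [hY, div_pow]
            have e2 : ((2 : ℝ) ^ j) ^ 2 = 4 ^ j := by rw [← pow_mul, mul_comm, pow_mul]; norm_num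
            have e3 : (L ^ (8 * A + 40)) ^ 2 = L ^ (16 * A + 80) := by rw [← pow_mul]; congr 1; ring
            have e4 : (16 : ℝ) ^ j = 4 ^ j * 4 ^ j := by rw [← mul_pow]; norm_num
            have e5 : L ^ (8 * A + 53) = L ^ 9 * L ^ (8 * A + 44) := by rw [← pow_add]; congr 1; ring
            rw [e2, e3, e4, e5]
            ring
        _ = 170 * 16 ^ j * (1 / (L ^ (8 * A + 24) * L ^ 3)) := by
            have e6 : L ^ (16 * A + 80) = L ^ (8 * A + 53) * (L ^ (8 * A + 24) * L ^ 3) := by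
              rw [← pow_add, ← pow_add]; congr 1; ring
            rw [e6]
            field_simp
        _ ≤ 16 ^ j / (6 * L ^ (8 * A + 24)) := by
            rw [mul_one_div, div_le_div_iff₀ (by positivity) (by positivity)]
            have e7 : (1020 : ℝ) ≤ L ^ 3 := by
              have : L ^ 1 ≤ L ^ 3 := pow_le_pow_right₀ hL1 (by norm_num)
              linarith [pow_one L]
            calc 170 * 16 ^ j * (6 * L ^ (8 * A + 24)) = 1020 * (16 ^ j * L ^ (8 * A + 24)) := by ring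
              _ ≤ L ^ 3 * (16 ^ j * L ^ (8 * A + 24)) := mul_le_mul_of_nonneg_right e7 (by positivity)
              _ = 16 ^ j * (L ^ (8 * A + 24) * L ^ 3) := by ring)
  refine ⟨d, hYU.trans hd1, ?_⟩
  have h16 : (0 : ℝ) < 16 ^ j := by positivity
  have h2 : (S.card : ℝ) * (16 ^ j / (6 * L ^ (8 * A + 24))) ≤ (2 * L ^ 18 * (S.filter (fun s => d ∣ s)).card) * 16 ^ j := by
    refine hd2.trans ?_
    have h3 : (Z.card : ℝ) ^ 2 ≤ (L ^ 9 * 4 ^ j) ^ 2 := pow_le_pow_left₀ (Nat.cast_nonneg _) h.hZc 2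
    have e1 : (L ^ 9 * 4 ^ j) ^ 2 = L ^ 18 * 16 ^ j := by
      rw [mul_pow, ← pow_mul, ← pow_mul, mul_comm j 2, pow_mul 4 2 j]
      norm_num
    rw [e1] at h3
    calc 2 * (Z.card : ℝ) ^ 2 * ((S.filter (fun s => d ∣ s)).card : ℝ) ≤ 2 * (L ^ 18 * 16 ^ j) * ((S.filter (fun s => d ∣ s)).card : ℝ) :=
          mul_le_mul_of_nonneg_right (by linarith) (Nat.cast_nonneg _)
      _ = _ := by ring
  have h3 : (S.card : ℝ) / (6 * L ^ (8 * A + 24)) ≤ 2 * L ^ 18 * (S.filter (fun s => d ∣ s)).card := by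
    apply le_of_mul_le_mul_right _ h16
    refine le_trans (le_of_eq ?_) h2
    ring
  rw [div_le_iff₀ (by positivity)] at h3
  refine h3.trans ?_
  have e1 : L ^ (8 * A + 43) = L ^ 18 * L ^ (8 * A + 24) * L := by
    rw [← pow_add, ← pow_succ]; congr 1; ring
  rw [e1]
  have hS0 : (0 : ℝ) ≤ (S.filter (fun s => d ∣ s)).card := Nat.cast_nonneg _
  calc 2 * L ^ 18 * ((S.filter (fun s => d ∣ s)).card : ℝ) * (6 * L ^ (8 * A + 24)) =
        12 * (L ^ 18 * L ^ (8 * A + 24) * ((S.filter (fun s => d ∣ s)).card : ℝ)) := by ring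
    _ ≤ L * (L ^ 18 * L ^ (8 * A + 24) * ((S.filter (fun s => d ∣ s)).card : ℝ)) :=
        mul_le_mul_of_nonneg_right (by linarith) (by positivity)
    _ = _ := by ring

open Classical in
theorem large_step (A N Q P j : ℕ) (L X : ℝ) (Z S : Finset ℕ) (h : Hyp A N Q P j L Z S) (x : ℕ → ℚ)
    (hx : ∀ t ∈ Z, ((x t).den : ℝ) ≤ 4 ^ (j + 1) * L ^ 18 ∧
      |(t : ℝ) / (4 * N : ℕ) - x t| ≤ 4 ^ (j + 1) * L ^ 18 / ((x t).den * N))
    (hX : L ^ (40 * A + 200) ≤ X)
    (hdiv : ∀ n : ℕ, 1 ≤ n → ((n < 4 * Q) ∨ (n : ℝ) ≤ 4 ^ (j + 1) * L ^ 18) → (n.divisors.card : ℝ) ≤ X)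
    (hlog : ((Nat.log 2 ⌊(4 : ℝ) ^ (j + 1) * L ^ 18⌋₊ : ℕ) : ℝ) + 1 ≤ L ^ 2)
    (hP : 4 ^ j * X ^ 3 ≤ (P : ℝ)) :
    ∃ d : ℕ, 4 ^ j ≤ X ^ 3 * d ∧ (S.card : ℝ) ≤ X ^ 4 * (S.filter (fun s => d ∣ s)).card := by
  have hL := h.hL
  have hL0 : 0 < L := by linarith
  have hL1 : 1 ≤ L := by linarith
  obtain ⟨T, hT⟩ : ∃ T : ℝ, T = L ^ (8 * A + 44) := ⟨_, rfl⟩
  obtain ⟨R0, hR0⟩ : ∃ R0 : ℝ, R0 = 4 ^ (j + 1) * L ^ 18 := ⟨_, rfl⟩
  have hT1 : 1 ≤ T := by rw [hT]; exact one_le_pow₀ hL1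
  have hR1 : 1 ≤ R0 := by
    rw [hR0]
    exact one_le_mul_of_one_le_of_one_le (one_le_pow₀ (by norm_num)) (one_le_pow₀ hL1)
  have hXL : ∀ k : ℕ, k ≤ 40 * A + 200 → L ^ k ≤ X := fun k hk => (pow_le_pow_right₀ hL1 hk).trans hX
  have hX1' : 1 ≤ X := (one_le_pow₀ hL1).trans hX
  have hX0 : 0 < X := by linarith
  have hp := h.hp
  have hX1 := h.hX1
  have hP0 : (0 : ℝ) < P := by exact_mod_cast hp.hP
  have h4 : (0 : ℝ) < 4 ^ j := by positivity
  rw [← hT] at hp hX1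
  rw [← hR0] at hx hdiv hlog
  have e17 : 4 * 4 * T + 1 ≤ 17 * T := by linarith
  obtain ⟨d, hd1, hd2⟩ := large_case (4 * N) N Q P 4 T R0 hp hR1 Z h.hZ x hx S h.hS
    (16 ^ j / (6 * L ^ (8 * A + 24))) (4 ^ j / X ^ 2) X (by positivity) (by positivity) hX1 hdiv (by
      have e1 : (4 : ℝ) ^ j / X ^ 2 * (X * (((Nat.log 2 ⌊R0⌋₊ : ℕ) : ℝ) + 1)) * Z.card ≤ 4 ^ j / X ^ 2 * (X * L ^ 2) * (L ^ 9 * 4 ^ j) := by
        apply mul_le_mul _ h.hZc (Nat.cast_nonneg _) (by positivity)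
        apply mul_le_mul_of_nonneg_left _ (by positivity)
        exact mul_le_mul_of_nonneg_left hlog hX0.le
      refine e1.trans ?_
      have e2 : (16 : ℝ) ^ j = 4 ^ j * 4 ^ j := by rw [← mul_pow]; norm_num
      have e3 : (4 : ℝ) ^ j / X ^ 2 * (X * L ^ 2) * (L ^ 9 * 4 ^ j) = 16 ^ j * L ^ 11 / X := by
        rw [e2]
        field_simp
      rw [e3, div_le_div_iff₀ hX0 (by positivity)]
      have e4 := hXL (8 * A + 36) (by omega)
      have e5 : L ^ (8 * A + 36) = L ^ 11 * L ^ (8 * A + 24) * L := by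
        rw [← pow_add, ← pow_succ]; congr 1; ring
      rw [e5] at e4
      calc (16 : ℝ) ^ j * L ^ 11 * (6 * L ^ (8 * A + 24)) = 16 ^ j * (6 * (L ^ 11 * L ^ (8 * A + 24))) := by ring
        _ ≤ 16 ^ j * (L ^ 11 * L ^ (8 * A + 24) * L) := by
            apply mul_le_mul_of_nonneg_left _ (by positivity)
            rw [mul_comm 6]
            exact mul_le_mul_of_nonneg_left (by linarith) (by positivity)
        _ ≤ 16 ^ j * X := mul_le_mul_of_nonneg_left e4 (by positivity)) (by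
      have e1 : 120 * (T * R0 ^ 2 / P) * (4 * 4 * T + 1) ≤ 120 * (T * R0 ^ 2 / P) * (17 * T) :=
        mul_le_mul_of_nonneg_left e17 (by positivity)
      refine e1.trans ?_
      have e2 : 120 * (T * R0 ^ 2 / P) * (17 * T) = 32640 * L ^ (16 * A + 124) * (4 ^ j * 4 ^ j) / P := by
        have e3 : L ^ (16 * A + 124) = (L ^ (8 * A + 44)) ^ 2 * (L ^ 18) ^ 2 := by
          rw [← pow_mul, ← pow_mul, ← pow_add]; congr 1; ring
        rw [hR0, hT, e3, pow_succ]
        ring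
      rw [e2, div_div, div_le_div_iff₀ hP0 (by positivity)]
      have e4 := hXL (16 * A + 125) (by omega)
      have e5 : 2 * (32640 * L ^ (16 * A + 124)) ≤ X := by
        refine le_trans ?_ e4
        rw [pow_succ L (16 * A + 124)]
        have : 0 < L ^ (16 * A + 124) := by positivity
        nlinarith
      calc 32640 * L ^ (16 * A + 124) * (4 ^ j * 4 ^ j) * (X ^ 2 * 2) =
            (2 * (32640 * L ^ (16 * A + 124))) * (4 ^ j * 4 ^ j * X ^ 2) := by ring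
        _ ≤ X * (4 ^ j * 4 ^ j * X ^ 2) := mul_le_mul_of_nonneg_right e5 (by positivity)
        _ = 4 ^ j * (4 ^ j * X ^ 3) := by ring
        _ ≤ 4 ^ j * P := mul_le_mul_of_nonneg_left hP h4.le)
  refine ⟨d, ?_, ?_⟩
  · rw [div_le_iff₀ (by positivity)] at hd1
    have e1 : 6 * (4 * 4 * T + 1) ≤ X := by
      have e2 := hXL (8 * A + 45) (by omega)
      rw [pow_succ, ← hT] at e2
      nlinarith
    refine hd1.trans ?_
    calc 6 * (4 * 4 * T + 1) * d * X ^ 2 ≤ X * d * X ^ 2 := by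
          apply mul_le_mul_of_nonneg_right _ (by positivity)
          exact mul_le_mul_of_nonneg_right e1 (Nat.cast_nonneg _)
      _ = X ^ 3 * d := by ring
  · have h1 : (S.card : ℝ) * (4 ^ j / X ^ 2) ≤ (X * L ^ 9 * (S.filter (fun s => d ∣ s)).card) * 4 ^ j := by
      refine hd2.trans ?_
      calc (Z.card : ℝ) * X * ((S.filter (fun s => d ∣ s)).card : ℝ) ≤ (L ^ 9 * 4 ^ j) * X * ((S.filter (fun s => d ∣ s)).card : ℝ) := by
            apply mul_le_mul_of_nonneg_right _ (Nat.cast_nonneg _)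
            exact mul_le_mul_of_nonneg_right h.hZc hX0.le
        _ = _ := by ring
    have h2 : (S.card : ℝ) / X ^ 2 ≤ X * L ^ 9 * (S.filter (fun s => d ∣ s)).card := by
      apply le_of_mul_le_mul_right _ h4
      refine le_trans (le_of_eq ?_) h1
      ring
    rw [div_le_iff₀ (by positivity)] at h2
    refine h2.trans ?_
    have e1 := hXL 9 (by omega)
    calc X * L ^ 9 * ((S.filter (fun s => d ∣ s)).card : ℝ) * X ^ 2 = L ^ 9 * (X ^ 3 * ((S.filter (fun s => d ∣ s)).card : ℝ)) := by ring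
      _ ≤ X * (X ^ 3 * ((S.filter (fun s => d ∣ s)).card : ℝ)) := mul_le_mul_of_nonneg_right e1 (by positivity)
      _ = _ := by ring

open Classical in
theorem deep_step (A N Q P j : ℕ) (L X G1 : ℝ) (Z S : Finset ℕ) (h : Hyp A N Q P j L Z S)
    (hX : L ^ (40 * A + 200) ≤ X) (hdiv : ∀ s ∈ S, (s.divisors.card : ℝ) ≤ X) (hG1 : 0 ≤ G1)
    (hj : X * (Q / P + G1) ≤ (4 : ℝ) ^ j) :
    ∃ d : ℕ, G1 ≤ d ∧ (S.card : ℝ) ≤ X ^ 4 * (S.filter (fun s => d ∣ s)).card := by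
  have hL := h.hL
  have hL0 : 0 < L := by linarith
  have hL1 : 1 ≤ L := by linarith
  obtain ⟨T, hT⟩ : ∃ T : ℝ, T = L ^ (8 * A + 44) := ⟨_, rfl⟩
  have hT1 : 1 ≤ T := by rw [hT]; exact one_le_pow₀ hL1
  have hXL : ∀ k : ℕ, k ≤ 40 * A + 200 → L ^ k ≤ X := fun k hk => (pow_le_pow_right₀ hL1 hk).trans hX
  have hX1' : 1 ≤ X := (one_le_pow₀ hL1).trans hX
  have hX0 : 0 < X := by linarith
  have hp := h.hp
  have hX1 := h.hX1
  have hP0 : (0 : ℝ) < P := by exact_mod_cast hp.hP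
  have hQ0 : (0 : ℝ) < Q := by exact_mod_cast hp.hQ
  have h4 : (0 : ℝ) < 4 ^ j := by positivity
  have h16 : (0 : ℝ) < 16 ^ j := by positivity
  have e416 : (16 : ℝ) ^ j = 4 ^ j * 4 ^ j := by rw [← mul_pow]; norm_num
  rw [← hT] at hp hX1
  rcases S.eq_empty_or_nonempty with hSe | hSne
  · subst hSe
    obtain ⟨d, hd⟩ := exists_nat_ge G1
    exact ⟨d, hd, by simp⟩
  have hZne : Z.Nonempty := by
    obtain ⟨s, hs⟩ := hSne
    have h1 := hX1 s hs
    rw [nonempty_iff_ne_empty]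
    intro h0
    rw [h0] at h1
    unfold clp at h1
    simp at h1
    have : 0 < (16 : ℝ) ^ j / (6 * L ^ (8 * A + 24)) := by positivity
    linarith
  have hZ0 : (0 : ℝ) < Z.card := by exact_mod_cast hZne.card_pos
  obtain ⟨W, hW⟩ : ∃ W : ℝ, W = Q / P + G1 := ⟨_, rfl⟩
  have hW0 : 0 < W := by rw [hW]; positivity
  rw [← hW] at hj
  have hB : (48 * (Q * T / P) + 3 * G1) * (4 * 4 * T + 1) ≤ 816 * (W * T ^ 2) := by
    have e1 : 48 * (Q * T / P) + 3 * G1 ≤ 48 * (W * T) := by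
      rw [hW]
      have : 48 * (((Q : ℝ) / P + G1) * T) = 48 * (Q * T / P) + 48 * (G1 * T) := by ring
      rw [this]
      nlinarith
    calc (48 * (Q * T / P) + 3 * G1) * (4 * 4 * T + 1) ≤ (48 * (W * T)) * (17 * T) :=
          mul_le_mul e1 (by linarith) (by positivity) (by positivity)
      _ = 816 * (W * T ^ 2) := by ring
  obtain ⟨d, hd1, hd2⟩ := deep_case (4 * N) N Q P 4 T hp Z h.hZ S h.hS
    (16 ^ j / (6 * L ^ (8 * A + 24))) G1 X (by positivity) hX1 hdiv (by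
      rw [le_div_iff₀ (by positivity)]
      calc (Z.card : ℝ) * ((48 * (Q * T / P) + 3 * G1) * (4 * 4 * T + 1)) * (2 * (Z.card : ℝ) ^ 2) =
            2 * (Z.card : ℝ) ^ 3 * ((48 * (Q * T / P) + 3 * G1) * (4 * 4 * T + 1)) := by ring
        _ ≤ 2 * (L ^ 9 * 4 ^ j) ^ 3 * (816 * (W * T ^ 2)) := by
            apply mul_le_mul _ hB (by positivity) (by positivity)
            apply mul_le_mul_of_nonneg_left _ (by norm_num)
            exact pow_le_pow_left₀ hZ0.le h.hZc 3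
        _ = (1632 * L ^ (16 * A + 115)) * W * (4 ^ j) ^ 3 := by
            have e3 : L ^ (16 * A + 115) = (L ^ 9) ^ 3 * (L ^ (8 * A + 44)) ^ 2 := by
              rw [← pow_mul, ← pow_mul, ← pow_add]; congr 1; ring
            rw [hT, e3]
            ring
        _ ≤ (X * W) * (4 ^ j) ^ 3 / (36 * L ^ (16 * A + 48)) := by
            rw [le_div_iff₀ (by positivity)]
            have e4 := hXL (32 * A + 164) (by omega)
            have e5 : L ^ (32 * A + 164) = L ^ (16 * A + 115) * L ^ (16 * A + 48) * L := by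
              rw [← pow_add, ← pow_succ]; congr 1; ring
            have e6 : 58752 * (L ^ (16 * A + 115) * L ^ (16 * A + 48)) ≤ X := by
              refine le_trans ?_ e4
              rw [e5, mul_comm]
              exact mul_le_mul_of_nonneg_left (by linarith) (by positivity)
            calc 1632 * L ^ (16 * A + 115) * W * (4 ^ j) ^ 3 * (36 * L ^ (16 * A + 48)) =
                  (58752 * (L ^ (16 * A + 115) * L ^ (16 * A + 48))) * (W * (4 ^ j) ^ 3) := by ring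
              _ ≤ X * (W * (4 ^ j) ^ 3) := mul_le_mul_of_nonneg_right e6 (by positivity)
              _ = _ := by ring
        _ ≤ 4 ^ j * (4 ^ j) ^ 3 / (36 * L ^ (16 * A + 48)) := by
            apply div_le_div_of_nonneg_right _ (by positivity)
            exact mul_le_mul_of_nonneg_right hj (by positivity)
        _ = (16 ^ j / (6 * L ^ (8 * A + 24))) ^ 2 := by
            rw [e416, div_pow]
            congr 1
            · ring
            · rw [mul_pow, ← pow_mul]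
              norm_num
              congr 1
              ring)
  refine ⟨d, hd1, ?_⟩
  have h1 : (S.card : ℝ) * ((16 ^ j) ^ 2 / (36 * L ^ (16 * A + 48))) ≤ (2 * L ^ 36 * X * (S.filter (fun s => d ∣ s)).card) * (16 ^ j) ^ 2 := by
    have e1 : (16 ^ j / (6 * L ^ (8 * A + 24))) ^ 2 = (16 ^ j) ^ 2 / (36 * L ^ (16 * A + 48)) := by
      rw [div_pow]
      congr 1
      rw [mul_pow, ← pow_mul]
      norm_num
      congr 1
      ring
    rw [← e1]
    refine hd2.trans ?_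
    have e2 : (Z.card : ℝ) ^ 4 ≤ (L ^ 9 * 4 ^ j) ^ 4 := pow_le_pow_left₀ hZ0.le h.hZc 4
    calc 2 * (Z.card : ℝ) ^ 4 * X * ((S.filter (fun s => d ∣ s)).card : ℝ) ≤
          2 * (L ^ 9 * 4 ^ j) ^ 4 * X * ((S.filter (fun s => d ∣ s)).card : ℝ) := by
          apply mul_le_mul_of_nonneg_right _ (Nat.cast_nonneg _)
          apply mul_le_mul_of_nonneg_right _ hX0.le
          linarith
      _ = _ := by
          rw [e416]
          ring
  have h2 : (S.card : ℝ) / (36 * L ^ (16 * A + 48)) ≤ 2 * L ^ 36 * X * (S.filter (fun s => d ∣ s)).card := by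
    apply le_of_mul_le_mul_right _ (show (0 : ℝ) < (16 ^ j) ^ 2 by positivity)
    refine le_trans (le_of_eq ?_) h1
    ring
  rw [div_le_iff₀ (by positivity)] at h2
  refine h2.trans ?_
  have e4 := hXL (16 * A + 85) (by omega)
  have e5 : L ^ (16 * A + 85) = L ^ 36 * L ^ (16 * A + 48) * L := by
    rw [← pow_add, ← pow_succ]; congr 1; ring
  have e6 : 72 * (L ^ 36 * L ^ (16 * A + 48)) ≤ X := by
    refine le_trans ?_ e4
    rw [e5, mul_comm]
    exact mul_le_mul_of_nonneg_left (by linarith) (by positivity)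
  calc 2 * L ^ 36 * X * ((S.filter (fun s => d ∣ s)).card : ℝ) * (36 * L ^ (16 * A + 48)) =
        (72 * (L ^ 36 * L ^ (16 * A + 48))) * (X * ((S.filter (fun s => d ∣ s)).card : ℝ)) := by ring
    _ ≤ X * (X * ((S.filter (fun s => d ∣ s)).card : ℝ)) := mul_le_mul_of_nonneg_right e6 (by positivity)
    _ = X ^ 2 * ((S.filter (fun s => d ∣ s)).card : ℝ) := by ring
    _ ≤ X ^ 4 * ((S.filter (fun s => d ∣ s)).card : ℝ) := by
        apply mul_le_mul_of_nonneg_right _ (Nat.cast_nonneg _)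
        exact pow_le_pow_right₀ hX1' (by norm_num)

end Pool.Agent.Y883.T3
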