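import Pool.Agent.Y883.T3.Mom
import Pool.Agent.Y883.T3.Step

set_option autoImplicit false

/-! A modulus with many exceptional multiples has a level set with many close pairs. -/

namespace Pool.Agent.Y883.T3

open Finset
open Pool.Agent.H807R2.Dav
open Pool.Agent.H373R2.T7 (fz parseval_Icc)

/-- the exponential sum at the points `t / (4 N)` -/
noncomputable def FF (f : ℕ → ℝ) (N t : ℕ) : ℝ :=
  ‖∑ n ∈ Icc 1 N, ((f n : ℝ) : ℂ) * ee ((n : ℝ) * (-(t : ℝ) / (4 * N : ℕ)))‖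

lemma lev_card (N : ℕ) (hN : 1 ≤ N) (f : ℕ → ℝ) (L : ℝ) (hL : 16 ≤ L)
    (hf : ∑ n ∈ Icc 1 N, f n ^ 2 ≤ N * L ^ 8) (j : ℕ) :
    ((lev (FF f N) (4 * N) N j).card : ℝ) ≤ L ^ 9 * 4 ^ j := by
  have hN0 : (0 : ℝ) < N := by exact_mod_cast hN
  have hL0 : 0 < L := by linarith
  have h1 := parseval_Icc N (4 * N) (by omega) (by omega) (fun n => ((f n : ℝ) : ℂ)) (-1) (Or.inr rfl)
  have h2 : ∑ t ∈ range (4 * N), FF f N t ^ 2 ≤ 4 * N * (N * L ^ 8) := by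
    have e1 : ∑ t ∈ range (4 * N), FF f N t ^ 2 = ((4 * N : ℕ) : ℝ) * ∑ a ∈ Icc 1 N, ‖((f a : ℝ) : ℂ)‖ ^ 2 := by
      rw [← h1]
      apply sum_congr rfl
      intro t _
      unfold FF
      congr 2
      apply sum_congr rfl
      intro n _
      congr 2
      push_cast
      ring
    rw [e1]
    have e2 : ∑ a ∈ Icc 1 N, ‖((f a : ℝ) : ℂ)‖ ^ 2 = ∑ a ∈ Icc 1 N, f a ^ 2 := by
      apply sum_congr rfl
      intro a _
      rw [Complex.norm_real, Real.norm_eq_abs, sq_abs]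
    rw [e2]
    push_cast
    exact mul_le_mul_of_nonneg_left hf (by positivity)
  have h3 : ((lev (FF f N) (4 * N) N j).card : ℝ) * (N / 2 ^ (j + 1)) ^ 2 ≤ 4 * N * (N * L ^ 8) := by
    calc ((lev (FF f N) (4 * N) N j).card : ℝ) * (N / 2 ^ (j + 1)) ^ 2 =
          ∑ _t ∈ lev (FF f N) (4 * N) N j, ((N : ℝ) / 2 ^ (j + 1)) ^ 2 := by rw [sum_const, nsmul_eq_mul]
      _ ≤ ∑ t ∈ lev (FF f N) (4 * N) N j, FF f N t ^ 2 := by
          apply sum_le_sum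
          intro t ht
          unfold lev at ht
          rw [mem_filter] at ht
          exact pow_le_pow_left₀ (by positivity) ht.2.1.le 2
      _ ≤ ∑ t ∈ range (4 * N), FF f N t ^ 2 := by
          apply sum_le_sum_of_subset_of_nonneg
          · unfold lev; exact filter_subset _ _
          · intro _ _ _; positivity
      _ ≤ _ := h2
  have e1 : ((N : ℝ) / 2 ^ (j + 1)) ^ 2 = N ^ 2 / (4 * 4 ^ j) := by
    rw [div_pow, ← pow_mul, mul_comm (j + 1) 2, pow_mul, pow_succ]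
    norm_num
    ring_nf
  rw [e1] at h3
  have h4 : ((lev (FF f N) (4 * N) N j).card : ℝ) / (4 * 4 ^ j) * (N : ℝ) ^ 2 ≤ (4 * L ^ 8) * (N : ℝ) ^ 2 := by
    calc ((lev (FF f N) (4 * N) N j).card : ℝ) / (4 * 4 ^ j) * (N : ℝ) ^ 2 =
          ((lev (FF f N) (4 * N) N j).card : ℝ) * ((N : ℝ) ^ 2 / (4 * 4 ^ j)) := by ring
      _ ≤ _ := h3
      _ = _ := by ring
  have h5 := le_of_mul_le_mul_right h4 (by positivity)
  rw [div_le_iff₀ (by positivity)] at h5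
  refine h5.trans ?_
  calc 4 * L ^ 8 * (4 * 4 ^ j) = 16 * (L ^ 8 * 4 ^ j) := by ring
    _ ≤ L * (L ^ 8 * 4 ^ j) := mul_le_mul_of_nonneg_right hL (by positivity)
    _ = _ := by ring

theorem lvl (N Q q A : ℕ) (L : ℝ) (hN : 1 ≤ N) (hQ : 1 ≤ Q) (hQN : Q ≤ N) (hq : Q ≤ q ∧ q < 2 * Q) (f : ℕ → ℝ)
    (hL : 100000 ≤ L) (hf2 : ∑ n ∈ Icc 1 N, f n ^ 2 ≤ N * L ^ 8) (hsup : ∀ t, FF f N t ≤ N)
    (hJ : ((Nat.log 2 N + 1 : ℕ) : ℝ) ≤ L ^ 2) (hJ2 : 2 * L ^ (2 * A + 4) ≤ √(N : ℝ))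
    (hmom : ((N : ℝ) / L ^ (2 * A + 4)) * (N / Q : ℕ) ≤
      ∑ m ∈ Icc 1 (N / Q), ‖∑ a ∈ Icc 1 N, GG N a *
        fz (fun k => ((f k : ℝ) : ℂ)) N ((a : ℤ) + (((Nat.lcm 2 q : ℕ) : ℤ) * m + (-((N : ℤ) + 1))))‖) :
    ∃ j < Nat.log 2 N + 1, 16 ^ j / (6 * L ^ (8 * A + 24)) ≤
      ((clp (4 * N) (N / Q) (Nat.lcm 2 q) (L ^ (8 * A + 44)) (lev (FF f N) (4 * N) N j)).card : ℝ) := by
  have hN0 : (0 : ℝ) < N := by exact_mod_cast hN
  have hL0 : 0 < L := by linarith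
  have hL1 : 1 ≤ L := by linarith
  have hP1 : 1 ≤ N / Q := Nat.div_pos hQN (by omega)
  have hs4 : Nat.lcm 2 q < 4 * Q := by
    rcases lcm_two_cases q with ⟨h4, h5⟩ | ⟨h4, h5⟩ <;> omega
  obtain ⟨j, hj1, hj2⟩ := level_main N N (N / Q) (4 * N) (Nat.log 2 N + 1) (by omega) hP1 (by omega)
    (fun k => ((f k : ℝ) : ℂ)) (GG N) (Nat.lcm 2 q) (-((N : ℤ) + 1)) (by
      intro a ha m hm n hn
      rw [mem_Icc] at ha hm hn
      have h1 : Nat.lcm 2 q * m ≤ 4 * N := by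
        calc Nat.lcm 2 q * m ≤ (4 * Q) * (N / Q) := Nat.mul_le_mul hs4.le hm.2
          _ = 4 * (N / Q * Q) := by ring
          _ ≤ 4 * N := Nat.mul_le_mul_left _ (Nat.div_mul_le_self _ _)
      have h2 : ((Nat.lcm 2 q : ℕ) : ℤ) * m ≤ 4 * N := by exact_mod_cast h1
      have h3 : (0 : ℤ) ≤ ((Nat.lcm 2 q : ℕ) : ℤ) * m := by positivity
      push_cast
      rw [abs_lt]
      constructor <;> omega) (GG_le N hN) (FF f N) (fun t => rfl) hsup ((N : ℝ) / L ^ (2 * A + 4))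
    (1 / L ^ (4 * A + 12)) (L ^ 9) (L ^ (8 * A + 44)) (by positivity) (by positivity) hmom (by
      have e1 : √(((4 * N : ℕ) : ℝ) * N * (1 / L ^ (4 * A + 12))) = 2 * N / L ^ (2 * A + 6) := by
        have e2 : ((4 * N : ℕ) : ℝ) * N * (1 / L ^ (4 * A + 12)) = (2 * N / L ^ (2 * A + 6)) ^ 2 := by
          rw [div_pow, ← pow_mul]
          push_cast
          rw [show (2 * A + 6) * 2 = 4 * A + 12 by ring]
          ring
        rw [e2, Real.sqrt_sq (by positivity)]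
      rw [e1]
      have e3 : L ^ (2 * A + 6) = L ^ (2 * A + 4) * L ^ 2 := by rw [← pow_add]
      rw [e3]
      push_cast
      push_cast at hJ
      calc ((Nat.log 2 N : ℝ) + 1) * ((N : ℝ) * (2 * N / (L ^ (2 * A + 4) * L ^ 2))) ≤
            L ^ 2 * ((N : ℝ) * (2 * N / (L ^ (2 * A + 4) * L ^ 2))) := mul_le_mul_of_nonneg_right hJ (by positivity)
        _ = (N : ℝ) / L ^ (2 * A + 4) * (4 * N) / 2 := by
            field_simp
            ring) (by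
      have e1 : N < 2 ^ (Nat.log 2 N + 1) := Nat.lt_pow_succ_log_self (by norm_num) N
      have e2 : (N : ℝ) < 2 ^ (Nat.log 2 N + 1) := by exact_mod_cast e1
      have e3 : (N : ℝ) = √(N : ℝ) * √(N : ℝ) := (Real.mul_self_sqrt hN0.le).symm
      have hsq : 0 < √(N : ℝ) := Real.sqrt_pos.2 hN0
      rw [div_mul_eq_mul_div, div_div, div_lt_div_iff₀ (by positivity) (by positivity)]
      calc (N : ℝ) * √(N : ℝ) * (L ^ (2 * A + 4) * 2) = N * (√(N : ℝ) * (2 * L ^ (2 * A + 4))) := by ring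
        _ ≤ N * (√(N : ℝ) * √(N : ℝ)) := by
            apply mul_le_mul_of_nonneg_left _ hN0.le
            exact mul_le_mul_of_nonneg_left hJ2 hsq.le
        _ = N * N := by rw [← e3]
        _ < N * 2 ^ (Nat.log 2 N + 1) := mul_lt_mul_of_pos_left e2 hN0)
    (lev_card N hN f L (by linarith) hf2) (by
      have e1 : L ^ (8 * A + 44) = (L ^ (4 * A + 12)) ^ 2 * L ^ 20 := by
        rw [← pow_mul, ← pow_add]; congr 1; ring
      rw [e1]
      have e2 : 2 * (1 / L ^ (4 * A + 12)) ^ 2 * ((L ^ (4 * A + 12)) ^ 2 * L ^ 20) = 2 * L ^ 20 := by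
        field_simp
      rw [e2]
      have e3 : (L ^ 9) ^ 2 = L ^ 18 := by rw [← pow_mul]
      have e4 : L ^ 20 = L ^ 18 * L ^ 2 := by rw [← pow_add]
      rw [e3, e4]
      have e5 : L ^ 1 ≤ L ^ 2 := pow_le_pow_right₀ hL1 (by norm_num)
      rw [pow_one] at e5
      have e6 : 0 < L ^ 18 := by positivity
      nlinarith)
  refine ⟨j, hj1, ?_⟩
  refine le_trans (le_of_eq ?_) hj2
  rw [div_pow, one_pow, ← pow_mul, show (4 * A + 12) * 2 = 8 * A + 24 by ring]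
  field_simp

end Pool.Agent.Y883.T3
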