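import Pool.Agent.Y883.T3.Fin
import Pool.Agent.Y883.Main

set_option autoImplicit false

/-! All moduli `q ≤ N ^ (2 / 3 - ρ)` outside the multiples of few integers have few exceptional multiples,
and the larger moduli with many exceptional multiples are few, apart from those multiples. -/

namespace Pool.Agent.Y883.T3

open Finset
open Pool.Agent.W93.GB (Good)

theorem main3 (ε : ℝ) (hε : 0 < ε) (ρ : ℝ) (hρ : 0 < ρ) (A : ℕ) :
    ∃ N₀ : ℕ, ∀ N : ℕ, N₀ ≤ N → ∃ D : Finset ℕ,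
      (∀ d ∈ D, Real.log N ^ A < (d : ℝ)) ∧
      (∀ X : ℝ, 1 ≤ X → ((D.filter (fun d : ℕ => (d : ℝ) ≤ X)).card : ℝ) ≤ X ^ ρ) ∧
      (∀ q : ℕ, 1 ≤ q → (q : ℝ) ≤ (N : ℝ) ^ (2 / 3 - ρ) → (∀ d ∈ D, ¬ d ∣ q) →
        ((badm (Good ε) N q).card : ℝ) ≤ (N : ℝ) / (q * Real.log N ^ A)) ∧
      ∀ X : ℕ, X ≤ N → (((Icc 1 X).filter (fun q => (∀ d ∈ D, ¬ d ∣ q) ∧
        (N : ℝ) / (q * Real.log N ^ A) < (badm (Good ε) N q).card)).card : ℝ) * N ≤ (X : ℝ) ^ 2 * (N : ℝ) ^ ρ := by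
  classical
  have HP : BB (Good ε) := fun h B C U hh => Pool.Agent.W93.GB.fam h B C U hh ε hε
  obtain ⟨B, hB⟩ := exists_nat_ge (6 / ρ)
  obtain ⟨k0, hk0⟩ := exists_nat_ge (4 / ρ)
  obtain ⟨k, hk⟩ : ∃ k, k = k0 + 2 := ⟨_, rfl⟩
  have hk2 : (2 : ℝ) ≤ k := by rw [hk]; push_cast; linarith [(Nat.cast_nonneg k0 : (0 : ℝ) ≤ k0)]
  have hkρ : 4 / ρ ≤ k := by rw [hk]; push_cast; linarith
  rw [div_le_iff₀ hρ] at hkρ
  obtain ⟨A', hA'⟩ : ∃ A', A' = A + B + 1 := ⟨_, rfl⟩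
  obtain ⟨η, hη⟩ : ∃ η : ℝ, η = 2 / (k : ℝ) := ⟨_, rfl⟩
  have hkpos : (0 : ℝ) < k := by linarith
  have hη0 : 0 < η := by rw [hη]; positivity
  have hη4 : 4 ≤ η * (2 * k) := by
    rw [hη]
    apply le_of_eq
    field_simp
    norm_num
  have hη1 : η ≤ 1 := by rw [hη, div_le_one hkpos]; exact hk2
  have hη2 : η ≤ ρ / 2 := by
    rw [hη, div_le_div_iff₀ hkpos (by norm_num)]
    linarith
  have hkρ2 : 1 / ((k : ℝ) + 1) < ρ / 2 := by
    rw [div_lt_div_iff₀ (by positivity) (by norm_num)]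
    nlinarith
  have hA0 : (0 : ℝ) < A' := by rw [hA']; push_cast; positivity
  have hA1 : 3 / (A' : ℝ) ≤ ρ / 2 := by
    rw [div_le_div_iff₀ hA0 (by norm_num)]
    rw [div_le_iff₀ hρ] at hB
    have : (B : ℝ) ≤ A' := by rw [hA']; push_cast; linarith [(Nat.cast_nonneg A : (0 : ℝ) ≤ A)]
    nlinarith
  obtain ⟨N₁, h1⟩ := core2 (Good ε) HP k A' A' η (ρ / 2) hη4 hη1 hkρ2
  obtain ⟨N₄, h4⟩ := core3 ε hε A' A' η ρ hη0 hη1 hρ
  obtain ⟨N₂, h2⟩ := Pool.Agent.H373R2.T7.ev_L' 20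
  obtain ⟨N₃, h3⟩ := tendsto_pow_log 2 (ρ / 2) (by linarith)
  refine ⟨N₁ + N₂ + N₃ + N₄ + 1, fun N hN => ?_⟩
  have hL := h2 N (by omega)
  have hN3 := h3 N (by omega)
  have c1 := h1 N (by omega)
  have c4 := h4 N (by omega)
  obtain ⟨L, hLd⟩ : ∃ L, L = Real.log (N : ℝ) := ⟨_, rfl⟩
  rw [← hLd] at hL c1 c4 ⊢
  have hL0 : 0 < L := by linarith
  have hL1 : 1 ≤ L := by linarith
  have hN0 : (0 : ℝ) < N := by exact_mod_cast (by omega : 0 < N)
  have hN1r : (1 : ℝ) ≤ N := by exact_mod_cast (by omega : 1 ≤ N)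
  have hY : 1 ≤ L ^ A' := one_le_pow₀ hL1
  obtain ⟨Rj, hRj⟩ : ∃ Rj : ℕ → Finset ℕ, Rj = fun j => (Icc 1 N).filter (fun q : ℕ =>
    2 ^ j ≤ q ∧ q < 2 * 2 ^ j ∧ (N : ℝ) / (q * L ^ A') < (badm (Good ε) N q).card) := ⟨_, rfl⟩
  have hmem : ∀ j : ℕ, ∀ q ∈ Rj j, (q ∈ Icc 1 N) ∧ 2 ^ j ≤ q ∧ q < 2 * 2 ^ j ∧
      (N : ℝ) / (q * L ^ A') < (badm (Good ε) N q).card := by
    intro j q hq
    rw [hRj, mem_filter] at hq
    exact hq
  obtain ⟨Jf, hJf⟩ : ∃ Jf : ℕ → ℝ, Jf = fun j => if (2 : ℝ) ^ j ≤ (N : ℝ) ^ (2 / 3 - ρ) then 0 else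
    (4 : ℝ) ^ j * (N : ℝ) ^ (ρ / 2) / N := ⟨_, rfl⟩
  have hJf0 : ∀ j, 0 ≤ Jf j := by
    intro j
    rw [hJf]
    simp only
    split_ifs
    · exact le_rfl
    · positivity
  have hJf1 : ∀ j, Jf j ≤ (4 : ℝ) ^ j * (N : ℝ) ^ (ρ / 2) / N := by
    intro j
    rw [hJf]
    simp only
    split_ifs
    · positivity
    · exact le_rfl
  have hst : ∀ j : ℕ, ∃ D : Finset ℕ, (∀ d ∈ D, L ^ A' < d) ∧
        (((Rj j).filter (fun q => ∀ d ∈ D, ¬ d ∣ q)).card : ℝ) ≤ Jf j ∧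
        ∀ X : ℝ, 1 ≤ X → ((D.filter (fun d : ℕ => (d : ℝ) ≤ X)).card : ℝ) ≤
          X ^ η * Real.log (Rj j).card + 1 := by
    intro j
    apply struct2 (L ^ A') η (Jf j) hY hη0 (hJf0 j) (Rj j).card (Rj j) le_rfl
    intro R' hR' hbig
    have hne : R'.Nonempty := by
      rw [← card_pos]
      have : (0 : ℝ) < R'.card := lt_of_le_of_lt (hJf0 j) hbig
      exact_mod_cast this
    by_cases hc : (2 : ℝ) ^ j ≤ (N : ℝ) ^ (2 / 3 - ρ)
    · exact c4 (2 ^ j) Nat.one_le_two_pow (by push_cast; exact hc) R' hne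
        (fun q hq => ⟨(hmem j q (hR' hq)).2.1, (hmem j q (hR' hq)).2.2.1⟩)
        (fun q hq => (hmem j q (hR' hq)).2.2.2)
    · obtain ⟨q0, hq0⟩ := hne
      have hq1 := hmem j q0 (hR' hq0)
      apply c1 (2 ^ j) Nat.one_le_two_pow (hq1.2.1.trans (mem_Icc.1 hq1.1).2) R'
        (fun q hq => ⟨(hmem j q (hR' hq)).2.1, (hmem j q (hR' hq)).2.2.1⟩)
        (fun q hq => (hmem j q (hR' hq)).2.2.2)
      rw [hJf] at hbig
      simp only at hbig
      rw [if_neg hc, div_lt_iff₀ hN0] at hbig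
      have e : (((2 ^ j : ℕ) : ℝ)) ^ 2 = (4 : ℝ) ^ j := by
        push_cast
        rw [← pow_mul, mul_comm, pow_mul]
        norm_num
      rw [e]
      exact hbig
  choose Dj hDj using hst
  obtain ⟨J, hJ⟩ : ∃ J, J = Nat.log 2 N + 1 := ⟨_, rfl⟩
  have hJL : (J : ℝ) ≤ 2 * L + 1 := by
    rw [hJ]
    push_cast
    have h3 : (Nat.log 2 N : ℝ) ≤ Real.logb 2 N := by
      have := Real.natLog_le_logb N 2
      exact_mod_cast this
    have h4 : Real.logb 2 N ≤ 2 * L := by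
      rw [Real.logb, ← hLd, div_le_iff₀ (Real.log_pos (by norm_num))]
      have h2 : (1 : ℝ) ≤ 2 * Real.log 2 := by linarith [Real.log_two_gt_d9]
      calc L = L * 1 := (mul_one L).symm
        _ ≤ L * (2 * Real.log 2) := mul_le_mul_of_nonneg_left h2 hL0.le
        _ = 2 * L * Real.log 2 := by ring
    linarith
  have hcardlog : ∀ j, Real.log (Rj j).card ≤ L := by
    intro j
    rcases Nat.eq_zero_or_pos (Rj j).card with h0 | h0
    · rw [h0]; simp; linarith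
    · rw [hLd]
      apply Real.log_le_log (by exact_mod_cast h0)
      have : (Rj j).card ≤ N := by
        calc (Rj j).card ≤ (Icc 1 N).card := by rw [hRj]; exact card_filter_le _ _
          _ = N := by simp
      exact_mod_cast this
  have hlogj : ∀ q : ℕ, q ≤ N → Nat.log 2 q ∈ range J := by
    intro q hq
    rw [mem_range, hJ]
    have := Nat.log_mono_right (b := 2) hq
    omega
  -- a bad modulus without a divisor in the set is in the leftover of its block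
  have hleft : ∀ q : ℕ, 1 ≤ q → q ≤ N → (∀ d ∈ (range J).biUnion Dj, ¬ d ∣ q) →
      (N : ℝ) / (q * L ^ A) < (badm (Good ε) N q).card →
      q ∈ (Rj (Nat.log 2 q)).filter (fun q' => ∀ d ∈ Dj (Nat.log 2 q), ¬ d ∣ q') := by
    intro q hq1 hqN hqD hqb
    have hq0 : (0 : ℝ) < q := by exact_mod_cast hq1
    rw [mem_filter, hRj, mem_filter, mem_Icc]
    refine ⟨⟨⟨hq1, hqN⟩, Nat.pow_log_le_self 2 (by omega), ?_, ?_⟩, ?_⟩
    · have := Nat.lt_pow_succ_log_self (by norm_num : 1 < 2) q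
      rw [pow_succ] at this
      omega
    · refine lt_of_le_of_lt ?_ hqb
      apply div_le_div_of_nonneg_left hN0.le (by positivity)
      apply mul_le_mul_of_nonneg_left _ hq0.le
      apply pow_le_pow_right₀ hL1
      omega
    · intro d hd
      apply hqD
      exact mem_biUnion.2 ⟨Nat.log 2 q, hlogj q hqN, hd⟩
  refine ⟨(range J).biUnion Dj, ?_, ?_, ?_, ?_⟩
  · intro d hd
    obtain ⟨j, _, hj⟩ := mem_biUnion.1 hd
    have h3 := (hDj j).1 d hj
    refine lt_of_le_of_lt ?_ h3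
    apply pow_le_pow_right₀ hL1
    omega
  · intro X hX
    have hX0 : 0 < X := by linarith
    rcases le_or_gt X (L ^ A') with hXY | hXY
    · have h3 : ((range J).biUnion Dj).filter (fun d : ℕ => (d : ℝ) ≤ X) = ∅ := by
        rw [filter_eq_empty_iff]
        intro d hd hdX
        obtain ⟨j, _, hj⟩ := mem_biUnion.1 hd
        have h3 := (hDj j).1 d hj
        linarith
      rw [h3]
      simp
      positivity
    · have h3 : (((range J).biUnion Dj).filter (fun d : ℕ => (d : ℝ) ≤ X)).card ≤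
          ∑ j ∈ range J, ((Dj j).filter (fun d : ℕ => (d : ℝ) ≤ X)).card := by
        rw [filter_biUnion]
        exact card_biUnion_le
      have hXη1 : 1 ≤ X ^ η := Real.one_le_rpow hX hη0.le
      calc ((((range J).biUnion Dj).filter (fun d : ℕ => (d : ℝ) ≤ X)).card : ℝ)
          ≤ ((∑ j ∈ range J, ((Dj j).filter (fun d : ℕ => (d : ℝ) ≤ X)).card : ℕ) : ℝ) := by
            exact_mod_cast h3
        _ = ∑ j ∈ range J, (((Dj j).filter (fun d : ℕ => (d : ℝ) ≤ X)).card : ℝ) := by push_cast; rfl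
        _ ≤ ∑ _j ∈ range J, (X ^ η * L + 1) := by
            apply sum_le_sum
            intro j _
            refine ((hDj j).2.2 X hX).trans ?_
            have := mul_le_mul_of_nonneg_left (hcardlog j) (by positivity : 0 ≤ X ^ η)
            linarith
        _ = J * (X ^ η * L + 1) := by rw [sum_const, card_range, nsmul_eq_mul]
        _ ≤ (2 * L + 1) * (X ^ η * L + 1) := mul_le_mul_of_nonneg_right hJL (by positivity)
        _ ≤ (3 * L) * (X ^ η * L + X ^ η * L) := by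
            apply mul_le_mul (by linarith) _ (by positivity) (by positivity)
            nlinarith
        _ = 6 * (L ^ 2 * X ^ η) := by ring
        _ ≤ L * (L ^ 2 * X ^ η) := mul_le_mul_of_nonneg_right (by linarith) (by positivity)
        _ = L ^ 3 * X ^ η := by ring
        _ ≤ X ^ (3 / (A' : ℝ)) * X ^ η := by
            apply mul_le_mul_of_nonneg_right _ (by positivity)
            have e1 : L ^ 3 = (L ^ A') ^ (3 / (A' : ℝ)) := by
              rw [← Real.rpow_natCast L A', ← Real.rpow_mul hL0.le, mul_div_cancel₀ _ hA0.ne']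
              norm_num
            rw [e1]
            exact Real.rpow_le_rpow (by positivity) hXY.le (by positivity)
        _ = X ^ (3 / (A' : ℝ) + η) := by rw [Real.rpow_add hX0]
        _ ≤ X ^ ρ := Real.rpow_le_rpow_of_exponent_le hX (by linarith)
  · intro q hq1 hqN hqD
    by_contra hcon
    rw [not_le] at hcon
    have hqN' : q ≤ N := by
      have : (q : ℝ) ≤ (N : ℝ) ^ (1 : ℝ) := hqN.trans (rpow_step _ _ _ hN1r (by linarith))
      rw [Real.rpow_one] at this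
      exact_mod_cast this
    have h5 := hleft q hq1 hqN' hqD hcon
    have h6 := (hDj (Nat.log 2 q)).2.1
    have h7 : Jf (Nat.log 2 q) = 0 := by
      rw [hJf]
      simp only
      rw [if_pos]
      refine le_trans ?_ hqN
      exact_mod_cast Nat.pow_log_le_self 2 (by omega)
    rw [h7] at h6
    have h8 := card_pos.2 ⟨q, h5⟩
    have h9 := (Nat.cast_pos (α := ℝ)).2 h8
    exact absurd h6 (not_le.2 (by convert h9))
  · intro X hXN
    rcases Nat.eq_zero_or_pos X with hX0 | hX0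
    · subst hX0
      simp
    have hX0r : (0 : ℝ) < X := by exact_mod_cast hX0
    obtain ⟨n, hn⟩ : ∃ n, n = Nat.log 2 X := ⟨_, rfl⟩
    have hsub : (Icc 1 X).filter (fun q => (∀ d ∈ (range J).biUnion Dj, ¬ d ∣ q) ∧
        (N : ℝ) / (q * L ^ A) < (badm (Good ε) N q).card) ⊆
        (range (n + 1)).biUnion (fun j => (Rj j).filter (fun q => ∀ d ∈ Dj j, ¬ d ∣ q)) := by
      intro q hq
      rw [mem_filter, mem_Icc] at hq
      obtain ⟨⟨hq1, hqX⟩, hqD, hqb⟩ := hq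
      rw [mem_biUnion]
      refine ⟨Nat.log 2 q, ?_, hleft q hq1 (hqX.trans hXN) hqD hqb⟩
      rw [mem_range, hn]
      have := Nat.log_mono_right (b := 2) hqX
      omega
    have h4 : (((Icc 1 X).filter (fun q => (∀ d ∈ (range J).biUnion Dj, ¬ d ∣ q) ∧
        (N : ℝ) / (q * L ^ A) < (badm (Good ε) N q).card)).card : ℝ) ≤
        ∑ j ∈ range (n + 1), (4 : ℝ) ^ j * (N : ℝ) ^ (ρ / 2) / N := by
      refine le_trans (?_ : _ ≤ ((∑ j ∈ range (n + 1), ((Rj j).filter (fun q => ∀ d ∈ Dj j, ¬ d ∣ q)).card : ℕ) : ℝ)) ?_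
      · exact_mod_cast (card_le_card hsub).trans card_biUnion_le
      · push_cast
        exact sum_le_sum fun j _ => ((hDj j).2.1).trans (hJf1 j)
    have h5 : ∑ j ∈ range (n + 1), (4 : ℝ) ^ j * (N : ℝ) ^ (ρ / 2) / N =
        (∑ j ∈ range (n + 1), (4 : ℝ) ^ j) * ((N : ℝ) ^ (ρ / 2) / N) := by
      rw [sum_mul]
      apply sum_congr rfl
      intro j _
      ring
    have h6 : (4 : ℝ) ^ n ≤ (X : ℝ) ^ 2 := by
      have h7 : 2 ^ n ≤ X := by rw [hn]; exact Nat.pow_log_le_self 2 (by omega)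
      have h8 : ((2 : ℝ) ^ n) ≤ X := by exact_mod_cast h7
      calc (4 : ℝ) ^ n = ((2 : ℝ) ^ n) ^ 2 := by
            rw [← pow_mul, mul_comm n 2, pow_mul]; norm_num
        _ ≤ (X : ℝ) ^ 2 := pow_le_pow_left₀ (by positivity) h8 2
    have h7 := sum_four n
    calc (((Icc 1 X).filter (fun q => (∀ d ∈ (range J).biUnion Dj, ¬ d ∣ q) ∧
        (N : ℝ) / (q * L ^ A) < (badm (Good ε) N q).card)).card : ℝ) * N ≤
          ((∑ j ∈ range (n + 1), (4 : ℝ) ^ j) * ((N : ℝ) ^ (ρ / 2) / N)) * N := by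
          rw [← h5]
          exact mul_le_mul_of_nonneg_right h4 hN0.le
      _ = (∑ j ∈ range (n + 1), (4 : ℝ) ^ j) * (N : ℝ) ^ (ρ / 2) := by
          field_simp
      _ ≤ (2 * (X : ℝ) ^ 2) * (N : ℝ) ^ (ρ / 2) := by
          apply mul_le_mul_of_nonneg_right _ (by positivity)
          linarith
      _ = (X : ℝ) ^ 2 * (2 * (N : ℝ) ^ (ρ / 2)) := by ring
      _ ≤ (X : ℝ) ^ 2 * ((N : ℝ) ^ (ρ / 2) * (N : ℝ) ^ (ρ / 2)) := by
          apply mul_le_mul_of_nonneg_left _ (by positivity)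
          exact mul_le_mul_of_nonneg_right hN3 (by positivity)
      _ = (X : ℝ) ^ 2 * (N : ℝ) ^ ρ := by rw [← Real.rpow_add hN0]; congr 2; ring

end Pool.Agent.Y883.T3
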